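import Pool.Agent.Lib.MP_bb37eb_nt.DE.FinSupp

/-! The values of a class `xi` at a family of local points form an admissible family. -/

namespace BB37

variable {b : ℕ → ℚ} {d : ℕ}

/-- the values at a family of points are admissible -/
theorem adm_al {n : ℕ} (hb : Tower b) (hn : b n = 1) (ξ : Xi b d)
    (f : ∀ v : Place, Pt (b d) (Kv v)) : Adm (fun v => al hb ξ (f v)) :=
  ⟨fin_al hb hn ξ f, fun _ hp => inU_al hp hb hn ξ (f (some _)), ⟨d, al_pow hb ξ _⟩⟩

end BB37
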