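import Pool.Agent.Lib.MP_bb37eb_nt.Core.Adm

/-! The abstract choice of the set of places. -/

namespace BB37

/-- the output of the module ODD -/
structure InvData where
  /-- the invariant of an admissible family -/
  Inv : (∀ v : Place, H2 (Kv v)) → H2 (Kv (some two))
  /-- the local classes of order two -/
  h : ∀ v : Place, H2 (Kv v)
  adm_mul : ∀ b b', Adm b → Adm b' → Adm (b * b')
  mul : ∀ b b', Adm b → Adm b' → Inv (b * b') = Inv b * Inv b'
  ker : ∀ b, Adm b → (Inv b = 1 ↔ Glob b)
  h_ne : ∀ v, h v ≠ 1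
  h_sq : ∀ v, h v * h v = 1
  h_adm : ∀ v, Adm (single v (h v))
  h_inv : ∀ v, Inv (single v (h v)) = h (some two)
  h_only : ∀ v x, Adm (single v x) → x * x = 1 → x = 1 ∨ x = h v
  h_two : ∀ x : H2 (Kv (some two)), x * x = 1 → x = 1 ∨ x = h (some two)

theorem Functional_theta : ∃ θ : ℕ → Kb ℚ, IsTheta θ := by
  classical
  have h : ∀ x : Kb ℚ, ∃ y : Kb ℚ, y ^ 2 = 2 + x := fun x =>
    IsAlgClosed.exists_pow_nat_eq (2 + x) two_pos
  choose f hf using h
  exact ⟨fun n => Nat.rec 0 (fun _ x => f x) n, rfl, fun k => hf _⟩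

/-- the trivial family is admissible (`InU 1`: take `c = 1`, `k = 0`, `u = 1` and any `theta`,
which exists by recursion with `IsAlgClosed.exists_pow_nat_eq`) -/
theorem adm_one : Adm 1 := by
  refine ⟨?_, ?_, ⟨0, ?_⟩⟩
  · simp
  · intro p _
    obtain ⟨θ, hθ⟩ := Functional_theta
    refine ⟨1, 0, θ, 1, cls_one, hθ, ⟨⊥, inferInstance, fun _ _ _ => rfl⟩, ?_⟩
    intro g h _ _
    simp
  · simp

/-- restricting an admissible family to a set of places -/
theorem Adm.restrict {b : ∀ v : Place, H2 (Kv v)} (hb : Adm b) (b' : ∀ v : Place, H2 (Kv v))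
    (h : ∀ v, b' v = b v ∨ b' v = 1) : Adm b' := by
  refine ⟨hb.fin.subset ?_, ?_, ?_⟩
  · intro v hv
    rcases h v with h1 | h1
    · intro h2
      exact hv (h1.trans h2)
    · exact absurd h1 hv
  · intro p hp
    rcases h (some p) with h1 | h1
    · rw [h1]
      exact hb.odd p hp
    · rw [h1]
      exact adm_one.odd p hp
  · rcases h (some two) with h1 | h1
    · rw [h1]
      exact hb.at2
    · rw [h1]
      exact adm_one.at2

theorem Functional_single_self (v : Place) (x : H2 (Kv v)) : BB37.single v x v = x := by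
  classical
  exact Function.update_self (β := fun w => H2 (Kv w)) v x 1

theorem Functional_single_ne {v w : Place} (h : w ≠ v) (x : H2 (Kv v)) :
    BB37.single v x w = 1 := by
  classical
  exact Function.update_of_ne (β := fun w => H2 (Kv w)) h x 1

theorem Adm.single {b : ∀ v : Place, H2 (Kv v)} (hb : Adm b) (v : Place) :
    Adm (BB37.single v (b v)) := by
  refine hb.restrict _ fun w => ?_
  rcases eq_or_ne w v with rfl | h
  · exact Or.inl (Functional_single_self w _)
  · exact Or.inr (Functional_single_ne h _)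

section

variable (I : InvData)

theorem InvData.inv_one : I.Inv 1 = 1 := by
  have h := I.mul 1 1 adm_one adm_one
  rw [mul_one] at h
  exact left_eq_mul.1 h

/-- finite products of the classes `h v` at different places: admissible, and the invariant is
`h two ^ card` (induction on the finite set with `I.adm_mul`, `I.mul`, `I.h_inv`) -/
theorem InvData.prod_single (s : Finset Place) :
    Adm (∏ v ∈ s, single v (I.h v)) ∧
      I.Inv (∏ v ∈ s, single v (I.h v)) = I.h (some two) ^ s.card := by
  classical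
  induction s using Finset.induction_on with
  | empty =>
    rw [Finset.prod_empty, Finset.card_empty, pow_zero]
    exact ⟨adm_one, I.inv_one⟩
  | insert a s ha ih =>
    rw [Finset.prod_insert ha, Finset.card_insert_of_notMem ha]
    refine ⟨I.adm_mul _ _ (I.h_adm a) ih.1, ?_⟩
    rw [I.mul _ _ (I.h_adm a) ih.1, I.h_inv, ih.2, pow_succ']

end

open Classical in
theorem Functional_ind {H : Type*} [Group H] {h x y : H} (h1 : h ≠ 1) (h2 : h * h = 1)
    (hx : x = 1 ∨ x = h) (hy : y = 1 ∨ y = h) :
    (if x * y = 1 then (0 : ZMod 2) else 1) =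
      (if x = 1 then 0 else 1) + (if y = 1 then 0 else 1) := by
  rcases hx with rfl | rfl
  · rw [one_mul, if_pos rfl, zero_add]
  · rcases hy with rfl | rfl
    · rw [mul_one, if_pos rfl, add_zero]
    · rw [if_pos h2, if_neg h1]
      decide

/-- a function `L` on a group with values in `ZMod 2` which is additive and vanishes where
`P` vanishes comes from a linear functional -/
theorem Functional_lin {G V : Type*} [Group G] [AddCommGroup V] [Module (ZMod 2) V]
    (P : G → V) (L : G → ZMod 2) (hP : ∀ g g', P (g * g') = P g + P g')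
    (hL : ∀ g g', L (g * g') = L g + L g') (h : ∀ g, P g = 0 → L g = 0) :
    ∃ F : V →ₗ[ZMod 2] ZMod 2, ∀ g, F (P g) = L g := by
  have hP1 : P 1 = 0 := by
    have := hP 1 1
    rw [mul_one] at this
    exact left_eq_add.1 this
  have hL1 : L 1 = 0 := h 1 hP1
  let W : Submodule (ZMod 2) (V × ZMod 2) :=
    { carrier := {p | ∃ g, p = (P g, L g)}
      add_mem' := by
        rintro _ _ ⟨g, rfl⟩ ⟨g', rfl⟩
        exact ⟨g * g', by rw [hP, hL]; rfl⟩
      zero_mem' := ⟨1, by rw [hP1, hL1]; rfl⟩
      smul_mem' := by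
        rintro c _ ⟨g, rfl⟩
        have hc : ∀ c : ZMod 2, c = 0 ∨ c = 1 := by decide
        rcases hc c with rfl | rfl
        · exact ⟨1, by rw [zero_smul, hP1, hL1]; rfl⟩
        · exact ⟨g, by rw [one_smul]⟩ }
  have hW : ((0 : V), (1 : ZMod 2)) ∉ W := by
    rintro ⟨g, hg⟩
    rw [Prod.mk.injEq] at hg
    have := h g hg.1.symm
    rw [← hg.2] at this
    exact one_ne_zero this
  obtain ⟨f, hf1, hf2⟩ := Submodule.exists_dual_map_eq_bot_of_notMem hW inferInstance
  have hc : ∀ c : ZMod 2, c ≠ 0 → c = 1 := by decide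
  have hf1' : f (0, 1) = 1 := hc _ hf1
  refine ⟨f.comp (LinearMap.inl (ZMod 2) V (ZMod 2)), fun g => ?_⟩
  have h1 : f (P g, L g) = 0 := by
    have h2 : f (P g, L g) ∈ W.map f := ⟨_, ⟨g, rfl⟩, rfl⟩
    rw [hf2] at h2
    exact h2
  have h3 : (P g, L g) = (P g, (0 : ZMod 2)) + L g • ((0 : V), (1 : ZMod 2)) := by
    ext
    · simp
    · simp
  rw [h3, map_add, map_smul, hf1', smul_eq_mul, mul_one] at h1
  have h4 : f (P g, 0) = -L g := eq_neg_of_add_eq_zero_left h1
  have h5 : ∀ c : ZMod 2, -c = c := by decide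
  rw [h5] at h4
  exact h4

open Classical in
/-- Abstract functional lemma. `G` is a group of parameters (the cocycles `xi`), `A g` the family
of the values at the point, `B g` the class of the obstruction, over the rationals.

Proof. (1) `L g = I.Inv (A g)` is a homomorphism; `B g = 1` implies `Glob (A g)`, hence `L g = 1`
(`I.ker`). As `B (g * g) = 1`, `L g ^ 2 = 1`, so `L g` is `1` or `h two` (`I.h_two`).
(2) For every place `v` the class `res (B g)` is `1` or `h v`: it has square 1 and
`Adm (single v _)` (`Adm.single`), use `I.h_only`.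
(3) `phi g : Place →₀ ZMod 2` = indicator of the finite set of `v` with `res (B g) ≠ 1`
(`(hB g).fin`); `phi (g g') = phi g + phi g'` by (2) and `h v * h v = 1`. If `phi g = 0` then
`B g = 1` by `hinj`, so `L g = 1`.
(4) `lam g = if L g = 1 then 0 else 1` in `ZMod 2` is additive and vanishes on the kernel of `phi`.
Descend `lam` to the range of `phi` (`AddMonoidHom.liftOfSurjective` for `phi.rangeRestrict` on
`Additive G`), turn it into a `ZMod 2`-linear map (`AddMonoidHom.toZModLinearMap`,
`AddSubgroup.toZModSubmodule`), extend it to `F` on `Place →₀ ZMod 2` (`LinearMap.exists_extend`).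
(5) `S = {v | F (single v 1) = 1}`. The family `R v = if v ∈ S then res (B g) else 1` is the
product of `single v (h v)` over the finite set `s` of `v ∈ S` with `res (B g) ≠ 1`; its invariant
is `h two ^ card s`, and `card s` mod 2 is `F (phi g) = lam g`. So `I.Inv (A g * R) = 1` and the
family is global by `I.ker`. -/
theorem exists_places (I : InvData) {G : Type} [CommGroup G]
    (A : G → ∀ v : Place, H2 (Kv v)) (B : G → H2 ℚ)
    (hA : ∀ g, Adm (A g)) (hAm : ∀ g g', A (g * g') = A g * A g')
    (hB : ∀ g, Adm (fun v => res ℚ (Kv v) (B g))) (hBm : ∀ g g', B (g * g') = B g * B g')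
    (hB2 : ∀ g, B g * B g = 1)
    (hBA : ∀ g, B g = 1 → Glob (A g))
    (hinj : ∀ x : H2 ℚ, (∀ p : Nat.Primes, res ℚ (Kv (some p)) x = 1) → x = 1) :
    ∃ S : Set Place, ∀ g, Glob (fun v => A g v * (if v ∈ S then res ℚ (Kv v) (B g) else 1)) := by
  have hBsq : ∀ g v, res ℚ (Kv v) (B g) * res ℚ (Kv v) (B g) = 1 := by
    intro g v
    rw [← map_mul, hB2, map_one]
  -- (2)
  have h2 : ∀ g v, res ℚ (Kv v) (B g) = 1 ∨ res ℚ (Kv v) (B g) = I.h v := fun g v =>
    I.h_only v _ ((hB g).single v) (hBsq g v)
  -- (1)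
  have hLm : ∀ g g', I.Inv (A (g * g')) = I.Inv (A g) * I.Inv (A g') := by
    intro g g'
    rw [hAm, I.mul _ _ (hA g) (hA g')]
  have hL2 : ∀ g, I.Inv (A g) = 1 ∨ I.Inv (A g) = I.h (some two) := by
    intro g
    apply I.h_two
    rw [← hLm]
    have h1 : B (g * g) = 1 := by rw [hBm, hB2]
    exact (I.ker _ (hA _)).2 (hBA _ h1)
  -- (3)
  let P : G → (Place →₀ ZMod 2) := fun g =>
    Finsupp.ofSupportFinite (fun v => if res ℚ (Kv v) (B g) = 1 then 0 else 1) (by
      refine (hB g).fin.subset ?_
      intro v hv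
      rw [Function.mem_support] at hv
      intro h0
      exact hv (if_pos h0))
  have hPv : ∀ g v, P g v = if res ℚ (Kv v) (B g) = 1 then 0 else 1 := fun g v => rfl
  have hPm : ∀ g g', P (g * g') = P g + P g' := by
    intro g g'
    ext v
    rw [Finsupp.add_apply, hPv, hPv, hPv, hBm, map_mul]
    exact Functional_ind (I.h_ne v) (I.h_sq v) (h2 g v) (h2 g' v)
  have hP0 : ∀ g, P g = 0 → B g = 1 := by
    intro g hg
    apply hinj
    intro p
    by_contra hne
    have h1 := hPv g (some p)
    rw [hg, if_neg hne, Finsupp.zero_apply] at h1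
    exact zero_ne_one h1
  -- (4)
  let L : G → ZMod 2 := fun g => if I.Inv (A g) = 1 then 0 else 1
  have hLadd : ∀ g g', L (g * g') = L g + L g' := by
    intro g g'
    change (if I.Inv (A (g * g')) = 1 then (0 : ZMod 2) else 1) = _
    rw [hLm]
    exact Functional_ind (I.h_ne _) (I.h_sq _) (hL2 g) (hL2 g')
  have hL0 : ∀ g, P g = 0 → L g = 0 := by
    intro g hg
    exact if_pos ((I.ker _ (hA g)).2 (hBA g (hP0 g hg)))
  obtain ⟨F, hF⟩ := Functional_lin P L hPm hLadd hL0
  -- (5)
  refine ⟨{v | F (Finsupp.single v 1) = 1}, fun g => ?_⟩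
  set S : Set Place := {v | F (Finsupp.single v 1) = 1} with hS
  set T : Finset Place := (hB g).fin.toFinset with hT
  have hTm : ∀ v, v ∈ T ↔ res ℚ (Kv v) (B g) ≠ 1 := by
    intro v
    rw [hT, Set.Finite.mem_toFinset]
    rfl
  set s : Finset Place := T.filter (fun v => v ∈ S) with hs
  set R : ∀ v : Place, H2 (Kv v) := fun v => if v ∈ S then res ℚ (Kv v) (B g) else 1 with hR
  have hRs : R = ∏ v ∈ s, single v (I.h v) := by
    funext w
    rw [Finset.prod_apply]
    by_cases hw : w ∈ s
    · rw [Finset.prod_eq_single w (fun v _ hv => Functional_single_ne hv.symm _)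
        (fun h => absurd hw h), Functional_single_self]
      rw [hs, Finset.mem_filter] at hw
      have h3 : R w = res ℚ (Kv w) (B g) := if_pos hw.2
      rw [h3]
      exact (h2 g w).resolve_left ((hTm w).1 hw.1)
    · rw [Finset.prod_eq_one fun v hv => Functional_single_ne (by rintro rfl; exact hw hv) _]
      by_cases hwS : w ∈ S
      · have h3 : R w = res ℚ (Kv w) (B g) := if_pos hwS
        rw [h3]
        by_contra hne
        exact hw (by rw [hs, Finset.mem_filter]; exact ⟨(hTm w).2 hne, hwS⟩)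
      · exact if_neg hwS
  obtain ⟨hRa, hRi⟩ := I.prod_single s
  rw [← hRs] at hRa hRi
  -- parity
  have hcard : (s.card : ZMod 2) = L g := by
    rw [← hF]
    have h3 : P g = ∑ v ∈ T, Finsupp.single v (1 : ZMod 2) := by
      ext w
      rw [hPv, Finsupp.finsetSum_apply]
      simp only [Finsupp.single_apply]
      rw [Finset.sum_ite_eq' T w fun _ => (1 : ZMod 2)]
      by_cases hw : res ℚ (Kv w) (B g) = 1
      · rw [if_pos hw, if_neg]
        rw [hTm]
        exact fun h => h hw
      · rw [if_neg hw, if_pos ((hTm w).2 hw)]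
    rw [h3, map_sum, hs, Finset.card_filter, Nat.cast_sum]
    refine Finset.sum_congr rfl fun v _ => ?_
    by_cases hv : v ∈ S
    · rw [if_pos hv, Nat.cast_one]
      exact hv.symm
    · rw [if_neg hv, Nat.cast_zero]
      have hc : ∀ c : ZMod 2, c ≠ 1 → 0 = c := by decide
      exact hc _ hv
  have hadm : Adm (A g * R) := I.adm_mul _ _ (hA g) hRa
  have hinv : I.Inv (A g * R) = 1 := by
    rw [I.mul _ _ (hA g) hRa, hRi]
    rcases hL2 g with h3 | h3
    · have h4 : L g = 0 := if_pos h3
      rw [h4, ZMod.natCast_eq_zero_iff_even] at hcard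
      obtain ⟨m, hm⟩ := hcard
      rw [h3, one_mul, hm, ← two_mul, pow_mul, pow_two, I.h_sq, one_pow]
    · have h4 : L g = 1 := if_neg (by rw [h3]; exact I.h_ne _)
      rw [h4, ZMod.natCast_eq_one_iff_odd] at hcard
      obtain ⟨m, hm⟩ := hcard
      rw [h3, hm, pow_succ, pow_mul, pow_two, I.h_sq, one_pow, one_mul, I.h_sq]
  have hfin : Glob (A g * R) := (I.ker _ hadm).1 hinv
  have heq : (fun v => A g v * (if v ∈ S then res ℚ (Kv v) (B g) else 1)) = A g * R := by
    funext v
    rw [Pi.mul_apply, hR]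
  rw [← heq] at hfin
  convert hfin

end BB37
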