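import Pool.Agent.Lib.MP_bb37eb_nt.DE.Lift
import Pool.Agent.Lib.MP_bb37eb_nt.DE.Functional
import Pool.Agent.Lib.MP_bb37eb_nt.DE.AdmAl

/-! One step of the descent: if the images `isoF (f v)` are orthogonal to all classes of the lower
curve, then the `f v` can be modified by 2-torsion points so as to be orthogonal to all classes of
the upper curve. -/

namespace BB37

variable {b : ℕ → ℚ} {d : ℕ}

theorem Xi.ext' {ξ ξ' : Xi b d} (h : ∀ g P, ξ.f g P = ξ'.f g P) : ξ = ξ' := by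
  cases ξ
  cases ξ'
  congr
  funext g P
  exact h g P

/-- the trivial cocycle -/
noncomputable def Xi.one : Xi b d where
  f := fun _ _ => 1
  smooth := ⟨⊥, inferInstance, fun _ _ _ => rfl⟩
  add := fun _ _ _ _ _ => (one_mul 1).symm
  coc := fun g _ _ _ => by rw [smul_one, one_mul]

noncomputable instance : CommGroup (Xi b d) where
  mul := Xi.mul
  one := Xi.one
  inv := Xi.inv
  mul_assoc := fun _ _ _ => Xi.ext' fun _ _ => mul_assoc _ _ _
  one_mul := fun _ => Xi.ext' fun _ _ => one_mul _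
  mul_one := fun _ => Xi.ext' fun _ _ => mul_one _
  inv_mul_cancel := fun _ => Xi.ext' fun _ _ => inv_mul_cancel _
  mul_comm := fun _ _ => Xi.ext' fun _ _ => mul_comm _ _

/-- orthogonality of a family of local points to all classes -/
def Orth (hb : Tower b) (e : ∀ v : Place, Pt (b d) (Kv v)) : Prop :=
  ∀ ξ : Xi b d, Glob (fun v => al hb ξ (e v))

theorem Glob.mul {x y : ∀ v : Place, H2 (Kv v)} (hx : Glob x) (hy : Glob y) :
    Glob (fun v => x v * y v) := by
  obtain ⟨γ, hγ⟩ := hx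
  obtain ⟨γ', hγ'⟩ := hy
  refine ⟨γ * γ', fun v => ?_⟩
  rw [map_mul, hγ, hγ']

theorem Glob.div {x y : ∀ v : Place, H2 (Kv v)} (hx : Glob x) (hy : Glob y) :
    Glob (fun v => x v / y v) := by
  obtain ⟨γ, hγ⟩ := hx
  obtain ⟨γ', hγ'⟩ := hy
  refine ⟨γ / γ', fun v => ?_⟩
  rw [map_div, hγ, hγ']

/-- values at a rational point are global -/
theorem glob_rat (hb : Tower b) (ξ : Xi b d) (e : Pt (b d) ℚ) :
    Glob (fun v => al hb ξ (mapF (b d) (Algebra.ofId ℚ (Kv v)) e)) :=
  ⟨al0 hb ξ e, fun v => al0_res hb ξ e (Kv v)⟩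

open Classical in
theorem descent_step (I : InvData)
    (hinj : ∀ x : H2 ℚ, (∀ p : Nat.Primes, res ℚ (Kv (some p)) x = 1) → x = 1)
    {n : ℕ} (hb : Tower b) (hn : b n = 1) (f : ∀ v : Place, Pt (b d) (Kv v))
    (h : Orth hb (d := d + 1) fun v => isoF (b d) (b (d + 1)) (f v)) :
    ∃ S : Set Place, Orth hb (fun v => f v + if v ∈ S then T (b d) else 0) := by
  have hT : ∀ (ξ : Xi b d) (v : Place), res ℚ (Kv v) (al0 hb ξ (T (b d))) =
      al hb ξ (T (b d) : Pt (b d) (Kv v)) := by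
    intro ξ v
    rw [al0_res, mapF_T (hb.ne' d)]
  obtain ⟨S, hS⟩ := exists_places I (G := Xi b d) (fun ξ v => al hb ξ (f v))
    (fun ξ => al0 hb ξ (T (b d))) (fun ξ => adm_al hb hn ξ f)
    (fun ξ ξ' => funext fun v => al_mul hb ξ ξ' (f v))
    (fun ξ => by
      simp only [hT]
      exact adm_al hb hn ξ _)
    (fun ξ ξ' => al0_mul hb ξ ξ' _) (fun ξ => al0_T_sq hb ξ)
    (fun ξ hξ => by
      obtain ⟨ξ₁, h1⟩ := lift_of_al0 hb ξ hξ
      have h2 := h ξ₁
      have e : (fun v => al hb ξ₁ (isoF (b d) (b (d + 1)) (f v))) = fun v => al hb ξ (f v) := by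
        funext v
        rw [al_restr]
        exact al_congr hb _ _ (fun g P hP => h1 g P hP) _
      exact e ▸ h2) hinj
  refine ⟨S, fun ξ => ?_⟩
  have e : (fun v => al hb ξ (f v + if v ∈ S then T (b d) else 0)) = fun v =>
      al hb ξ (f v) * (if v ∈ S then res ℚ (Kv v) (al0 hb ξ (T (b d))) else 1) := by
    funext v
    rw [al_add]
    congr 1
    by_cases hv : v ∈ S
    · rw [if_pos hv, if_pos hv, hT]
    · rw [if_neg hv, if_neg hv, al_zero]
  rw [e]
  exact hS ξ

end BB37
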