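import Pool.Agent.Lib.MP_bb37eb_nt.DE.Formal

/-! Translation by `T` in coordinates; quadratic characters. -/

namespace BB37

/-- translation by `T` in coordinates -/
theorem add_T_coords {b : ℚ} (hb : b ≠ 0) {K : Type} [Field K] [Algebra ℚ K] {P : Pt b K}
    (hP : xc b P ≠ 0) : xc b (P + T b) = algebraMap ℚ K b / xc b P ∧
      yc b (P + T b) = -(algebraMap ℚ K b * yc b P / xc b P ^ 2) := by
  refine ⟨xc_add_T hb hP, ?_⟩
  rw [yc_add_T hb hP, neg_div]

open Classical in
/-- `g` moves the square root of `a` -/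
def Moves {K : Type} [Field K] (a : K) (g : GK K) : Prop :=
  ∃ r : Kb K, r ^ 2 = algebraMap K (Kb K) a ∧ g r ≠ r

/-- a square root in the algebraic closure -/
theorem quad_exists_root {K : Type} [Field K] (a : K) : ∃ r : Kb K, r ^ 2 = algebraMap K (Kb K) a :=
  IsAlgClosed.exists_pow_nat_eq _ (by norm_num)

/-- `g` maps a square root to plus or minus itself -/
theorem root_pm {K : Type} [Field K] {a : K} (g : GK K) {r : Kb K}
    (hr : r ^ 2 = algebraMap K (Kb K) a) : g r = r ∨ g r = -r := by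
  apply sq_eq_sq_iff_eq_or_eq_neg.1
  rw [← map_pow, hr, AlgEquiv.commutes]

/-- `Moves` can be tested on any square root -/
theorem moves_iff {K : Type} [Field K] (a : K) (g : GK K) {r : Kb K}
    (hr : r ^ 2 = algebraMap K (Kb K) a) : Moves a g ↔ g r ≠ r := by
  constructor
  · rintro ⟨r', hr', h⟩ hc
    apply h
    rcases sq_eq_sq_iff_eq_or_eq_neg.1 (hr'.trans hr.symm) with rfl | rfl
    · exact hc
    · rw [map_neg, hc]
  · exact fun h => ⟨r, hr, h⟩

/-- `Moves a` is a quadratic character -/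
theorem moves_mul {K : Type} [Field K] (a : K) (g h : GK K) :
    Moves a (g * h) ↔ (Moves a g ↔ ¬ Moves a h) := by
  obtain ⟨r, hr⟩ := quad_exists_root a
  rw [moves_iff a _ hr, moves_iff a _ hr, moves_iff a _ hr, AlgEquiv.mul_apply]
  by_cases hh : h r = r
  · rw [hh]
    simp
  · have hh' : h r = -r := (root_pm h hr).resolve_left hh
    have hne : -r ≠ r := fun hc => hh (hh'.trans hc)
    rw [hh', map_neg]
    rcases root_pm g hr with hg | hg
    · rw [hg]
      simp [hne]
    · rw [hg, neg_neg]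
      simp [hne]

/-- restriction along `ℚ → K` -/
theorem moves_res {K : Type} [Field K] [Algebra ℚ K] (a : ℚ) (g : GK K) :
    Moves a (resG ℚ K g) ↔ Moves (algebraMap ℚ K a) g := by
  obtain ⟨r, hr⟩ := quad_exists_root a
  have hr' : emb ℚ K r ^ 2 = algebraMap K (Kb K) (algebraMap ℚ K a) := by
    rw [← map_pow, hr, AlgHom.commutes, IsScalarTower.algebraMap_apply ℚ K (Kb K)]
  rw [moves_iff a _ hr, moves_iff _ g hr', ← emb_resG]
  exact (emb ℚ K).toRingHom.injective.ne_iff.symm

theorem moves_smooth {K : Type} [Field K] (a : K) :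
    ∃ M : IntermediateField K (Kb K), FiniteDimensional K M ∧
      ∀ g h : GK K, Agree K M g h → (Moves a g ↔ Moves a h) := by
  obtain ⟨r, hr⟩ := quad_exists_root a
  obtain ⟨M, hM, hs⟩ := exists_finite_sub (K := K) {r} (Set.finite_singleton r)
  refine ⟨M, hM, fun g h hg => ?_⟩
  rw [moves_iff a _ hr, moves_iff a _ hr, hg r (hs rfl)]

end BB37
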