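import Pool.Agent.Lib.MP_bb37eb_nt.DE.TwoA
import Pool.Agent.Lib.MP_bb37eb_nt.DE.Quad1

/-! The intersection of the images of the tower over `ℚ_2` is `{0, T}`. -/

namespace BB37

theorem bval2 {b : ℕ → ℚ} (hb : Tower b) {k : ℕ} (hn : b (2 * k) = 1) {j : ℕ} (hj : j ≤ k) :
    b (2 * j) = (1 / 2) ^ (2 * (2 * (k - j))) := by
  obtain ⟨i, rfl⟩ : ∃ i, k = j + i := ⟨k - j, by omega⟩
  rw [Nat.add_sub_cancel_left]
  clear hj
  have h16 : ∀ d, b (d + 2) = 16 * b d := by
    intro d
    rw [hb.step (d + 1), hb.step d]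
    ring
  have h : ∀ i, b (2 * (j + i)) = 16 ^ i * b (2 * j) := by
    intro i
    induction i with
    | zero => simp
    | succ i ih =>
      have e : 2 * (j + (i + 1)) = 2 * (j + i) + 2 := by ring
      rw [e, h16, ih]
      ring
  have h2 := h i
  rw [hn] at h2
  have e : ((1 : ℚ) / 2) ^ (2 * (2 * i)) = (1 / 16) ^ i := by
    rw [← mul_assoc, pow_mul]
    norm_num
  rw [e]
  have h3 : ((1 : ℚ) / 16) ^ i * 16 ^ i = 1 := by
    rw [← mul_pow]
    norm_num
  linear_combination (-((1 : ℚ) / 16) ^ i) * h2 + (-b (2 * j)) * h3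

/-- the image of the composite of `2k` isogenies consists of `0` and of points with first
coordinate of norm `> 2^(2k)` (`k ≥ 1`).
Proof: let `P j = downF (2 j) f`. Claim for `1 ≤ j ≤ k`: `P j = 0` or `‖x (P j)‖ > 2^(2k)`.
`j = 1`: `P 0 = f` has `x = 0` (then it is `0` or `T` and `P 1 = 0`) or `two_step_norm` with
`m = 2k`. Step: `two_step_norm` with `m = 2 (k - j) ≤ 2k`, second part. -/
theorem down_norm {b : ℕ → ℚ} (hb : Tower b) {k : ℕ} (hk : 1 ≤ k) (hn : b (2 * k) = 1)
    (f : Pt (b 0) ℚ_[2]) : downF b ℚ_[2] (2 * k) f = 0 ∨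
      (2 : ℝ) ^ (2 * k) < ‖xc (b (2 * k)) (downF b ℚ_[2] (2 * k) f)‖ := by
  have hstep : ∀ (d : ℕ) (P : Pt (b 0) ℚ_[2]), downF b ℚ_[2] (d + 2) P =
      isoF (b (d + 1)) (b (d + 2)) (isoF (b d) (b (d + 1)) (downF b ℚ_[2] d P)) :=
    fun d P => rfl
  have claim : ∀ j, 1 ≤ j → j ≤ k → downF b ℚ_[2] (2 * j) f = 0 ∨
      (2 : ℝ) ^ (2 * k) < ‖xc (b (2 * j)) (downF b ℚ_[2] (2 * j) f)‖ := by
    intro j hj
    induction j, hj using Nat.le_induction with
    | base =>
      intro _
      by_cases hx : xc (b 0) f = 0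
      · left
        have e : downF b ℚ_[2] (0 + 2) f = 0 := by
          rw [hstep]
          have e2 : isoF (b 0) (b (0 + 1)) (downF b ℚ_[2] 0 f) = 0 := by
            rw [isoF, if_pos]
            exact hx
          rw [e2, iso_zero]
        exact e
      · right
        have hb0 : b 0 = (1 / 2) ^ (2 * (2 * k)) := by
          have := bval2 hb hn (Nat.zero_le k)
          simpa using this
        have h1 := (two_step_norm (2 * k) (even_two_mul k) hb0 (hb.step 0) (hb.step 1) f hx).1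
        exact h1
    | succ j hj ih =>
      intro hjk
      have e : 2 * (j + 1) = 2 * j + 2 := by ring
      rw [e]
      rcases ih (by omega) with h0 | h0
      · left
        rw [hstep, h0, iso_zero, iso_zero]
      · right
        have hm : (2 : ℝ) ^ (2 * (k - j)) ≤ 2 ^ (2 * k) :=
          pow_le_pow_right₀ (by norm_num) (by omega)
        have hx : xc (b (2 * j)) (downF b ℚ_[2] (2 * j) f) ≠ 0 := by
          intro hx
          rw [hx, norm_zero] at h0
          exact absurd h0 (not_lt.2 (by positivity))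
        have h1 := (two_step_norm (2 * (k - j)) (even_two_mul _)
          (bval2 hb hn (by omega : j ≤ k)) (hb.step (2 * j)) (hb.step (2 * j + 1)) _ hx).2
          (lt_of_le_of_lt hm h0)
        rw [hstep, h1]
        exact h0
  exact claim k hk le_rfl

/-- transport along an equality of coefficients -/
def castPt {b b' : ℚ} (h : b = b') {K : Type} [Field K] [Algebra ℚ K] (P : Pt b K) : Pt b' K :=
  h ▸ P

theorem xc_castPt {b b' : ℚ} (h : b = b') {K : Type} [Field K] [Algebra ℚ K] (P : Pt b K) :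
    xc b' (castPt h P) = xc b P := by
  subst h
  rfl

/-- the standard tower with `b n = 1` -/
noncomputable def bn (n : ℕ) (j : ℕ) : ℚ := (-4) ^ j * (-1 / 4) ^ n

theorem bn_tower (n : ℕ) : Tower (bn n) := by
  refine ⟨?_, fun d => ?_⟩
  · rw [bn]
    exact mul_ne_zero (pow_ne_zero _ (by norm_num)) (pow_ne_zero _ (by norm_num))
  · rw [bn, bn]
    ring

theorem bn_n (n : ℕ) : bn n n = 1 := by
  rw [bn, ← mul_pow]
  norm_num

/-- a point of `y^2 = x^3 + x` over `ℚ_2` which for all `k` is `down f` or `T + down f` is `0` or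
`T`: otherwise take `k` with `2^(2k)` larger than the norms of `x (e)` and `x (e + T)`; `e = down f`
contradicts `down_norm`, and so does `e + T = down f`. -/
theorem two_adic_end (e : Pt 1 ℚ_[2])
    (h : ∀ n : ℕ, ∃ f : Pt (bn n 0) ℚ_[2],
      castPt (bn_n n).symm e = downF (bn n) ℚ_[2] n f ∨
      castPt (bn_n n).symm e = T (bn n n) + downF (bn n) ℚ_[2] n f) : e = 0 ∨ e = T 1 := by
  by_contra hcon
  push Not at hcon
  have hx : xc 1 e ≠ 0 := by
    intro hx
    rcases (xc_eq_zero (one_ne_zero)).1 hx with h0 | h0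
    · exact hcon.1 h0
    · exact hcon.2 h0
  obtain ⟨k, hk⟩ := pow_unbounded_of_one_lt (max ‖xc 1 e‖ ‖(xc 1 e)⁻¹‖)
    (by norm_num : (1 : ℝ) < 2)
  have hk2 : max ‖xc 1 e‖ ‖(xc 1 e)⁻¹‖ < (2 : ℝ) ^ (2 * (k + 1)) :=
    lt_of_lt_of_le hk (pow_le_pow_right₀ (by norm_num) (by omega))
  have hb := bn_tower (2 * (k + 1))
  have hn := bn_n (2 * (k + 1))
  have hne : bn (2 * (k + 1)) (2 * (k + 1)) ≠ 0 := hb.ne' _
  have hxc := xc_castPt hn.symm e
  obtain ⟨f, hf⟩ := h (2 * (k + 1))
  have hd := down_norm hb (Nat.le_add_left 1 k) hn f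
  rcases hf with hf | hf
  · rw [← hf, hxc] at hd
    rcases hd with h0 | h0
    · apply hx
      rw [← hxc, h0]
      rfl
    · exact absurd (lt_of_le_of_lt (le_max_left _ _) hk2) (not_lt.2 h0.le)
  · have hf2 : downF (bn (2 * (k + 1))) ℚ_[2] (2 * (k + 1)) f = castPt hn.symm e + T _ := by
      rw [hf, add_comm (T _), add_assoc, T_add_T hne, add_zero]
    have hx' : xc _ (castPt hn.symm e) ≠ 0 := by
      rw [hxc]
      exact hx
    have e1 : algebraMap ℚ ℚ_[2] (bn (2 * (k + 1)) (2 * (k + 1))) = 1 := by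
      rw [hn, map_one]
    rw [hf2, xc_add_T hne hx', hxc, e1, one_div] at hd
    rcases hd with h0 | h0
    · exact add_T_ne_zero hne hx' h0
    · exact absurd (lt_of_le_of_lt (le_max_right _ _) hk2) (not_lt.2 h0.le)

end BB37
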