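import Pool.Agent.Lib.MP_bb37eb_nt.DE.Main
import Pool.Agent.Lib.MP_bb37eb_nt.DE.TwoB

/-! The conclusion of the descent for the curve `y^2 = x^3 + x`. -/

namespace BB37

/-- the invariant of the module ODD as a structure -/
theorem exists_invData : Nonempty InvData := by
  obtain ⟨Inv, h, h1, h2, h3, h4, h5⟩ := ODD_inv
  exact ⟨⟨Inv, h, ODD_adm_mul, h1, h2, fun v => (h3 v).1, fun v => (h3 v).2.1,
    fun v => (h3 v).2.2.1, fun v => (h3 v).2.2.2, h4, h5⟩⟩

/-- A family of local points of `y^2 = x^3 + x` which is orthogonal to the classes of all towers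
has 2-adic component `0` or `T`. -/
theorem DE_end (hinj : ∀ x : H2 ℚ, (∀ p : Nat.Primes, res ℚ (Kv (some p)) x = 1) → x = 1)
    (e : ∀ v : Place, Pt 1 (Kv v))
    (he : ∀ n : ℕ, Orth (bn_tower n) (d := n) fun v => castPt (bn_n n).symm (e v)) :
    e (some two) = 0 ∨ e (some two) = T 1 := by
  obtain ⟨I⟩ := exists_invData
  exact two_adic_end (e (some two)) fun n =>
    DE_main I hinj n (bn_tower n) (bn_n n) _ (he n)

end BB37
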