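import Pool.Agent.Lib.MP_bb37eb_nt.DE.Formal

/-! The values of `xi` have 2-power order. -/

namespace BB37

variable {b : ℕ → ℚ} {d : ℕ} {K : Type} [Field K] [Algebra ℚ K]

theorem coch_pow (hb : Tower b) {e : Pt (b d) K} (D : Div b d K e) (ξ : Xi b d)
    (q : GK K × GK K) : D.coch ξ q ^ 2 ^ d = 1 := by
  simp only [Div.coch]
  rw [← map_pow, ξ.pow_eq_one hb _ (ker_gact hb _ (D.hν _).1), map_one]

theorem al_pow (hb : Tower b) (ξ : Xi b d) (e : Pt (b d) K) : al hb ξ e ^ 2 ^ d = 1 := by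
  obtain ⟨D⟩ := exists_div hb K e
  rw [D.al hb, ← cls_pow, cls_eq_one]
  have e1 : (D.Z hb ξ ^ 2 ^ d).1 = 1 := by
    funext q
    exact coch_pow hb D ξ q
  rw [e1]
  exact (B2 K).one_mem

end BB37
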