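import Pool.Agent.Lib.MP_bb37eb_nt.DE.Quad2

/-! `delta` is multiplicative modulo squares and detects liftable points. -/

namespace BB37

/-- the Galois group moves a preimage by `0` or `T` -/
theorem q4_move {b b' : ℚ} (hb : b ≠ 0) (hb' : b' = -4 * b) {K : Type} [Field K]
    [Algebra ℚ K] {e : Pt b' K} {f : Pt b (Kb K)} (hf : isoF b b' f = mapF b' (incl K) e)
    (h : GK K) (hm : gact K b h f ≠ f) : gact K b h f = f + T b := by
  have h1 : isoF b b' (gact K b h f) = isoF b b' f := by
    have h2 : isoF b b' (gact K b h f) = gact K b' h (isoF b b' f) :=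
      iso_natural hb hb' _ _
    rw [h2, hf, gact_incl]
  have h3 : isoF b b' (gact K b h f - f) = 0 := by
    have h4 := iso_add hb hb' (gact K b h f - f) f
    rw [sub_add_cancel, h1] at h4
    exact right_eq_add.1 h4
  rcases (iso_ker hb hb' _).1 h3 with h4 | h4
  · exact absurd (sub_eq_zero.1 h4) hm
  · rw [← h4, add_sub_cancel]

theorem q4_sqrt {K : Type} [Field K] (a : K) : ∃ r : Kb K, r ^ 2 = algebraMap K (Kb K) a :=
  IsAlgClosed.exists_pow_nat_eq _ (by norm_num)

theorem q4_neg {K : Type} [Field K] {a : K} {r : Kb K} (hr : r ^ 2 = algebraMap K (Kb K) a)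
    (g : GK K) (h : g r ≠ r) : g r = -r := by
  have h1 : (g r) ^ 2 = r ^ 2 := by
    rw [← map_pow, hr]
    exact g.commutes a
  rcases sq_eq_sq_iff_eq_or_eq_neg.1 h1 with h2 | h2
  · exact absurd h2 h
  · exact h2

/-- `delta` is a homomorphism modulo squares. Proof: both sides have the same quadratic character
by `moves_delta` applied to preimages `f`, `f'`, `f + f'` (the differences `h f - f` are `0` or
`T`), and an element whose square root is fixed by the whole Galois group is a square. -/
theorem delta_add {b b' : ℚ} (hb : b ≠ 0) (hb' : b' = -4 * b) {K : Type} [Field K] [CharZero K]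
    (e e' : Pt b' K) : IsSquare (delta b' (e + e') * delta b' e * delta b' e') := by
  obtain ⟨f, hf⟩ := iso_surj hb hb' (mapF b' (incl K) e)
  obtain ⟨f', hf'⟩ := iso_surj hb hb' (mapF b' (incl K) e')
  have hff : isoF b b' (f + f') = mapF b' (incl K) (e + e') := by
    rw [iso_add hb hb', hf, hf', mapF_add]
  obtain ⟨r, hr⟩ := q4_sqrt (delta b' (e + e'))
  obtain ⟨r₁, hr₁⟩ := q4_sqrt (delta b' e)
  obtain ⟨r₂, hr₂⟩ := q4_sqrt (delta b' e')
  have hT : (T b : Pt b (Kb K)) ≠ 0 := T_ne_zero hb
  have hTT : (T b : Pt b (Kb K)) + T b = 0 := T_add_T hb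
  have key : ∀ g : GK K, g (r * r₁ * r₂) = r * r₁ * r₂ := by
    intro g
    have m0 := (moves_iff _ g hr).symm.trans (moves_delta hb hb' (e + e') (f + f') hff g)
    have m1 := (moves_iff _ g hr₁).symm.trans (moves_delta hb hb' e f hf g)
    have m2 := (moves_iff _ g hr₂).symm.trans (moves_delta hb hb' e' f' hf' g)
    rw [gact_add] at m0
    rw [map_mul, map_mul]
    by_cases h1 : gact K b g f = f <;> by_cases h2 : gact K b g f' = f'
    · have e0 : g r = r := by
        by_contra hc
        exact m0.1 hc (by rw [h1, h2])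
      have e1 : g r₁ = r₁ := by
        by_contra hc
        exact m1.1 hc h1
      have e2 : g r₂ = r₂ := by
        by_contra hc
        exact m2.1 hc h2
      rw [e0, e1, e2]
    · have h2' := q4_move hb hb' hf' g h2
      have e0 : g r = -r := by
        apply q4_neg hr
        apply m0.2
        rw [h1, h2', ← add_assoc]
        intro hc
        exact hT (add_eq_left.1 hc)
      have e1 : g r₁ = r₁ := by
        by_contra hc
        exact m1.1 hc h1
      have e2 : g r₂ = -r₂ := q4_neg hr₂ g (m2.2 h2)
      rw [e0, e1, e2]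
      ring
    · have h1' := q4_move hb hb' hf g h1
      have e0 : g r = -r := by
        apply q4_neg hr
        apply m0.2
        rw [h2, h1', add_right_comm]
        intro hc
        exact hT (add_eq_left.1 hc)
      have e2 : g r₂ = r₂ := by
        by_contra hc
        exact m2.1 hc h2
      have e1 : g r₁ = -r₁ := q4_neg hr₁ g (m1.2 h1)
      rw [e0, e1, e2]
      ring
    · have h1' := q4_move hb hb' hf g h1
      have h2' := q4_move hb hb' hf' g h2
      have e0 : g r = r := by
        by_contra hc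
        apply m0.1 hc
        rw [h1', h2', add_add_add_comm, hTT, add_zero]
      have e1 : g r₁ = -r₁ := q4_neg hr₁ g (m1.2 h1)
      have e2 : g r₂ = -r₂ := q4_neg hr₂ g (m2.2 h2)
      rw [e0, e1, e2]
      ring
  obtain ⟨t, ht⟩ := (InfiniteGalois.mem_range_algebraMap_iff_fixed (k := K) (K := Kb K)
    (r * r₁ * r₂)).2 key
  refine ⟨t, ?_⟩
  apply (algebraMap K (Kb K)).injective
  rw [map_mul, map_mul, map_mul, ht, ← hr, ← hr₁, ← hr₂]
  ring

/-- a point lifts iff `delta` is a square -/
theorem lift_of_delta {b b' : ℚ} (hb : b ≠ 0) (hb' : b' = -4 * b) {K : Type} [Field K]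
    [CharZero K] (e : Pt b' K) (h : IsSquare (delta b' e)) :
    ∃ f : Pt b K, isoF b b' f = e := by
  obtain ⟨f, hf⟩ := iso_surj hb hb' (mapF b' (incl K) e)
  obtain ⟨t, ht⟩ := h
  have hr : (algebraMap K (Kb K) t) ^ 2 = algebraMap K (Kb K) (delta b' e) := by
    rw [ht, map_mul, pow_two]
  have hfix : ∀ g : GK K, gact K b g f = f := by
    intro g
    by_contra hc
    have h1 := (moves_iff _ g hr).1 ((moves_delta hb hb' e f hf g).2 hc)
    exact h1 (g.commutes t)
  obtain ⟨f₀, hf₀⟩ := pt_exists_of_fixed hb f hfix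
  refine ⟨f₀, ?_⟩
  apply mapF_inj (incl K)
  rw [← iso_natural hb hb', hf₀, hf]

end BB37
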