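import Pool.Agent.Lib.MP_bb37eb_nt.DE.LocalX
import Pool.Agent.Lib.MP_bb37eb_nt.DE.Quad4

/-! Choice of the rational 2-torsion point in the Kummer step. -/

namespace BB37

private theorem ChooseR_neg {b : ℚ} {K : Type} [Field K] [Algebra ℚ K] {R : Pt b K}
    (hR : R + R = 0) (e : Pt b K) : e - R = e + R := by
  rw [sub_eq_add_neg, neg_eq_of_add_eq_zero_left hR]

private theorem ChooseR_two {x a : ℚ_[2]} (h : IsSquare (x * a)) {q v : ℚ_[2]}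
    (ha : a = q ^ 2 * v) (hq : q ≠ 0) (hv : ‖v‖ = 1) :
    ∃ s u : ℚ_[2], x = s ^ 2 * u ∧ ‖u‖ = 1 := by
  obtain ⟨t, ht⟩ := h
  have hv0 : v ≠ 0 := by
    rintro rfl
    rw [norm_zero] at hv
    exact zero_ne_one hv
  refine ⟨t / q, v⁻¹, ?_, by rw [norm_inv, hv, inv_one]⟩
  have h1 : x * (q ^ 2 * v) = t * t := by rw [← ha]; exact ht
  field_simp
  linear_combination h1

private theorem ChooseR_core {B : ℚ} (hB : B ≠ 0) (einf : Pt B ℝ) (e2 : Pt B ℚ_[2])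
    (R : Pt B ℚ) (ρ : ℚ) (hR : R + R = 0)
    (hd : ∀ (K : Type) [Field K] [Algebra ℚ K],
      delta B (mapF B (Algebra.ofId ℚ K) R) = algebraMap ℚ K ρ)
    (hpos : 0 < delta B einf * algebraMap ℚ ℝ ρ) {q v : ℚ_[2]}
    (h2 : delta B e2 * algebraMap ℚ ℚ_[2] ρ = q ^ 2 * v) (hq : q ≠ 0) (hv : ‖v‖ = 1) :
    ∃ R : Pt B ℚ, R + R = 0 ∧ 0 < delta B (einf - mapF B (Algebra.ofId ℚ ℝ) R) ∧
      ∃ s u : ℚ_[2], delta B (e2 - mapF B (Algebra.ofId ℚ ℚ_[2]) R) = s ^ 2 * u ∧ ‖u‖ = 1 := by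
  have hb0 : -B / 4 ≠ 0 := by
    intro h
    apply hB
    linarith
  have hb1 : B = -4 * (-B / 4) := by ring
  have hRK : ∀ (K : Type) [Field K] [Algebra ℚ K],
      mapF B (Algebra.ofId ℚ K) R + mapF B (Algebra.ofId ℚ K) R = 0 := by
    intro K _ _
    rw [← mapF_add, hR, mapF_zero]
  refine ⟨R, hR, ?_, ?_⟩
  · rw [ChooseR_neg (hRK ℝ)]
    have h3 := delta_add hb0 hb1 einf (mapF B (Algebra.ofId ℚ ℝ) R)
    rw [hd ℝ, mul_assoc] at h3
    obtain ⟨t, ht⟩ := h3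
    have h4 : delta B (einf + mapF B (Algebra.ofId ℚ ℝ) R) ≠ 0 := delta_ne_zero hB _
    have h5 : 0 ≤ delta B (einf + mapF B (Algebra.ofId ℚ ℝ) R) *
        (delta B einf * algebraMap ℚ ℝ ρ) := by
      rw [ht]
      exact mul_self_nonneg t
    exact lt_of_le_of_ne (nonneg_of_mul_nonneg_left h5 hpos) h4.symm
  · rw [ChooseR_neg (hRK ℚ_[2])]
    have h3 := delta_add hb0 hb1 e2 (mapF B (Algebra.ofId ℚ ℚ_[2]) R)
    rw [hd ℚ_[2], mul_assoc] at h3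
    exact ChooseR_two h3 h2 hq hv

private theorem ChooseR_even {B : ℚ} (k : ℕ) (hB : B = (-1 / 4) ^ (2 * k)) (einf : Pt B ℝ)
    (e2 : Pt B ℚ_[2]) :
    ∃ R : Pt B ℚ, R + R = 0 ∧ 0 < delta B (einf - mapF B (Algebra.ofId ℚ ℝ) R) ∧
      ∃ s u : ℚ_[2], delta B (e2 - mapF B (Algebra.ofId ℚ ℚ_[2]) R) = s ^ 2 * u ∧ ‖u‖ = 1 := by
  subst hB
  refine ⟨0, add_zero 0, ?_, ?_⟩
  · rw [mapF_zero, sub_zero]
    refine delta_real _ ?_ _
    rw [pow_mul]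
    positivity
  · rw [mapF_zero, sub_zero]
    exact delta_two_even k e2

private theorem ChooseR_class {x : ℚ_[2]} (hx : x ≠ 0) (k : ℕ) :
    (∃ q v : ℚ_[2], x = q ^ 2 * v ∧ q ≠ 0 ∧ ‖v‖ = 1) ∨
      ∃ q v : ℚ_[2], x * (1 / 2) ^ (2 * k + 1) = q ^ 2 * v ∧ q ≠ 0 ∧ ‖v‖ = 1 := by
  obtain ⟨s, u, hu, h | h⟩ := two_adic_class x hx
  · left
    refine ⟨s, u, h, ?_, hu⟩
    rintro rfl
    apply hx
    rw [h]
    ring
  · right
    refine ⟨s * (1 / 2) ^ k, u, ?_, ?_, hu⟩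
    · rw [h, pow_succ (1 / 2 : ℚ_[2]) (2 * k), mul_comm 2 k, pow_mul]
      ring
    · intro h0
      rcases mul_eq_zero.1 h0 with h1 | h1
      · apply hx
        rw [h, h1]
        ring
      · exact absurd h1 (pow_ne_zero _ (by norm_num))

private theorem ChooseR_odd {B : ℚ} (k : ℕ) (hB : B = (-1 / 4) ^ (2 * k + 1)) (einf : Pt B ℝ)
    (e2 : Pt B ℚ_[2]) :
    ∃ R : Pt B ℚ, R + R = 0 ∧ 0 < delta B (einf - mapF B (Algebra.ofId ℚ ℝ) R) ∧
      ∃ s u : ℚ_[2], delta B (e2 - mapF B (Algebra.ofId ℚ ℚ_[2]) R) = s ^ 2 * u ∧ ‖u‖ = 1 := by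
  have hB0 : B ≠ 0 := by
    rw [hB]
    exact pow_ne_zero _ (by norm_num)
  obtain ⟨c, hc⟩ : ∃ c : ℚ, c = (1 / 2) ^ (2 * k + 1) := ⟨_, rfl⟩
  have hc0 : 0 < c := by rw [hc]; positivity
  have hcB : c ^ 2 = -B := by
    rw [hc, hB, ← pow_mul, mul_comm (2 * k + 1) 2, pow_mul,
      (by norm_num : (-1 / 4 : ℚ) = -1 * (1 / 4)), mul_pow, pow_succ (-1 : ℚ), pow_mul (-1 : ℚ)]
    norm_num
  have hcB' : (-c) ^ 2 = -B := by rw [neg_sq, hcB]
  have hoc : ∀ x : ℚ, x ^ 2 = -B → OnCurve B ℚ x 0 := by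
    intro x hx
    unfold OnCurve
    have e : algebraMap ℚ ℚ B = B := rfl
    rw [e]
    linear_combination (-x) * hx
  have hdx : ∀ x : ℚ, x ^ 2 = -B → ∀ (K : Type) [Field K] [Algebra ℚ K],
      delta B (mapF B (Algebra.ofId ℚ K) (mk B x 0)) = algebraMap ℚ K x := by
    intro x hx K _ _
    rw [mapF_mk hB0 _ (hoc x hx), map_zero, Algebra.ofId_apply]
    exact (delta_c hB0 hx).1
  have hRx : ∀ x : ℚ, x ^ 2 = -B → (mk B x 0 : Pt B ℚ) + mk B x 0 = 0 := by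
    intro x hx
    exact (delta_c (K := ℚ) hB0 hx).2
  have hd0 : ∀ (K : Type) [Field K] [Algebra ℚ K],
      delta B (mapF B (Algebra.ofId ℚ K) (0 : Pt B ℚ)) = algebraMap ℚ K 1 := by
    intro K _ _
    rw [mapF_zero, delta, if_pos rfl, map_one]
  have hdT : ∀ (K : Type) [Field K] [Algebra ℚ K],
      delta B (mapF B (Algebra.ofId ℚ K) (T B : Pt B ℚ)) = algebraMap ℚ K B := by
    intro K _ _
    rw [mapF_T hB0, delta, if_neg (T_ne_zero hB0), if_pos rfl]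
  have hinf : delta B einf ≠ 0 := delta_ne_zero hB0 _
  have h2 : delta B e2 ≠ 0 := delta_ne_zero hB0 _
  have hBneg : B < 0 := by nlinarith
  have hcR : (algebraMap ℚ ℝ c) = (c : ℝ) := rfl
  have hc2 : algebraMap ℚ ℚ_[2] c = (1 / 2) ^ (2 * k + 1) := by
    rw [hc, map_pow, map_div₀, map_one, map_ofNat]
  have hB2 : algebraMap ℚ ℚ_[2] B = -((1 / 2) ^ (2 * k + 1)) ^ 2 := by
    rw [← hc2, ← map_pow, hcB, map_neg, neg_neg]
  have hneg : ‖(-1 : ℚ_[2])‖ = 1 := by rw [norm_neg, norm_one]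
  have hcR0 : 0 < algebraMap ℚ ℝ c := by
    rw [eq_ratCast]
    exact_mod_cast hc0
  have hBR0 : algebraMap ℚ ℝ B < 0 := by
    rw [eq_ratCast]
    exact_mod_cast hBneg
  have hp0 : ((1 : ℚ_[2]) / 2) ^ (2 * k + 1) ≠ 0 := pow_ne_zero _ (by norm_num)
  rcases lt_or_gt_of_ne hinf with hi | hi
  · rcases ChooseR_class h2 k with ⟨q, v, e1, e3, e4⟩ | ⟨q, v, e1, e3, e4⟩
    · refine ChooseR_core hB0 einf e2 (T B) B (T_add_T hB0) hdT
        (mul_pos_of_neg_of_neg hi hBR0) (q := q * (1 / 2) ^ (2 * k + 1)) (v := v * (-1)) ?_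
        (mul_ne_zero e3 hp0) (by rw [norm_mul, e4, hneg, one_mul])
      rw [hB2, e1]
      ring
    · refine ChooseR_core hB0 einf e2 (mk B (-c) 0) (-c) (hRx _ hcB') (hdx _ hcB')
        (mul_pos_of_neg_of_neg hi (by rw [map_neg]; linarith)) (q := q) (v := v * (-1)) ?_ e3
        (by rw [norm_mul, e4, hneg, one_mul])
      rw [map_neg, hc2]
      linear_combination -e1
  · rcases ChooseR_class h2 k with ⟨q, v, e1, e3, e4⟩ | ⟨q, v, e1, e3, e4⟩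
    · exact ChooseR_core hB0 einf e2 0 1 (add_zero 0) hd0
        (mul_pos hi (by rw [map_one]; exact one_pos)) (q := q) (v := v)
        (by rw [map_one, mul_one]; exact e1) e3 e4
    · exact ChooseR_core hB0 einf e2 (mk B c 0) c (hRx _ hcB) (hdx _ hcB)
        (mul_pos hi hcR0) (q := q) (v := v) (by rw [hc2]; exact e1) e3 e4

/-- Choice of a rational 2-torsion point `R` such that `e - R` has good `delta` at 2 and at
infinity. Put `m = n - j`, `b j = (-1/4)^m` (`bval`). If `m` is even take `R = 0`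
(`delta_two_even`, `delta_real`). If `m` is odd then `b j = -(1/2)^(2m)`, and
`delta 0 = 1`, `delta T = -(1/2)^(2m)`, `delta (c,0) = c` for `c = (1/2)^m` and `c = -(1/2)^m`
(`delta_c`): modulo squares `1, -1, 2, -2`. Choose `R` according to the sign of `delta e_oo` and
the class of `delta e_2` (`two_adic_class`), and use `delta_add` for `e - R = e + R`. -/
theorem exists_R {b : ℕ → ℚ} (hb : Tower b) {n : ℕ} (hn : b n = 1) {j : ℕ} (hj : j ≤ n)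
    (einf : Pt (b j) ℝ) (e2 : Pt (b j) ℚ_[2]) :
    ∃ R : Pt (b j) ℚ, R + R = 0 ∧
      0 < delta (b j) (einf - mapF (b j) (Algebra.ofId ℚ ℝ) R) ∧
      ∃ s u : ℚ_[2], delta (b j) (e2 - mapF (b j) (Algebra.ofId ℚ ℚ_[2]) R) = s ^ 2 * u ∧
        ‖u‖ = 1 := by
  have hbj := bval hb hn hj
  rcases Nat.even_or_odd' (n - j) with ⟨k, hk | hk⟩
  · exact ChooseR_even k (by rw [hbj, hk]) einf e2
  · exact ChooseR_odd k (by rw [hbj, hk]) einf e2

end BB37
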