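import Pool.Agent.Lib.MP_bb37eb_nt.EC.Iso

/-! The composite isogenies `downF` and their kernels. -/

namespace BB37

/-- the standing hypothesis on the coefficients of a tower -/
structure Tower (b : ℕ → ℚ) : Prop where
  ne : b 0 ≠ 0
  step : ∀ d, b (d + 1) = -4 * b d

theorem Tower.ne' {b : ℕ → ℚ} (hb : Tower b) (d : ℕ) : b d ≠ 0 := by
  induction d with
  | zero => exact hb.ne
  | succ d ih =>
    rw [hb.step]
    exact mul_ne_zero (by norm_num) ih

section

variable {b : ℕ → ℚ} (hb : Tower b) {K : Type} [Field K] [Algebra ℚ K]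

include hb

theorem down_add (d : ℕ) (P Q : Pt (b 0) K) :
    downF b K d (P + Q) = downF b K d P + downF b K d Q := by
  induction d with
  | zero => rfl
  | succ d ih =>
    change isoF _ _ (downF b K d (P + Q)) = isoF _ _ (downF b K d P) + isoF _ _ (downF b K d Q)
    rw [ih]
    exact iso_add (hb.ne' d) (hb.step d) _ _

theorem down_zero (d : ℕ) : downF b K d 0 = 0 := by
  have h := down_add hb (K := K) d 0 0
  rw [add_zero] at h
  exact left_eq_add.1 h

theorem down_neg (d : ℕ) (P : Pt (b 0) K) : downF b K d (-P) = -downF b K d P := by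
  rw [eq_neg_iff_add_eq_zero, ← down_add hb, neg_add_cancel, down_zero hb]

theorem down_sub (d : ℕ) (P Q : Pt (b 0) K) :
    downF b K d (P - Q) = downF b K d P - downF b K d Q := by
  rw [sub_eq_add_neg, sub_eq_add_neg, down_add hb, down_neg hb]

theorem down_nsmul (d : ℕ) (m : ℕ) (P : Pt (b 0) K) :
    downF b K d (m • P) = m • downF b K d P := by
  induction m with
  | zero => rw [zero_smul, zero_smul, down_zero hb]
  | succ m ih => rw [succ_nsmul, succ_nsmul, down_add hb, ih]

theorem down_mapF {K' : Type} [Field K'] [Algebra ℚ K'] (f : K →ₐ[ℚ] K') (d : ℕ)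
    (P : Pt (b 0) K) : downF b K' d (mapF (b 0) f P) = mapF (b d) f (downF b K d P) := by
  induction d with
  | zero => rfl
  | succ d ih =>
    change isoF _ _ (downF b K' d (mapF (b 0) f P)) = mapF _ f (isoF _ _ (downF b K d P))
    rw [ih]
    exact iso_natural (hb.ne' d) (hb.step d) f _

theorem down_gact (d : ℕ) (g : GK K) (P : Pt (b 0) (Kb K)) :
    downF b (Kb K) d (gact K (b 0) g P) = gact K (b d) g (downF b (Kb K) d P) :=
  down_mapF hb _ d P

theorem down_surj [IsAlgClosed K] (d : ℕ) (Q : Pt (b d) K) : ∃ P, downF b K d P = Q := by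
  induction d with
  | zero => exact ⟨Q, rfl⟩
  | succ d ih =>
    obtain ⟨Q', hQ'⟩ := iso_surj (hb.ne' d) (hb.step d) Q
    obtain ⟨P, hP⟩ := ih Q'
    refine ⟨P, ?_⟩
    change isoF _ _ (downF b K d P) = Q
    rw [hP, hQ']

theorem ker_succ (d : ℕ) (P : Pt (b 0) K) :
    downF b K (d + 1) P = 0 ↔ downF b K d P = 0 ∨ downF b K d P = T (b d) :=
  iso_ker (hb.ne' d) (hb.step d) _

theorem ker_mono {d : ℕ} {P : Pt (b 0) K} (h : downF b K d P = 0) : downF b K (d + 1) P = 0 :=
  (ker_succ hb d P).2 (Or.inl h)

theorem ker_pow (d : ℕ) : ∀ P : Pt (b 0) K, downF b K d P = 0 → (2 ^ d) • P = 0 := by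
  induction d with
  | zero =>
    intro P hP
    have hP' : P = 0 := hP
    rw [hP', smul_zero]
  | succ d ih =>
    intro P hP
    have h2 : downF b K d (2 • P) = 0 := by
      rw [down_nsmul hb]
      rcases (ker_succ hb d P).1 hP with h | h
      · rw [h, smul_zero]
      · rw [h, two_smul, T_add_T (hb.ne' d)]
    have := ih _ h2
    rwa [smul_smul, ← pow_succ] at this

theorem ker_finite (d : ℕ) : {P : Pt (b 0) K | downF b K d P = 0}.Finite := by
  induction d with
  | zero =>
    refine (Set.finite_singleton (0 : Pt (b 0) K)).subset ?_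
    intro P hP
    exact hP
  | succ d ih =>
    by_cases h : ∃ A : Pt (b 0) K, downF b K d A = T (b d)
    · obtain ⟨A, hA⟩ := h
      refine (ih.union (ih.image fun P => A + P)).subset ?_
      intro P hP
      rcases (ker_succ hb d P).1 hP with h | h
      · exact Or.inl h
      · refine Or.inr ⟨P - A, ?_, add_sub_cancel A P⟩
        change downF b K d (P - A) = 0
        rw [down_sub hb, h, hA, sub_self]
    · refine ih.subset ?_
      intro P hP
      rcases (ker_succ hb d P).1 hP with h' | h'
      · exact h'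
      · exact absurd ⟨P, h'⟩ h

/-- the kernel is stable under the Galois group -/
theorem ker_gact {d : ℕ} (g : GK K) {P : Pt (b 0) (Kb K)} (h : downF b (Kb K) d P = 0) :
    downF b (Kb K) d (gact K (b 0) g P) = 0 := by
  rw [down_gact hb, h, gact_zero]

end

end BB37
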