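import Pool.Agent.Lib.MP_bb37eb_nt.EC.Ker

/-! Existence and uniqueness of the class of `xi` at a point, and its formal properties. -/

namespace BB37

section

variable {b : ℕ → ℚ} (hb : Tower b)

/-- kernel points over any field come from the algebraic closure of the rationals (module EC) -/
theorem ker_algebraic (hb : Tower b) (d : ℕ) (K : Type) [Field K] [Algebra ℚ K]
    (P : Pt (b 0) (Kb K)) (hP : downF b (Kb K) d P = 0) :
    ∃ P₀ : Pt (b 0) (Kb ℚ), downF b (Kb ℚ) d P₀ = 0 ∧ mapF (b 0) (emb ℚ K) P₀ = P :=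
  ker_alg hb d K P hP

end

section

variable {b : ℕ → ℚ} {d : ℕ}

theorem Xi.map_zero (hb : Tower b) (ξ : Xi b d) (g : GK ℚ) : ξ.f g 0 = 1 := by
  have h := ξ.add g 0 0 (down_zero hb d) (down_zero hb d)
  rw [add_zero] at h
  exact left_eq_mul.1 h

theorem Xi.map_neg (hb : Tower b) (ξ : Xi b d) (g : GK ℚ) {P : Pt (b 0) (Kb ℚ)}
    (hP : downF b (Kb ℚ) d P = 0) : ξ.f g (-P) = (ξ.f g P)⁻¹ := by
  have h := ξ.add g P (-P) hP (by rw [down_neg hb, hP, neg_zero])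
  rw [add_neg_cancel, ξ.map_zero hb] at h
  exact eq_inv_of_mul_eq_one_right h.symm

theorem Xi.map_nsmul (hb : Tower b) (ξ : Xi b d) (g : GK ℚ) {P : Pt (b 0) (Kb ℚ)}
    (hP : downF b (Kb ℚ) d P = 0) (m : ℕ) : ξ.f g (m • P) = ξ.f g P ^ m := by
  induction m with
  | zero => rw [zero_smul, pow_zero, ξ.map_zero hb]
  | succ m ih =>
    rw [succ_nsmul, pow_succ, ← ih]
    apply ξ.add g _ _ _ hP
    rw [down_nsmul hb, hP, smul_zero]

theorem Xi.pow_eq_one (hb : Tower b) (ξ : Xi b d) (g : GK ℚ) {P : Pt (b 0) (Kb ℚ)}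
    (hP : downF b (Kb ℚ) d P = 0) : ξ.f g P ^ 2 ^ d = 1 := by
  rw [← ξ.map_nsmul hb g hP, ker_pow hb d P hP, ξ.map_zero hb]

/-- the Galois action on finitely many points is smooth -/
theorem gact_smooth_set {c : ℚ} {K : Type} [Field K] [Algebra ℚ K] {s : Set (Pt c (Kb K))}
    (hs : s.Finite) :
    ∃ M : IntermediateField K (Kb K), FiniteDimensional K M ∧
      ∀ g h : GK K, Agree K M g h → ∀ P ∈ s, gact K c g P = gact K c h P := by
  induction s, hs using Set.Finite.induction_on with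
  | empty => exact ⟨⊥, inferInstance, fun _ _ _ P hP => absurd hP (Set.notMem_empty P)⟩
  | insert _ _ ih =>
    rename_i a s _ _
    obtain ⟨M₁, hM₁, h1⟩ := ih
    obtain ⟨M₂, hM₂, h2⟩ := gact_smooth (K := K) (b := c) a
    refine ⟨M₁ ⊔ M₂, inferInstance, fun g h hg P hP => ?_⟩
    rcases Set.mem_insert_iff.1 hP with rfl | hP
    · exact h2 g h fun x hx => hg x (le_sup_right (a := M₁) hx)
    · exact h1 g h (fun x hx => hg x (le_sup_left (a := M₁) hx)) P hP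

/-- the data of a division of `e`: `a` divides `e`, `ν g = g a - a` -/
structure Div (b : ℕ → ℚ) (d : ℕ) (K : Type) [Field K] [Algebra ℚ K] (e : Pt (b d) K) where
  a : Pt (b 0) (Kb K)
  ν : GK K → Pt (b 0) (Kb ℚ)
  ha : downF b (Kb K) d a = mapF (b d) (incl K) e
  hν : ∀ g, downF b (Kb ℚ) d (ν g) = 0 ∧ mapF (b 0) (emb ℚ K) (ν g) = gact K (b 0) g a - a

theorem exists_div (hb : Tower b) (K : Type) [Field K] [Algebra ℚ K] (e : Pt (b d) K) :
    Nonempty (Div b d K e) := by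
  obtain ⟨a, ha⟩ := down_surj hb (K := Kb K) d (mapF (b d) (incl K) e)
  have h : ∀ g : GK K, ∃ P₀ : Pt (b 0) (Kb ℚ), downF b (Kb ℚ) d P₀ = 0 ∧
      mapF (b 0) (emb ℚ K) P₀ = gact K (b 0) g a - a := by
    intro g
    apply ker_algebraic hb
    rw [down_sub hb, down_gact hb, ha, gact_incl, sub_self]
  choose ν hν using h
  exact ⟨⟨a, ν, ha, hν⟩⟩

/-- the 1-cocycle relation -/
theorem Div.coc {K : Type} [Field K] [Algebra ℚ K] {e : Pt (b d) K} (D : Div b d K e)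
    (g h : GK K) : D.ν (g * h) = D.ν g + gact ℚ (b 0) (resG ℚ K g) (D.ν h) := by
  apply mapF_inj (emb ℚ K)
  rw [mapF_add, mapF_emb_gact, (D.hν _).2, (D.hν _).2, (D.hν _).2, gact_mul, gact_sub]
  abel

/-- the cochain of `xi` and a division -/
noncomputable def Div.coch {K : Type} [Field K] [Algebra ℚ K] {e : Pt (b d) K}
    (D : Div b d K e) (ξ : Xi b d) : GK K × GK K → (Kb K)ˣ := fun p =>
  embU ℚ K (ξ.f (resG ℚ K p.1) (gact ℚ (b 0) (resG ℚ K p.1) (D.ν p.2)))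

/-- `nu` is smooth: it only depends on the action on the coordinates of `a` -/
theorem Div.smooth {K : Type} [Field K] [Algebra ℚ K] {e : Pt (b d) K}
    (D : Div b d K e) : Smooth1 K D.ν := by
  obtain ⟨M, hM, h⟩ := gact_smooth (b := b 0) D.a
  refine ⟨M, hM, fun g g' hg => ?_⟩
  apply mapF_inj (emb ℚ K)
  rw [(D.hν _).2, (D.hν _).2, h g g' hg]

theorem Div.coch_mem (hb : Tower b) {K : Type} [Field K] [Algebra ℚ K] {e : Pt (b d) K}
    (D : Div b d K e) (ξ : Xi b d) : D.coch ξ ∈ Z2 K := by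
  constructor
  · obtain ⟨M₁, hM₁, h1⟩ := ξ.smooth
    obtain ⟨M₂, hM₂, h2⟩ := D.smooth
    obtain ⟨M₃, hM₃, h3⟩ := gact_smooth_set (K := ℚ) (c := b 0) D.smooth.finite_range
    obtain ⟨M₁', hM₁', h1'⟩ := exists_finite_image ℚ K M₁
    obtain ⟨M₃', hM₃', h3'⟩ := exists_finite_image ℚ K M₃
    refine ⟨M₁' ⊔ M₂ ⊔ M₃', inferInstance, fun g g' h h' hg hh => ?_⟩
    have e1 : ξ.f (resG ℚ K g) = ξ.f (resG ℚ K g') :=
      h1 _ _ (agree_res ℚ K h1' fun x hx =>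
        hg x (le_sup_left (a := M₁' ⊔ M₂) (le_sup_left (a := M₁') hx)))
    have e2 : D.ν h = D.ν h' :=
      h2 _ _ fun x hx => hh x (le_sup_left (a := M₁' ⊔ M₂) (le_sup_right (a := M₁') hx))
    have e3 : gact ℚ (b 0) (resG ℚ K g) (D.ν h') = gact ℚ (b 0) (resG ℚ K g') (D.ν h') :=
      h3 _ _ (agree_res ℚ K h3' fun x hx => hg x (le_sup_right (a := M₁' ⊔ M₂) hx)) _ ⟨h', rfl⟩
    simp only [Div.coch]
    rw [e1, e2, e3]
  · intro g h j
    have key : embU ℚ K (ξ.f (resG ℚ K (g * h)) (gact ℚ (b 0) (resG ℚ K (g * h)) (D.ν j))) =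
        embU ℚ K (ξ.f (resG ℚ K g) (gact ℚ (b 0) (resG ℚ K g)
          (gact ℚ (b 0) (resG ℚ K h) (D.ν j)))) *
        g • embU ℚ K (ξ.f (resG ℚ K h) (gact ℚ (b 0) (resG ℚ K h) (D.ν j))) := by
      rw [map_mul, gact_mul, ξ.coc _ _ _ (ker_gact hb _ (D.hν j).1), map_mul, embU_smul]
    have key2 : ξ.f (resG ℚ K g) (gact ℚ (b 0) (resG ℚ K g) (D.ν (h * j))) =
        ξ.f (resG ℚ K g) (gact ℚ (b 0) (resG ℚ K g) (D.ν h)) *
        ξ.f (resG ℚ K g) (gact ℚ (b 0) (resG ℚ K g) (gact ℚ (b 0) (resG ℚ K h) (D.ν j))) := by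
      rw [D.coc, gact_add]
      exact ξ.add _ _ _ (ker_gact hb _ (D.hν h).1) (ker_gact hb _ (ker_gact hb _ (D.hν j).1))
    simp only [Div.coch]
    rw [key, key2, map_mul]
    generalize embU ℚ K (ξ.f (resG ℚ K g) (gact ℚ (b 0) (resG ℚ K g) (D.ν h))) = A
    generalize embU ℚ K (ξ.f (resG ℚ K g) (gact ℚ (b 0) (resG ℚ K g)
          (gact ℚ (b 0) (resG ℚ K h) (D.ν j)))) = B
    generalize g • embU ℚ K (ξ.f (resG ℚ K h) (gact ℚ (b 0) (resG ℚ K h) (D.ν j))) = C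
    rw [mul_comm B C, mul_assoc, mul_comm B A]

/-- the class of `xi` at `e` -/
noncomputable def Div.Z (hb : Tower b) {K : Type} [Field K] [Algebra ℚ K] {e : Pt (b d) K}
    (D : Div b d K e) (ξ : Xi b d) : Z2 K := ⟨D.coch ξ, D.coch_mem hb ξ⟩

theorem Div.isAlpha (hb : Tower b) {K : Type} [Field K] [Algebra ℚ K] {e : Pt (b d) K}
    (D : Div b d K e) (ξ : Xi b d) : IsAlpha ξ K e (D.Z hb ξ) :=
  ⟨D.a, D.ν, D.ha, D.hν, fun _ _ => rfl⟩

theorem DE_exists (hb : Tower b) (ξ : Xi b d) (K : Type) [Field K] [Algebra ℚ K]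
    (e : Pt (b d) K) : ∃ c : Z2 K, IsAlpha ξ K e c := by
  obtain ⟨D⟩ := exists_div hb K e
  exact ⟨_, D.isAlpha hb ξ⟩

theorem IsAlpha.exists_div {ξ : Xi b d} {K : Type} [Field K] [Algebra ℚ K] {e : Pt (b d) K}
    {c : Z2 K} (h : IsAlpha ξ K e c) : ∃ D : Div b d K e, c.1 = D.coch ξ := by
  obtain ⟨a, ν, h1, h2, h3⟩ := h
  exact ⟨⟨a, ν, h1, h2⟩, funext fun p => h3 p.1 p.2⟩

end

end BB37
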