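import Pool.Agent.Lib.MP_bb37eb_nt.Core.H2

/-! A finite Galois 2-extension other than the base is a quadratic extension of a smaller one. -/

namespace BB37

open IntermediateField in
private theorem quad_gen (k : Type) [Field k] (h20 : (2 : k) ≠ 0) (E : Type) [Field E]
    [Algebra k E] [FiniteDimensional k E] [IsGalois k E]
    (hE : IsPGroup 2 (E ≃ₐ[k] E)) (h1 : Module.finrank k E ≠ 1) :
    ∃ (F : IntermediateField k E) (r : E), IsGalois k F ∧ IsPGroup 2 (F ≃ₐ[k] F) ∧
      Module.finrank k F < Module.finrank k E ∧ r ≠ 0 ∧ r ^ 2 ∈ F ∧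
      ∀ x : E, ∃ u ∈ F, ∃ v ∈ F, x = u + v * r := by
  have h2 : (2 : E) ≠ 0 := by
    have h : algebraMap k E 2 ≠ 0 := by
      rw [Ne, map_eq_zero]
      exact h20
    rwa [map_ofNat] at h
  -- a central element of order two
  have hcard : Nat.card (E ≃ₐ[k] E) = Module.finrank k E := IsGalois.card_aut_eq_finrank k E
  have hpos : 0 < Nat.card (E ≃ₐ[k] E) := Nat.card_pos
  have hnt : Nontrivial (E ≃ₐ[k] E) := by
    rw [← Finite.one_lt_card_iff_nontrivial]
    rw [← hcard] at h1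
    omega
  have hcn : Nontrivial (Subgroup.center (E ≃ₐ[k] E)) := hE.center_nontrivial
  have hcp : IsPGroup 2 (Subgroup.center (E ≃ₐ[k] E)) := hE.to_subgroup _
  have hdvd : 2 ∣ Nat.card (Subgroup.center (E ≃ₐ[k] E)) := by
    rcases hcp.card_eq_or_dvd with h | h
    · exfalso
      have := Finite.one_lt_card_iff_nontrivial.2 hcn
      omega
    · exact h
  obtain ⟨c, hc⟩ := exists_prime_orderOf_dvd_card' (G := Subgroup.center (E ≃ₐ[k] E)) 2 hdvd
  obtain ⟨z, hzc⟩ := c
  have hz : orderOf z = 2 := by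
    rw [← hc]
    exact Subgroup.orderOf_mk _ _ |>.symm
  have hz2 : ∀ x, z (z x) = x := by
    intro x
    have h : z ^ 2 = 1 := by
      rw [← hz]
      exact pow_orderOf_eq_one z
    have h' := congrArg (fun g : E ≃ₐ[k] E => g x) h
    rw [pow_two] at h'
    exact h'
  have hz1 : z ≠ 1 := by
    intro h
    rw [h, orderOf_one] at hz
    exact absurd hz (by norm_num)
  let H : Subgroup (E ≃ₐ[k] E) := Subgroup.zpowers z
  have hHn : H.Normal := by
    constructor
    intro n hn g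
    have hnc : n ∈ Subgroup.center (E ≃ₐ[k] E) := by
      have : H ≤ Subgroup.center (E ≃ₐ[k] E) := Subgroup.zpowers_le.2 hzc
      exact this hn
    rw [Subgroup.mem_center_iff.1 hnc g, mul_inv_cancel_right]
    exact hn
  have hmem : ∀ x : E, x ∈ fixedField H ↔ z x = x := by
    intro x
    rw [mem_fixedField_iff]
    constructor
    · intro h
      exact h z (Subgroup.mem_zpowers z)
    · intro h f hf
      have hle : H ≤ MulAction.stabilizer (E ≃ₐ[k] E) x := Subgroup.zpowers_le.2 h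
      exact hle hf
  have hH2 : Nat.card H = 2 := by
    rw [← hz]
    exact Nat.card_zpowers z
  obtain ⟨y, hy⟩ : ∃ y, z y ≠ y := by
    by_contra hc
    push Not at hc
    exact hz1 (AlgEquiv.ext hc)
  have hr0 : y - z y ≠ 0 := fun h => hy (sub_eq_zero.1 h).symm
  have hzr : z (y - z y) = -(y - z y) := by
    rw [map_sub, hz2]
    ring
  refine ⟨fixedField H, y - z y, inferInstance, ?_, ?_, hr0, ?_, ?_⟩
  · exact (hE.to_quotient H).of_equiv (IsGalois.normalAutEquivQuotient H)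
  · have e := Module.finrank_mul_finrank k (fixedField H) E
    rw [finrank_fixedField_eq_card, hH2] at e
    have hp : 0 < Module.finrank k (fixedField H) := Module.finrank_pos
    omega
  · rw [hmem, map_pow, hzr]
    ring
  · intro x
    refine ⟨(x + z x) / 2, ?_, (x - z x) / (2 * (y - z y)), ?_, ?_⟩
    · rw [hmem, map_div₀, map_add, hz2, map_ofNat, add_comm]
    · rw [hmem, map_div₀, map_sub, hz2, map_mul, hzr, map_ofNat]
      field_simp
      ring
    · field_simp
      ring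

private theorem quad_int (k : Type) [Field k] (h20 : (2 : k) ≠ 0) (Ω : Type) [Field Ω]
    [Algebra k Ω] (M : IntermediateField k Ω) [FiniteDimensional k M]
    [IsGalois k M] (hM : IsPGroup 2 (M ≃ₐ[k] M)) (hne : M ≠ ⊥) :
    ∃ (M' : IntermediateField k Ω) (r : Ω), FiniteDimensional k M' ∧ IsGalois k M' ∧
      IsPGroup 2 (M' ≃ₐ[k] M') ∧ Module.finrank k M' < Module.finrank k M ∧ r ≠ 0 ∧
      r ^ 2 ∈ M' ∧ ∀ x ∈ M, ∃ u ∈ M', ∃ v ∈ M', x = u + v * r := by
  have h1 : Module.finrank k M ≠ 1 := fun h => hne (IntermediateField.finrank_eq_one_iff.1 h)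
  obtain ⟨F, r, hG, hP, hf, hr0, hr, hx⟩ := quad_gen k h20 M hM h1
  let φ := IntermediateField.liftAlgEquiv F
  refine ⟨IntermediateField.lift F, (r : Ω), ?_, IsGalois.of_algEquiv φ, hP.of_equiv (AlgEquiv.autCongr φ), ?_,
    ?_, ?_, ?_⟩
  · exact Module.Finite.equiv φ.toLinearEquiv
  · rw [← φ.toLinearEquiv.finrank_eq]
    exact hf
  · intro h
    exact hr0 (Subtype.ext h)
  · exact (IntermediateField.mem_lift (r ^ 2)).2 hr
  · intro x hxM
    obtain ⟨u, hu, v, hv, e⟩ := hx ⟨x, hxM⟩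
    refine ⟨u, (IntermediateField.mem_lift u).2 hu, v, (IntermediateField.mem_lift v).2 hv, ?_⟩
    exact congrArg Subtype.val e

private theorem fd_tr (N : Type) [AddCommGroup N] (m1 m2 : Module ℚ N)
    (h : @Module.Finite ℚ N _ _ m1) : @Module.Finite ℚ N _ _ m2 := by
  have : m1 = m2 := Subsingleton.elim _ _
  subst this
  exact h

private theorem fr_tr (N : Type) [AddCommGroup N] (m1 m2 : Module ℚ N) :
    @Module.finrank ℚ N _ _ m1 = @Module.finrank ℚ N _ _ m2 := by
  have : m1 = m2 := Subsingleton.elim _ _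
  subst this
  rfl

private theorem ga_tr (N : Type) [Field N] (a1 a2 : Algebra ℚ N)
    (h : @IsGalois ℚ _ N _ a1) : @IsGalois ℚ _ N _ a2 := by
  have : a1 = a2 := Subsingleton.elim _ _
  subst this
  exact h

private theorem pg_tr (N : Type) [Field N] (a1 a2 : Algebra ℚ N)
    (h : @IsPGroup 2 (@AlgEquiv ℚ N N _ _ _ a1 a1) _) :
    @IsPGroup 2 (@AlgEquiv ℚ N N _ _ _ a2 a2) _ := by
  have : a1 = a2 := Subsingleton.elim _ _
  subst this
  exact h

theorem exists_quadratic_aux (M : IntermediateField ℚ (Kb ℚ)) [i1 : FiniteDimensional ℚ M]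
    [i2 : IsGalois ℚ M] (hM : IsPGroup 2 (M ≃ₐ[ℚ] M)) (hne : M ≠ ⊥) :
    ∃ (M' : IntermediateField ℚ (Kb ℚ)) (r : Kb ℚ), FiniteDimensional ℚ M' ∧ IsGalois ℚ M' ∧
      IsPGroup 2 (M' ≃ₐ[ℚ] M') ∧ Module.finrank ℚ M' < Module.finrank ℚ M ∧ r ≠ 0 ∧
      r ^ 2 ∈ M' ∧ ∀ x ∈ M, ∃ u ∈ M', ∃ v ∈ M', x = u + v * r := by
  obtain ⟨M', r, h1, h2, h3, h4, h5⟩ := @quad_int ℚ _ two_ne_zero (Kb ℚ) _ _ M
    (fd_tr M _ _ i1) (ga_tr M _ _ i2) (pg_tr M _ _ hM) hne
  refine ⟨M', r, fd_tr M' _ _ h1, ga_tr M' _ _ h2, pg_tr M' _ _ h3, ?_, h5⟩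
  rw [fr_tr M' _ (IntermediateField.module' M'), fr_tr M _ (IntermediateField.module' M)]
  exact h4

end BB37
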