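import Pool.Agent.Lib.MP_bb37eb_nt.DE.KummerOdd
import Pool.Agent.Lib.MP_bb37eb_nt.DE.Quadratic

/-! At almost all primes a finite Galois extension with group a 2-group is contained in the
unramified extensions `ℚ_p (theta k)`. -/

namespace BB37

/-- all elements of `M` are fixed by the Galois group of `ℚ_p (theta k)` for some `k`, for every
choice of `theta` -/
def Unr (M : IntermediateField ℚ (Kb ℚ)) (p : Nat.Primes) : Prop :=
  p ≠ two ∧ ∀ θ, IsTheta θ → ∃ k, ∀ x ∈ M, Fxe p θ k (emb ℚ ℚ_[(p : ℕ)] x)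

/-- an algebraic number is integral at almost all primes: some `m x` with a positive integer `m`
is integral over the integers (`exists_integral_multiple`), and `1/m` is a `p`-adic integer for
all `p` not dividing `m` -/
theorem integral_ae (x : Kb ℚ) :
    {p : Nat.Primes | ¬ IsIntegral ℤ_[(p : ℕ)] (emb ℚ ℚ_[(p : ℕ)] x)}.Finite := by
  classical
  obtain ⟨P, hP⟩ : ∃ P : Polynomial ℚ, P = minpoly ℚ x := ⟨_, rfl⟩
  have hmon : P.Monic := by
    rw [hP]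
    exact minpoly.monic (Algebra.IsIntegral.isIntegral x)
  have hroot : Polynomial.aeval x P = 0 := by
    rw [hP]
    exact minpoly.aeval ℚ x
  obtain ⟨m, hm⟩ : ∃ m : ℕ, m = ∏ i ∈ Finset.range (P.natDegree + 1), (P.coeff i).den := ⟨_, rfl⟩
  have hm0 : 0 < m := by
    rw [hm]
    exact Finset.prod_pos fun i _ => (P.coeff i).den_pos
  have hfin : {p : Nat.Primes | (p : ℕ) ≤ m}.Finite :=
    Set.Finite.preimage (f := fun p : Nat.Primes => (p : ℕ))
      (fun p _ q _ h => Subtype.ext h) (Set.finite_Iic m)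
  refine hfin.subset ?_
  intro p hp
  by_contra hpm
  have hpm' : ¬ (p : ℕ) ≤ m := hpm
  apply hp
  have hcoef : ∀ i, ‖((P.coeff i : ℚ) : ℚ_[(p : ℕ)])‖ ≤ 1 := by
    intro i
    apply Padic.norm_rat_le_one
    intro hd
    by_cases hi : i ≤ P.natDegree
    · have h1 : (P.coeff i).den ∣ m := by
        rw [hm]
        exact Finset.dvd_prod_of_mem (fun i => (P.coeff i).den)
          (Finset.mem_range.2 (Nat.lt_succ_of_le hi))
      exact hpm' (Nat.le_of_dvd hm0 (hd.trans h1))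
    · rw [Polynomial.coeff_eq_zero_of_natDegree_lt (by omega)] at hd
      simp at hd
      exact p.2.one_lt.ne' hd
  have hl : P.map (algebraMap ℚ ℚ_[(p : ℕ)]) ∈
      Polynomial.lifts (algebraMap ℤ_[(p : ℕ)] ℚ_[(p : ℕ)]) := by
    rw [Polynomial.lifts_iff_coeff_lifts]
    intro i
    rw [Polynomial.coeff_map]
    exact ⟨⟨((P.coeff i : ℚ) : ℚ_[(p : ℕ)]), hcoef i⟩, rfl⟩
  obtain ⟨f, hf1, -, hf2⟩ := Polynomial.lifts_and_natDegree_eq_and_monic hl (hmon.map _)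
  refine ⟨f, hf2, ?_⟩
  have e1 : Polynomial.eval₂ (algebraMap ℤ_[(p : ℕ)] (Kb ℚ_[(p : ℕ)])) (emb ℚ ℚ_[(p : ℕ)] x) f =
      Polynomial.eval₂ (algebraMap ℚ_[(p : ℕ)] (Kb ℚ_[(p : ℕ)])) (emb ℚ ℚ_[(p : ℕ)] x)
        (f.map (algebraMap ℤ_[(p : ℕ)] ℚ_[(p : ℕ)])) := by
    rw [Polynomial.eval₂_map, ← IsScalarTower.algebraMap_eq]
  have e2 : Polynomial.eval₂ (algebraMap ℚ_[(p : ℕ)] (Kb ℚ_[(p : ℕ)])) (emb ℚ ℚ_[(p : ℕ)] x)
        (P.map (algebraMap ℚ ℚ_[(p : ℕ)])) =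
      Polynomial.aeval (emb ℚ ℚ_[(p : ℕ)] x) P := by
    rw [Polynomial.eval₂_map, ← IsScalarTower.algebraMap_eq]
    rfl
  rw [e1, hf1, e2, Polynomial.aeval_algHom_apply, hroot, map_zero]

/-- Adjoining a square root. Proof: for almost all `p`, `r ^ 2` and its inverse are integral
(`integral_ae`) and `Unr M' p`; apply `ODD_sqrt` to `emb r` with `s = 1`, `u = emb r ^ 2`; for
`k` larger than both, `emb (u + v * r)` is fixed (`Fxe.mono`). -/
theorem unr_sqrt (M' M : IntermediateField ℚ (Kb ℚ)) (r : Kb ℚ) (hr0 : r ≠ 0) (hr : r ^ 2 ∈ M')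
    (hgen : ∀ x ∈ M, ∃ u ∈ M', ∃ v ∈ M', x = u + v * r)
    (h : {p : Nat.Primes | ¬ Unr M' p}.Finite) : {p : Nat.Primes | ¬ Unr M p}.Finite := by
  have h1 := integral_ae (r ^ 2)
  have h2 := integral_ae ((r ^ 2)⁻¹)
  refine (h.union (h1.union h2)).subset ?_
  intro p hp
  by_contra hcon
  have hcon' : ¬ (p ∈ {p : Nat.Primes | ¬ Unr M' p} ∪
      ({p : Nat.Primes | ¬ IsIntegral ℤ_[(p : ℕ)] (emb ℚ ℚ_[(p : ℕ)] (r ^ 2))} ∪
        {p : Nat.Primes | ¬ IsIntegral ℤ_[(p : ℕ)] (emb ℚ ℚ_[(p : ℕ)] ((r ^ 2)⁻¹))})) := hcon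
  simp only [Set.mem_union, Set.mem_ofPred_eq, not_or, not_not] at hcon'
  obtain ⟨⟨g1, g2⟩, g3, g4⟩ := hcon'
  refine hp ⟨g1, fun θ hθ => ?_⟩
  obtain ⟨k, hk⟩ := g2 θ hθ
  obtain ⟨k', hk'⟩ := ODD_sqrt p g1 θ hθ k (emb ℚ ℚ_[(p : ℕ)] r)
    (fun g hg => by
      rw [← map_pow]
      exact hk (r ^ 2) hr g hg)
    ⟨1, emb ℚ ℚ_[(p : ℕ)] (r ^ 2), by rw [map_pow]; ring, g3, by rw [← map_inv₀]; exact g4,
      fun g _ => map_one g⟩
  refine ⟨max k k', fun x hx => ?_⟩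
  obtain ⟨u, hu, v, hv, rfl⟩ := hgen x hx
  have f1 : Fxe p θ (max k k') (emb ℚ ℚ_[(p : ℕ)] u) := Fxe.mono hθ (le_max_left _ _) (hk u hu)
  have f2 : Fxe p θ (max k k') (emb ℚ ℚ_[(p : ℕ)] v) := Fxe.mono hθ (le_max_left _ _) (hk v hv)
  have f3 : Fxe p θ (max k k') (emb ℚ ℚ_[(p : ℕ)] r) := Fxe.mono hθ (le_max_right _ _) hk'
  intro g hg
  rw [map_add, map_mul, map_add, map_mul, f1 g hg, f2 g hg, f3 g hg]

/-- A finite Galois 2-extension other than the base is a quadratic extension of a smaller one.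
Proof. `G = M ≃ₐ[ℚ] M` is a nontrivial finite 2-group, so its center is nontrivial
(`IsPGroup.center_nontrivial`); a suitable power `z` of a nontrivial central element has order 2.
Let `F = IntermediateField.fixedField (Subgroup.zpowers z)`, Galois over the rationals
(`IsGalois.of_fixedField_normal_subgroup`) with group a quotient of `G`, and `M' = F.lift`
(the image of `F` under `M.val`), `IntermediateField.liftAlgEquiv`. Choose `y` with `z y ≠ y` and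
`r = y - z y`; then `z r = -r`, `r ^ 2 ∈ F`, and every `x` is `(x + z x)/2 + ((x - z x)/(2 r)) r`.
The degree drops since `y ∉ F`. -/
theorem exists_quadratic (M : IntermediateField ℚ (Kb ℚ)) [FiniteDimensional ℚ M] [IsGalois ℚ M]
    (hM : IsPGroup 2 (M ≃ₐ[ℚ] M)) (hne : M ≠ ⊥) :
    ∃ (M' : IntermediateField ℚ (Kb ℚ)) (r : Kb ℚ), FiniteDimensional ℚ M' ∧ IsGalois ℚ M' ∧
      IsPGroup 2 (M' ≃ₐ[ℚ] M') ∧ Module.finrank ℚ M' < Module.finrank ℚ M ∧ r ≠ 0 ∧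
      r ^ 2 ∈ M' ∧ ∀ x ∈ M, ∃ u ∈ M', ∃ v ∈ M', x = u + v * r :=
  exists_quadratic_aux M hM hne

/-- the base field -/
theorem unr_bot : {p : Nat.Primes | ¬ Unr ⊥ p}.Finite := by
  refine (Set.finite_singleton two).subset ?_
  intro p hp
  by_contra h
  refine hp ⟨h, fun θ _ => ⟨0, fun x hx g _ => ?_⟩⟩
  obtain ⟨q, rfl⟩ := IntermediateField.mem_bot.1 hx
  have e : emb ℚ ℚ_[(p : ℕ)] (algebraMap ℚ (Kb ℚ) q) =
      algebraMap ℚ_[(p : ℕ)] (Kb ℚ_[(p : ℕ)]) (algebraMap ℚ ℚ_[(p : ℕ)] q) := by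
    rw [AlgHom.commutes]
    exact IsScalarTower.algebraMap_apply ℚ ℚ_[(p : ℕ)] (Kb ℚ_[(p : ℕ)]) q
  rw [e, AlgEquiv.commutes]

theorem two_ext (n : ℕ) : ∀ (M : IntermediateField ℚ (Kb ℚ)), FiniteDimensional ℚ M →
    IsGalois ℚ M → IsPGroup 2 (M ≃ₐ[ℚ] M) → Module.finrank ℚ M ≤ n →
    {p : Nat.Primes | ¬ Unr M p}.Finite := by
  induction n with
  | zero =>
    intro M hM _ _ hr
    have := Module.finrank_pos (R := ℚ) (M := M)
    omega
  | succ n ih =>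
    intro M hM hG hP hr
    by_cases hne : M = ⊥
    · rw [hne]
      exact unr_bot
    obtain ⟨M', r, h1, h2, h3, h4, h5, h6, h7⟩ := exists_quadratic M hP hne
    exact unr_sqrt M' M r h5 h6 h7 (ih M' h1 h2 h3 (by omega))

end BB37
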