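import Pool.Agent.Lib.MP_bb37eb_nt.Core.H2

/-! The field of an open normal subgroup of 2-power index of the Galois group of the rationals. -/

namespace BB37

/-- The fixed field of `H`. Proof: `H` is open (it contains the fixing subgroup of the finite
extension `M₀`: `IntermediateField.fixingSubgroup_isOpen` and `Subgroup.isOpen_mono`), hence
closed (`Subgroup.isClosed_of_isOpen`). Let `M = IntermediateField.fixedField H`; then
`M.fixingSubgroup = H` (`InfiniteGalois.fixingSubgroup_fixedField`), `M` is finite over the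
rationals (`InfiniteGalois.isOpen_iff_finite`) and Galois (`InfiniteGalois.normal_iff_isGalois`).
Every automorphism of `M` is the restriction of some `g` (`AlgEquiv.restrictNormalHom_surjective`)
and `g ^ 2 ^ m` fixes `M`, so `M ≃ₐ[ℚ] M` is a 2-group. -/
theorem exists_field (H : Subgroup (GK ℚ)) (hn : H.Normal)
    (M₀ : IntermediateField ℚ (Kb ℚ)) (hM₀ : FiniteDimensional ℚ M₀)
    (ho : ∀ g : GK ℚ, Agree ℚ M₀ g 1 → g ∈ H) (h2 : ∀ g : GK ℚ, ∃ m : ℕ, g ^ 2 ^ m ∈ H) :
    ∃ M : IntermediateField ℚ (Kb ℚ), FiniteDimensional ℚ M ∧ IsGalois ℚ M ∧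
      IsPGroup 2 (M ≃ₐ[ℚ] M) ∧ ∀ s : GK ℚ, (∀ x ∈ M, s x = x) → s ∈ H := by
  have hop : IsOpen (H : Set (GK ℚ)) := by
    have h1 : IsOpen (M₀.fixingSubgroup : Set (GK ℚ)) :=
      IntermediateField.fixingSubgroup_isOpen M₀
    refine Subgroup.isOpen_mono (H₁ := M₀.fixingSubgroup) ?_ h1
    intro g hg
    apply ho
    intro x hx
    exact (mem_fixingSubgroup_iff (GK ℚ)).1 hg x hx
  have hcl : IsClosed (H : Set (GK ℚ)) := H.isClosed_of_isOpen hop
  let Hc : ClosedSubgroup (GK ℚ) := ⟨H, hcl⟩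
  let M : IntermediateField ℚ (Kb ℚ) := IntermediateField.fixedField H
  have hfix : M.fixingSubgroup = H := InfiniteGalois.fixingSubgroup_fixedField Hc
  have hfin : FiniteDimensional ℚ M := by
    rw [← InfiniteGalois.isOpen_iff_finite, hfix]
    exact hop
  have hgal' := (InfiniteGalois.normal_iff_isGalois M).1 (by rw [hfix]; exact hn)
  have hgal : IsGalois ℚ M := by
    convert hgal' using 1
    exact Subsingleton.elim _ _
  have hmem : ∀ s : GK ℚ, (∀ x ∈ M, s x = x) → s ∈ H := by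
    intro s hs
    rw [← hfix]
    exact (mem_fixingSubgroup_iff (GK ℚ)).2 hs
  refine ⟨M, hfin, hgal, ?_, hmem⟩
  intro t
  obtain ⟨g, hg⟩ := AlgEquiv.restrictNormalHom_surjective (F := ℚ) (K₁ := M) (Kb ℚ) t
  obtain ⟨m, hm⟩ := h2 g
  refine ⟨m, ?_⟩
  rw [← hg, ← map_pow]
  rw [← hfix] at hm
  have hm' := (mem_fixingSubgroup_iff (GK ℚ)).1 hm
  apply AlgEquiv.ext
  intro x
  apply Subtype.ext
  have e := AlgEquiv.restrictNormal_commutes (g ^ 2 ^ m) M x
  exact e.trans (hm' x x.2)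

end BB37
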