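import Pool.Agent.Lib.MP_bb37eb_nt.DE.TwoGroupB
import Pool.Agent.Lib.MP_bb37eb_nt.DE.TwoGroupC
import Pool.Agent.Lib.MP_bb37eb_nt.DE.TwoExtA
import Pool.Agent.Lib.MP_bb37eb_nt.DE.AlPow

/-! The values of `xi` vanish at almost all primes. -/

namespace BB37

variable {b : ℕ → ℚ} {d : ℕ}

theorem exists_two_ext (hb : Tower b) (ξ : Xi b d) : ∃ M : IntermediateField ℚ (Kb ℚ),
    FiniteDimensional ℚ M ∧ IsGalois ℚ M ∧ IsPGroup 2 (M ≃ₐ[ℚ] M) ∧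
    ∀ s : GK ℚ, (∀ x ∈ M, s x = x) → s ∈ trivG hb ξ := by
  obtain ⟨M₀, h0, h1⟩ := trivG_smooth hb ξ
  exact exists_field (trivG hb ξ) (trivG_normal hb ξ) M₀ h0 h1 (trivG_pow hb ξ)

theorem al_unram {p : Nat.Primes} (hp : p ≠ two) (hb : Tower b) {n : ℕ} (hn : b n = 1)
    (ξ : Xi b d) {M : IntermediateField ℚ (Kb ℚ)}
    (hM : ∀ s : GK ℚ, (∀ x ∈ M, s x = x) → s ∈ trivG hb ξ) (hU : Unr M p)
    (e : Pt (b d) ℚ_[(p : ℕ)]) : al hb ξ e = 1 := by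
  obtain ⟨θ, hθ⟩ := exists_theta
  obtain ⟨D, k₁, hD⟩ := exists_div_unram hp hθ hb hn e
  obtain ⟨k₂, hk⟩ := hU.2 θ hθ
  set k := max k₁ k₂ with hk0
  have hS : ∀ s : GK ℚ_[(p : ℕ)], s (emb ℚ _ (θ k)) = emb ℚ _ (θ k) →
      D.ν s = 0 ∧ Triv ξ (resG ℚ _ s) := by
    intro s hs
    refine ⟨hD s (theta_mono hθ (le_max_left _ _) hs), ?_⟩
    apply hM
    intro x hx
    apply (emb ℚ ℚ_[(p : ℕ)]).toRingHom.injective
    change emb ℚ ℚ_[(p : ℕ)] _ = emb ℚ ℚ_[(p : ℕ)] _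
    rw [emb_resG]
    exact hk x hx s (theta_mono hθ (le_max_right _ _) hs)
  have hG : ∀ g g' : GK ℚ_[(p : ℕ)], g (emb ℚ _ (θ k)) = g' (emb ℚ _ (θ k)) →
      ∃ s, g' = g * s ∧ D.ν s = 0 ∧ Triv ξ (resG ℚ _ s) := by
    intro g g' h
    refine ⟨g⁻¹ * g', by rw [mul_inv_cancel_left], ?_⟩
    apply hS
    rw [AlgEquiv.mul_apply, ← h, ← AlgEquiv.mul_apply, inv_mul_cancel]
    rfl
  rw [D.al hb]
  apply ODD_unramified p hp θ hθ k _ (2 ^ d) (by positivity) (fun q => coch_pow hb D ξ q)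
  intro g g' h h' hg hh
  obtain ⟨s, rfl, hs1, hs2⟩ := hG g g' hg
  obtain ⟨t, rfl, ht1, ht2⟩ := hG h h' hh
  change D.coch ξ (g, h) = D.coch ξ (g * s, h * t)
  simp only [Div.coch]
  congr 1
  have e1 : D.ν (h * t) = D.ν h := by
    rw [D.coc, ht1, gact_zero, add_zero]
  have hk1 := (D.hν h).1
  have e2 : gact ℚ (b 0) (resG ℚ ℚ_[(p : ℕ)] (g * s)) (D.ν h) =
      gact ℚ (b 0) (resG ℚ ℚ_[(p : ℕ)] g) (D.ν h) := by
    rw [map_mul, gact_mul, hs2.ker _ hk1]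
  rw [e1, e2, map_mul, Triv.mul_right hb hs2 _ (ker_gact hb _ hk1)]

theorem fin_al (hb : Tower b) {n : ℕ} (hn : b n = 1) (ξ : Xi b d)
    (f : ∀ v : Place, Pt (b d) (Kv v)) : {v : Place | al hb ξ (f v) ≠ 1}.Finite := by
  obtain ⟨M, h1, h2, h3, h4⟩ := exists_two_ext hb ξ
  have h5 := two_ext _ M h1 h2 h3 le_rfl
  have h6 : ({none, some two} ∪ (some '' {p : Nat.Primes | ¬ Unr M p}) : Set Place).Finite :=
    (Set.toFinite _).union (h5.image _)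
  refine h6.subset ?_
  intro v hv
  cases v with
  | none => exact Or.inl (Set.mem_insert _ _)
  | some p =>
    by_cases hp : p = two
    · rw [hp]
      exact Or.inl (Set.mem_insert_of_mem _ rfl)
    · refine Or.inr ⟨p, fun hU => hv ?_, rfl⟩
      exact al_unram hp hb hn ξ h4 hU (f (some p))

end BB37
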