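import Pool.Agent.Lib.MP_bb37eb_nt.DE.Exists

/-! Uniqueness, additivity in the point and in `xi`, restriction along the tower. -/

namespace BB37

section

variable {b : ℕ → ℚ} {d : ℕ} {K : Type} [Field K] [Algebra ℚ K]

theorem Div.unique (hb : Tower b) {e : Pt (b d) K} (D D' : Div b d K e) (ξ : Xi b d) :
    cls (D.Z hb ξ) = cls (D'.Z hb ξ) := by
  obtain ⟨n, hn, hn'⟩ := ker_algebraic hb d K (D'.a - D.a) (by
    rw [down_sub hb, D.ha, D'.ha, sub_self])
  have hν : ∀ g : GK K, D'.ν g = D.ν g + (gact ℚ (b 0) (resG ℚ K g) n - n) := by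
    intro g
    apply mapF_inj (emb ℚ K)
    rw [mapF_add, mapF_sub, mapF_emb_gact, (D.hν _).2, (D'.hν _).2, hn', gact_sub]
    abel
  rw [cls_eq_cls]
  refine ⟨fun g => embU ℚ K (ξ.f (resG ℚ K g) (gact ℚ (b 0) (resG ℚ K g) n)), ?_, ?_⟩
  · obtain ⟨M₁, hM₁, h1⟩ := ξ.smooth
    obtain ⟨M₂, hM₂, h2⟩ := gact_smooth (K := ℚ) (b := b 0) n
    obtain ⟨M₁', hM₁', h1'⟩ := exists_finite_image ℚ K M₁
    obtain ⟨M₂', hM₂', h2'⟩ := exists_finite_image ℚ K M₂
    refine ⟨M₁' ⊔ M₂', inferInstance, fun g g' hg => ?_⟩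
    have e1 : ξ.f (resG ℚ K g) = ξ.f (resG ℚ K g') :=
      h1 _ _ (agree_res ℚ K h1' fun x hx => hg x (le_sup_left (a := M₁') hx))
    have e2 : gact ℚ (b 0) (resG ℚ K g) n = gact ℚ (b 0) (resG ℚ K g') n :=
      h2 _ _ (agree_res ℚ K h2' fun x hx => hg x (le_sup_right (a := M₁') hx))
    simp only [e1, e2]
  · intro g h
    have k1 : D'.coch ξ (g, h) * embU ℚ K (ξ.f (resG ℚ K g) (gact ℚ (b 0) (resG ℚ K g) n)) =
        D.coch ξ (g, h) * embU ℚ K (ξ.f (resG ℚ K g)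
          (gact ℚ (b 0) (resG ℚ K g) (gact ℚ (b 0) (resG ℚ K h) n))) := by
      simp only [Div.coch, hν]
      rw [← map_mul, ← map_mul]
      congr 1
      have hN := ker_gact hb (resG ℚ K g) hn
      have hN2 := ker_gact hb (resG ℚ K g) (ker_gact hb (resG ℚ K h) hn)
      have hN3 := ker_gact hb (resG ℚ K g) (D.hν h).1
      rw [← ξ.add _ _ _ _ hN, ← ξ.add _ _ _ hN3 hN2]
      · congr 1
        rw [gact_add, gact_sub]
        abel
      · rw [gact_add, gact_sub, down_add hb, down_sub hb, hN, hN2, hN3]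
        abel
    have k2 : embU ℚ K (ξ.f (resG ℚ K (g * h)) (gact ℚ (b 0) (resG ℚ K (g * h)) n)) =
        embU ℚ K (ξ.f (resG ℚ K g) (gact ℚ (b 0) (resG ℚ K g) (gact ℚ (b 0) (resG ℚ K h) n))) *
        g • embU ℚ K (ξ.f (resG ℚ K h) (gact ℚ (b 0) (resG ℚ K h) n)) := by
      rw [map_mul, gact_mul, ξ.coc _ _ _ (ker_gact hb _ hn), map_mul, embU_smul]
    change D.coch ξ (g, h) / D'.coch ξ (g, h) =
      g • embU ℚ K (ξ.f (resG ℚ K h) (gact ℚ (b 0) (resG ℚ K h) n)) *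
      embU ℚ K (ξ.f (resG ℚ K g) (gact ℚ (b 0) (resG ℚ K g) n)) /
      embU ℚ K (ξ.f (resG ℚ K (g * h)) (gact ℚ (b 0) (resG ℚ K (g * h)) n))
    rw [k2]
    generalize g • embU ℚ K (ξ.f (resG ℚ K h) (gact ℚ (b 0) (resG ℚ K h) n)) = C
    generalize embU ℚ K (ξ.f (resG ℚ K g)
          (gact ℚ (b 0) (resG ℚ K g) (gact ℚ (b 0) (resG ℚ K h) n))) = B at k1 ⊢
    generalize embU ℚ K (ξ.f (resG ℚ K g) (gact ℚ (b 0) (resG ℚ K g) n)) = A at k1 ⊢
    rw [div_eq_div_iff_mul_eq_mul, mul_comm B C, ← mul_assoc, mul_comm (D.coch ξ (g, h)) C,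
      mul_assoc, ← k1]
    rw [mul_comm (D'.coch ξ (g, h)) A, mul_assoc]

theorem IsAlpha.unique (hb : Tower b) {ξ : Xi b d} {e : Pt (b d) K} {c c' : Z2 K}
    (h : IsAlpha ξ K e c) (h' : IsAlpha ξ K e c') : cls c = cls c' := by
  obtain ⟨D, hD⟩ := h.exists_div
  obtain ⟨D', hD'⟩ := h'.exists_div
  have e1 : c = D.Z hb ξ := Subtype.ext hD
  have e2 : c' = D'.Z hb ξ := Subtype.ext hD'
  rw [e1, e2]
  exact D.unique hb D' ξ

open Classical in
/-- the class of `xi` at `e` -/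
noncomputable def al (hb : Tower b) (ξ : Xi b d) (e : Pt (b d) K) : H2 K :=
  cls (Classical.choose (DE_exists hb ξ K e))

theorem al_eq (hb : Tower b) {ξ : Xi b d} {e : Pt (b d) K} {c : Z2 K} (h : IsAlpha ξ K e c) :
    al hb ξ e = cls c :=
  IsAlpha.unique hb (Classical.choose_spec (DE_exists hb ξ K e)) h

theorem Div.al (hb : Tower b) {ξ : Xi b d} {e : Pt (b d) K} (D : Div b d K e) :
    al hb ξ e = cls (D.Z hb ξ) := al_eq hb (D.isAlpha hb ξ)

theorem al_spec (hb : Tower b) (ξ : Xi b d) (e : Pt (b d) K) :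
    ∃ c, IsAlpha ξ K e c ∧ cls c = al hb ξ e :=
  ⟨_, Classical.choose_spec (DE_exists hb ξ K e), rfl⟩

/-- sum of divisions -/
noncomputable def Div.add (hb : Tower b) {e e' : Pt (b d) K} (D : Div b d K e)
    (D' : Div b d K e') : Div b d K (e + e') where
  a := D.a + D'.a
  ν := fun g => D.ν g + D'.ν g
  ha := by rw [down_add hb, D.ha, D'.ha, mapF_add]
  hν := fun g => ⟨by rw [down_add hb, (D.hν g).1, (D'.hν g).1, add_zero], by
    rw [mapF_add, (D.hν g).2, (D'.hν g).2, gact_add]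
    abel⟩

theorem al_add (hb : Tower b) (ξ : Xi b d) (e e' : Pt (b d) K) :
    al hb ξ (e + e') = al hb ξ e * al hb ξ e' := by
  obtain ⟨D⟩ := exists_div hb K e
  obtain ⟨D'⟩ := exists_div hb K e'
  rw [D.al hb, D'.al hb, (D.add hb D').al hb, ← cls_mul]
  congr 1
  apply Subtype.ext
  funext p
  change (D.add hb D').coch ξ p = D.coch ξ p * D'.coch ξ p
  simp only [Div.coch, Div.add]
  rw [gact_add, ξ.add _ _ _ (ker_gact hb _ (D.hν _).1) (ker_gact hb _ (D'.hν _).1), map_mul]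

theorem al_zero (hb : Tower b) (ξ : Xi b d) : al hb ξ (0 : Pt (b d) K) = 1 := by
  have h := al_add hb ξ (0 : Pt (b d) K) 0
  rw [add_zero] at h
  exact left_eq_mul.1 h

theorem al_neg (hb : Tower b) (ξ : Xi b d) (e : Pt (b d) K) :
    al hb ξ (-e) = (al hb ξ e)⁻¹ := by
  have h := al_add hb ξ e (-e)
  rw [add_neg_cancel, al_zero] at h
  exact eq_inv_of_mul_eq_one_right h.symm

theorem al_sub (hb : Tower b) (ξ : Xi b d) (e e' : Pt (b d) K) :
    al hb ξ (e - e') = al hb ξ e / al hb ξ e' := by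
  rw [sub_eq_add_neg, al_add, al_neg, div_eq_mul_inv]

/-- product of `xi`'s -/
noncomputable def Xi.mul (ξ ξ' : Xi b d) : Xi b d where
  f := fun g P => ξ.f g P * ξ'.f g P
  smooth := by
    obtain ⟨M, hM, h1⟩ := ξ.smooth
    obtain ⟨M', hM', h2⟩ := ξ'.smooth
    refine ⟨M ⊔ M', inferInstance, fun g g' hg => ?_⟩
    have e1 := h1 g g' fun x hx => hg x (le_sup_left (a := M) hx)
    have e2 := h2 g g' fun x hx => hg x (le_sup_right (a := M) hx)
    simp only [e1, e2]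
  add := fun g P Q hP hQ => by
    rw [ξ.add g P Q hP hQ, ξ'.add g P Q hP hQ, mul_mul_mul_comm]
  coc := fun g h Q hQ => by
    rw [ξ.coc g h Q hQ, ξ'.coc g h Q hQ, smul_mul', mul_mul_mul_comm]

/-- inverse of a `xi` -/
noncomputable def Xi.inv (ξ : Xi b d) : Xi b d where
  f := fun g P => (ξ.f g P)⁻¹
  smooth := by
    obtain ⟨M, hM, h1⟩ := ξ.smooth
    refine ⟨M, hM, fun g g' hg => ?_⟩
    have e1 := h1 g g' hg
    simp only [e1]
  add := fun g P Q hP hQ => by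
    rw [ξ.add g P Q hP hQ, mul_inv]
  coc := fun g h Q hQ => by
    rw [ξ.coc g h Q hQ, smul_inv', mul_inv]

theorem al_mul (hb : Tower b) (ξ ξ' : Xi b d) (e : Pt (b d) K) :
    al hb (ξ.mul ξ') e = al hb ξ e * al hb ξ' e := by
  obtain ⟨D⟩ := exists_div hb K e
  rw [D.al hb, D.al hb, D.al hb, ← cls_mul]
  congr 1
  apply Subtype.ext
  funext p
  change D.coch (ξ.mul ξ') p = D.coch ξ p * D.coch ξ' p
  simp only [Div.coch, Xi.mul]
  rw [map_mul]

theorem al_inv (hb : Tower b) (ξ : Xi b d) (e : Pt (b d) K) :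
    al hb ξ.inv e = (al hb ξ e)⁻¹ := by
  obtain ⟨D⟩ := exists_div hb K e
  have h : al hb (ξ.mul ξ.inv) e = 1 := by
    rw [D.al hb, cls_eq_one]
    have e1 : (D.Z hb (ξ.mul ξ.inv)).1 = 1 := by
      funext p
      change D.coch (ξ.mul ξ.inv) p = 1
      simp only [Div.coch, Xi.mul, Xi.inv, mul_inv_cancel, map_one]
    rw [e1]
    exact (B2 K).one_mem
  rw [al_mul] at h
  exact eq_inv_of_mul_eq_one_right h

/-- restriction of `xi` to the smaller kernel -/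
noncomputable def Xi.restr (hb : Tower b) (ξ : Xi b (d + 1)) : Xi b d where
  f := ξ.f
  smooth := ξ.smooth
  add := fun g P Q hP hQ => ξ.add g P Q (ker_mono hb hP) (ker_mono hb hQ)
  coc := fun g h Q hQ => ξ.coc g h Q (ker_mono hb hQ)

theorem al_restr (hb : Tower b) (ξ : Xi b (d + 1)) (f : Pt (b d) K) :
    al hb ξ (isoF (b d) (b (d + 1)) f) = al hb (ξ.restr hb) f := by
  obtain ⟨D⟩ := exists_div hb K f
  have h : IsAlpha ξ K (isoF (b d) (b (d + 1)) f) (D.Z hb (ξ.restr hb)) := by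
    refine ⟨D.a, D.ν, ?_, fun g => ⟨ker_mono hb (D.hν g).1, (D.hν g).2⟩, fun _ _ => rfl⟩
    change isoF _ _ (downF b (Kb K) d D.a) = _
    rw [D.ha]
    exact iso_natural (hb.ne' d) (hb.step d) _ _
  rw [al_eq hb h, D.al hb]

/-- two `xi`'s which agree on the kernel have the same classes -/
theorem al_congr (hb : Tower b) (ξ ξ' : Xi b d)
    (h : ∀ g P, downF b (Kb ℚ) d P = 0 → ξ.f g P = ξ'.f g P) (e : Pt (b d) K) :
    al hb ξ e = al hb ξ' e := by
  obtain ⟨D⟩ := exists_div hb K e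
  rw [D.al hb, D.al hb]
  congr 1
  apply Subtype.ext
  funext p
  change D.coch ξ p = D.coch ξ' p
  simp only [Div.coch]
  rw [h _ _ (ker_gact hb _ (D.hν _).1)]

end

end BB37
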