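import Pool.Agent.Lib.MP_bb37eb_nt.Core.H2

/-! Hilbert 90 for smooth cochains of the absolute Galois group, and its consequence for
cocycles with values in `±1`. -/

namespace BB37

/-- Hilbert 90 for smooth 1-cocycles. Proof: let `M` be a finite normal subextension as in
`Smooth1.values` (w factors through `Gal(M/K)` and has values in `M`); `K` has characteristic zero
so `M/K` is Galois; apply `groupCohomology.isMulCoboundary₁_of_isMulCocycle₁_of_aut_to_units` to
the induced cocycle `Gal(M/K) → Mˣ` (each element of `Gal(M/K)` lifts to `GK K`). -/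
theorem hilbert90 {K : Type} [Field K] [CharZero K] (w : GK K → (Kb K)ˣ) (hw : Smooth1 K w)
    (hc : ∀ g h, w (g * h) = w g * g • w h) : ∃ z : (Kb K)ˣ, ∀ g, w g = g • z / z := by
  obtain ⟨M, hM, hN, h1, h2⟩ := hw.values
  let r : GK K →* (M ≃ₐ[K] M) := AlgEquiv.restrictNormalHom M
  have hr : Function.Surjective r := AlgEquiv.restrictNormalHom_surjective (Kb K)
  choose l hl using hr
  have hrc : ∀ (g : GK K) (x : M), ((r g x : M) : Kb K) = g (x : Kb K) := fun g x =>
    AlgEquiv.restrictNormal_commutes g M x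
  have hag : ∀ g h : GK K, r g = r h → w g = w h := by
    intro g h e
    apply h1
    intro x hx
    have e1 := hrc g ⟨x, hx⟩
    have e2 := hrc h ⟨x, hx⟩
    rw [e] at e1
    exact e1.symm.trans e2
  -- the cocycle with values in `M`
  let f : (M ≃ₐ[K] M) → Mˣ := fun γ =>
    Units.mk0 ⟨(w (l γ) : Kb K), h2 _⟩ fun h0 => (w (l γ)).ne_zero (congrArg Subtype.val h0)
  have hf : ∀ γ, (((f γ : Mˣ) : M) : Kb K) = w (l γ) := fun γ => rfl
  have hcoc : groupCohomology.IsMulCocycle₁ f := by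
    intro γ δ
    apply Units.ext
    apply Subtype.ext
    have e1 : w (l (γ * δ)) = w (l γ * l δ) := hag _ _ (by rw [map_mul, hl, hl, hl])
    have e2 := congrArg (fun u : (Kb K)ˣ => (u : Kb K)) (hc (l γ) (l δ))
    have e3 : (((γ • f δ * f γ : Mˣ) : M) : Kb K) =
        (l γ) (w (l δ) : Kb K) * (w (l γ) : Kb K) := by
      rw [Units.val_mul, AlgEquiv.smul_units_def]
      have e4 := hrc (l γ) ((f δ : Mˣ) : M)
      rw [hl] at e4
      rw [← hf δ, ← hf γ, ← e4]
      rfl
    rw [e3, hf, e1]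
    change ((w (l γ * l δ) : (Kb K)ˣ) : Kb K) = _
    rw [hc, Units.val_mul, AlgEquiv.smul_units_def, mul_comm]
    rfl
  obtain ⟨z, hz⟩ := groupCohomology.isMulCoboundary₁_of_isMulCocycle₁_of_aut_to_units f hcoc
  refine ⟨Units.map (algebraMap M (Kb K)).toMonoidHom z, fun g => ?_⟩
  have e1 : w g = w (l (r g)) := hag _ _ (by rw [hl])
  rw [e1, eq_div_iff_mul_eq']
  apply Units.ext
  have e2 := hz (r g)
  rw [div_eq_iff_eq_mul'] at e2
  have e3 := congrArg (fun u : Mˣ => (((u : Mˣ) : M) : Kb K)) e2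
  have e4 := hrc g (z : M)
  have e5 : (((r g • z : Mˣ) : M) : Kb K) = g ((z : M) : Kb K) := by
    rw [← e4, AlgEquiv.smul_units_def]
    rfl
  have e6 : ((g • Units.map (algebraMap M (Kb K)).toMonoidHom z : (Kb K)ˣ) : Kb K) =
      g ((z : M) : Kb K) := by
    rw [AlgEquiv.smul_units_def]
    rfl
  rw [e6, ← e5, Units.val_mul, mul_comm]
  exact e3.symm

/-- A `±1`-valued smooth 2-cochain which is the coboundary of a smooth `w` is the coboundary of a
smooth `±1`-valued cochain. Proof: `w^2` is a 1-cocycle, `w g ^ 2 = g z / z` by `hilbert90`; choose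
`y^2 = z`; replace `w g` by `w g * y / g y`. -/
theorem sign_coboundary {K : Type} [Field K] [CharZero K] (δ : GK K × GK K → (Kb K)ˣ)
    (h1 : ∀ p, δ p ^ 2 = 1) (hδ : δ ∈ B2 K) :
    ∃ w : GK K → (Kb K)ˣ, Smooth1 K w ∧ (∀ g, w g ^ 2 = 1) ∧
      ∀ g h, δ (g, h) = g • w h * w g / w (g * h) := by
  obtain ⟨u, hu, h2⟩ := hδ
  obtain ⟨z, hz⟩ := hilbert90 (fun g => u g ^ 2) (by
    obtain ⟨M, hM, h3⟩ := hu
    refine ⟨M, hM, fun g h hg => ?_⟩
    have := h3 g h hg
    simp only [this]) (by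
    intro g h
    have h3 := h1 (g, h)
    rw [h2] at h3
    rw [div_pow, mul_pow, div_eq_one] at h3
    rw [← h3, smul_pow', mul_comm])
  obtain ⟨y, hy⟩ : ∃ y : (Kb K)ˣ, y ^ 2 = z := by
    obtain ⟨y, hy⟩ := IsAlgClosed.exists_pow_nat_eq (z : Kb K) (n := 2) (by norm_num)
    have hy0 : y ≠ 0 := by
      rintro rfl
      exact z.ne_zero (by rw [← hy]; ring)
    exact ⟨Units.mk0 y hy0, Units.ext hy⟩
  have hy2 : ∀ g : GK K, (g • y) ^ 2 = g • z := fun g => by rw [← smul_pow', hy]
  refine ⟨fun g => u g * (y / g • y), ?_, ?_, ?_⟩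
  · obtain ⟨M, hM, h3⟩ := hu
    obtain ⟨M', hM', h4⟩ := exists_finite_sub (K := K) {(y : Kb K)} (Set.finite_singleton _)
    refine ⟨M ⊔ M', inferInstance, fun g h hg => ?_⟩
    have e1 := h3 g h fun x hx => hg x (le_sup_left (a := M) hx)
    have e2 : g • y = h • y := by
      apply Units.ext
      rw [AlgEquiv.smul_units_def, AlgEquiv.smul_units_def]
      exact hg _ (le_sup_right (a := M) (h4 rfl))
    simp only [e1, e2]
  · intro g
    rw [mul_pow, div_pow, hy, hy2, hz, div_mul_div_cancel, div_self']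
  · intro g h
    rw [h2]
    simp only [smul_mul', smul_div', mul_smul]
    generalize g • h • y = A
    generalize g • y = B
    generalize g • u h = C
    generalize u g = D
    generalize u (g * h) = E
    simp only [div_eq_mul_inv, mul_inv, inv_inv]
    have : C * (B * A⁻¹) * (D * (y * B⁻¹)) * (E⁻¹ * (y⁻¹ * A)) =
        C * D * E⁻¹ * (B * B⁻¹) * (A⁻¹ * A) * (y * y⁻¹) := by ac_rfl
    rw [this, mul_inv_cancel, mul_inv_cancel, inv_mul_cancel, mul_one, mul_one, mul_one]

end BB37
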