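import Pool.Agent.Lib.MP_bb37eb_nt.DE.Quad2

/-! The value of the quadratic cocycle at a point is a quaternion class. -/

namespace BB37

variable {b : ℕ → ℚ} {d : ℕ}

private theorem Quad3_embU_neg {K : Type} [Field K] [Algebra ℚ K] :
    embU ℚ K (-1 : (Kb ℚ)ˣ) = -1 := by
  apply Units.ext
  change (emb ℚ K) ((-1 : (Kb ℚ)ˣ) : Kb ℚ) = ((-1 : (Kb K)ˣ) : Kb K)
  rw [Units.val_neg, Units.val_neg, Units.val_one, Units.val_one, map_neg, map_one]

private theorem Quad3_moves (hb : Tower b) {K : Type} [Field K] [Algebra ℚ K]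
    {e : Pt (b (d + 1)) K} (D : Div b (d + 1) K e) (g h : GK K) :
    downF b (Kb ℚ) d (gact ℚ (b 0) (resG ℚ K g) (D.ν h)) ≠ 0 ↔
      Moves (delta (b (d + 1)) e) h := by
  have hf : isoF (b d) (b (d + 1)) (downF b (Kb K) d D.a) = mapF (b (d + 1)) (incl K) e := D.ha
  rw [moves_delta (hb.ne' d) (hb.step d) e (downF b (Kb K) d D.a) hf h]
  have e1 : downF b (Kb ℚ) d (gact ℚ (b 0) (resG ℚ K g) (D.ν h)) ≠ 0 ↔
      downF b (Kb ℚ) d (D.ν h) ≠ 0 := by
    rw [down_gact hb, gact, mapF_ne_zero]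
  rw [e1, ← mapF_ne_zero (f := emb ℚ K), ← down_mapF hb, (D.hν h).2, down_sub hb,
    down_gact hb, sub_ne_zero]

/-- The value of the quadratic class is the quaternion class. Proof: take a division `D` of `e`;
`f = downF d D.a` is a preimage of `e`; `D.nu h` lies outside the smaller kernel iff
`h f - f ≠ 0` (apply `down_mapF` for `emb`, `mapF_eq_zero`), i.e. iff `h` moves the root of
`delta e` (`moves_delta`); the Galois group preserves the kernels; so `D.coch (Xi.quad hb a)` is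
equal to `qfun a (delta e)` as a function (`moves_res`). -/
theorem al_quad (hb : Tower b) (a : ℚ) {K : Type} [Field K] [Algebra ℚ K]
    (e : Pt (b (d + 1)) K) :
    IsQuat (algebraMap ℚ K a) (delta (b (d + 1)) e) (al hb (Xi.quad (d := d) hb a) e) := by
  classical
  obtain ⟨D⟩ := exists_div hb K e
  refine ⟨D.Z hb (Xi.quad hb a), ?_, (D.al hb).symm⟩
  funext p
  obtain ⟨g, h⟩ := p
  have h1 := Quad3_moves hb D g h
  have h2 := moves_res (K := K) a g
  have e2 : (D.Z hb (Xi.quad hb a)).1 (g, h) =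
      embU ℚ K (if downF b (Kb ℚ) d (gact ℚ (b 0) (resG ℚ K g) (D.ν h)) ≠ 0 ∧
        Moves a (resG ℚ K g) then -1 else 1) := by
    change embU ℚ K ((Xi.quad hb a).f (resG ℚ K g) (gact ℚ (b 0) (resG ℚ K g) (D.ν h))) = _
    congr 1
  have e3 : qfun (algebraMap ℚ K a) (delta (b (d + 1)) e) (g, h) =
      if Moves (algebraMap ℚ K a) g ∧ Moves (delta (b (d + 1)) e) h then -1 else 1 := by
    unfold qfun Moves
    simp only
  rw [e2, e3]
  by_cases c : Moves (algebraMap ℚ K a) g ∧ Moves (delta (b (d + 1)) e) h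
  · rw [if_pos c, if_pos ⟨h1.2 c.2, h2.2 c.1⟩, Quad3_embU_neg]
  · rw [if_neg c, if_neg (fun hc => c ⟨h2.1 hc.2, h1.1 hc.1⟩), map_one]

end BB37
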