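import Pool.Agent.Lib.MP_bb37eb_nt.DE.Step
import Pool.Agent.Lib.MP_bb37eb_nt.DE.ChooseR
import Pool.Agent.Lib.MP_bb37eb_nt.DE.Quad3
import Pool.Agent.Lib.MP_bb37eb_nt.ODD.Iface

/-! The Kummer step: an orthogonal family on the lower curve is the sum of a rational 2-torsion
point and the image of a family on the upper curve. -/

namespace BB37

/-- an admissible global family supported at one place with square one is trivial -/
theorem single_trivial (I : InvData) (v : Place) (x : H2 (Kv v)) (hx : Adm (single v x))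
    (hsq : x * x = 1) (hg : Glob (single v x)) : x = 1 := by
  rcases I.h_only v x hx hsq with h | h
  · exact h
  · exfalso
    have h1 := (I.ker _ hx).2 hg
    rw [h, I.h_inv v] at h1
    exact I.h_ne _ h1

theorem eq_single {X : ∀ v : Place, H2 (Kv v)} (v : Place) (h : ∀ w, w ≠ v → X w = 1) :
    X = single v (X v) := by
  funext w
  by_cases hw : w = v
  · subst hw
    simp [single]
  · rw [h w hw, single, Function.update_of_ne hw]
    rfl

/-- the family of local classes with a global class and support at one place -/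
theorem fam_trivial (I : InvData) {X : ∀ v : Place, H2 (Kv v)} (hX : Adm X) (hG : Glob X)
    (v : Place) (h : ∀ w, w ≠ v → X w = 1) (hsq : X v * X v = 1) : X v = 1 := by
  have e := eq_single v h
  have h1 : Adm (single v (X v)) := e ▸ hX
  have h2 : Glob (single v (X v)) := e ▸ hG
  exact single_trivial I v _ h1 hsq h2

variable {b : ℕ → ℚ} {d : ℕ}

theorem unit_b {n : ℕ} (hb : Tower b) (hn : b n = 1) {j : ℕ} (hj : j ≤ n) {p : ℕ}
    [Fact p.Prime] (hp : p ≠ 2) : ‖(algebraMap ℚ ℚ_[p] (b j))‖ = 1 := by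
  have h4 : ‖((4 : ℕ) : ℚ_[p])‖ = 1 := by
    rw [Padic.norm_natCast_eq_one_iff]
    have h2 : p.Coprime 2 := (Nat.coprime_primes (Fact.out : p.Prime) Nat.prime_two).2 hp
    have e : (4 : ℕ) = 2 * 2 := rfl
    rw [e]
    exact Nat.Coprime.mul_right h2 h2
  have h4' : ‖(4 : ℚ_[p])‖ = 1 := by exact_mod_cast h4
  rw [bval hb hn hj, map_pow, map_div₀, map_neg, map_one, map_ofNat, norm_pow, norm_div, norm_neg,
    norm_one, h4', div_one, one_pow]

/-- the units used -/
theorem unit_small {p : ℕ} [Fact p.Prime] (hp : p ≠ 2) (q : ℕ) (hq : q.Prime) (hpq : p ≠ q) :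
    ‖(algebraMap ℚ ℚ_[p] (q : ℚ))‖ = 1 := by
  rw [map_natCast, Padic.norm_natCast_eq_one_iff]
  exact (Nat.coprime_primes (Fact.out : p.Prime) hq).2 hpq

theorem kummer_step (I : InvData) {n : ℕ} (hb : Tower b) (hn : b n = 1) (hd : d < n)
    (e : ∀ v : Place, Pt (b (d + 1)) (Kv v)) (he : Orth hb e) :
    ∃ R : Pt (b (d + 1)) ℚ, R + R = 0 ∧ ∃ f : ∀ v : Place, Pt (b d) (Kv v),
      ∀ v, e v - mapF (b (d + 1)) (Algebra.ofId ℚ (Kv v)) R =
        isoF (b d) (b (d + 1)) (f v) := by
  obtain ⟨R, hR, hinf, h2⟩ := exists_R hb hn (j := d + 1) hd (e none) (e (some two))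
  refine ⟨R, hR, ?_⟩
  let e' : ∀ v : Place, Pt (b (d + 1)) (Kv v) := fun v =>
    e v - mapF (b (d + 1)) (Algebra.ofId ℚ (Kv v)) R
  have hO : Orth hb e' := by
    intro ξ
    have h := (he ξ).div (glob_rat hb ξ R)
    have e1 : (fun v => al hb ξ (e' v)) = fun v => al hb ξ (e v) /
        al hb ξ (mapF (b (d + 1)) (Algebra.ofId ℚ (Kv v)) R) := by
      funext v
      exact al_sub hb ξ _ _
    rw [e1]
    exact h
  let X : ℚ → ∀ v : Place, H2 (Kv v) := fun a v => al hb (Xi.quad (d := d) hb a) (e' v)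
  have hXG : ∀ a, Glob (X a) := fun a => hO _
  have hXA : ∀ a, Adm (X a) := fun a => adm_al hb hn _ e'
  have hXq : ∀ a v, IsQuat (algebraMap ℚ (Kv v) a) (delta (b (d + 1)) (e' v)) (X a v) :=
    fun a v => al_quad hb a (e' v)
  have hsq : ∀ a v, X a v * X a v = 1 := fun a v => quat_sq (hXq a v)
  have hoddp : ∀ p : Nat.Primes, p ≠ two → ((p : ℕ) ≠ 2) := by
    intro p hp h
    exact hp (Subtype.ext h)
  let D : ∀ v : Place, Kv v := fun v => delta (b (d + 1)) (e' v)
  have hδ : ∀ p : Nat.Primes, p ≠ two → ∃ s u : ℚ_[(p : ℕ)],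
      (D (some p) : ℚ_[(p : ℕ)]) = s ^ 2 * u ∧ ‖u‖ = 1 := by
    intro p hp
    exact delta_odd (p := (p : ℕ)) (b (d + 1)) (unit_b hb hn hd (hoddp p hp)) (e' (some p))
  have hX1 : ∀ (a : ℚ) (p : Nat.Primes), p ≠ two → ‖(algebraMap ℚ ℚ_[(p : ℕ)] a)‖ = 1 →
      X a (some p) = 1 := by
    intro a p hp ha
    have h := hXq a (some p)
    exact quat_unit (p := (p : ℕ)) (hoddp p hp) (a := algebraMap ℚ ℚ_[(p : ℕ)] a)
      ⟨1, algebraMap ℚ ℚ_[(p : ℕ)] a, by rw [one_pow, one_mul], ha⟩ (hδ p hp) h
  have hXr : ∀ a, X a none = 1 := fun a => quat_real (δ := D none) hinf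
    (hXq a none)
  have hneg : X (-1) (some two) = 1 := by
    apply fam_trivial I (hXA _) (hXG _) (some two) _ (hsq _ _)
    intro w hw
    cases w with
    | none => exact hXr _
    | some p =>
      apply hX1 _ p (fun h => hw (congrArg some h))
      rw [map_neg, map_one, norm_neg, norm_one]
  have htwo : X 2 (some two) = 1 := by
    apply fam_trivial I (hXA _) (hXG _) (some two) _ (hsq _ _)
    intro w hw
    cases w with
    | none => exact hXr _
    | some p =>
      have hp : p ≠ two := fun h => hw (congrArg some h)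
      apply hX1 _ p hp
      exact_mod_cast unit_small (hoddp p hp) 2 Nat.prime_two (hoddp p hp)
  have hne : ∀ v, D v ≠ 0 := fun v => delta_ne_zero (hb.ne' _) _
  have hs2 : IsSquare (D (some two) : ℚ_[2]) := by
    apply square_of_quat_two (hne (some two)) h2
    · have h := hXq (-1) (some two)
      rw [hneg] at h
      have e2 : algebraMap ℚ (Kv (some two)) (-1) = (-1 : ℚ_[2]) := by
        rw [map_neg, map_one]
        rfl
      rw [e2] at h
      exact h
    · have h := hXq 2 (some two)
      rw [htwo] at h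
      have e2 : algebraMap ℚ (Kv (some two)) 2 = (2 : ℚ_[2]) := by
        rw [map_ofNat]
        rfl
      rw [e2] at h
      exact h
  have hsp : ∀ p : Nat.Primes, p ≠ two →
      IsSquare (D (some p) : ℚ_[(p : ℕ)]) := by
    intro p hp
    have hp1 : X (p : ℕ) (some p) = 1 := by
      apply fam_trivial I (hXA _) (hXG _) (some p) _ (hsq _ _)
      intro w hw
      cases w with
      | none => exact hXr _
      | some q =>
        by_cases hq : q = two
        · subst hq
          exact quat_square hs2 (hXq _ (some two))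
        · apply hX1 _ q hq
          exact unit_small (hoddp q hq) p p.2 (fun h => hw (congrArg some (Subtype.ext h)))
    apply square_of_quat_odd (hoddp p hp) (hne (some p)) (hδ p hp)
    have h := hXq (p : ℕ) (some p)
    rw [hp1] at h
    have e2 : algebraMap ℚ (Kv (some p)) ((p : ℕ) : ℚ) = ((p : ℕ) : ℚ_[(p : ℕ)]) := by
      rw [map_natCast]
      rfl
    rw [e2] at h
    exact h
  have hsr : IsSquare (D none : ℝ) := by
    have key : ∀ z : ℝ, 0 < z → IsSquare z := fun z hz =>
      ⟨Real.sqrt z, (Real.mul_self_sqrt hz.le).symm⟩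
    exact key _ hinf
  have hall : ∀ v, IsSquare (delta (b (d + 1)) (e' v)) := by
    intro v
    cases v with
    | none => exact hsr
    | some p =>
      by_cases hp : p = two
      · subst hp
        exact hs2
      · exact hsp p hp
  choose f hf using fun v => lift_of_delta (hb.ne' d) (hb.step d) (e' v) (hall v)
  exact ⟨f, fun v => (hf v).symm⟩

end BB37
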