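import Pool.Agent.Lib.MP_bb37eb_nt.DE.Formal
import Pool.Agent.Lib.MP_bb37eb_nt.ODD.Iface

/-! Division points of local points at odd primes are unramified. -/

namespace BB37

/-- `x` is fixed by the Galois group of `ℚ_p (theta k)` -/
def Fxe (p : Nat.Primes) (θ : ℕ → Kb ℚ) (k : ℕ) (x : Kb ℚ_[(p : ℕ)]) : Prop :=
  ∀ g : GK ℚ_[(p : ℕ)], g (emb ℚ _ (θ k)) = emb ℚ _ (θ k) → g x = x

/-- the point `a` is fixed by the Galois group of `ℚ_p (theta k)` -/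
def FxP (p : Nat.Primes) (θ : ℕ → Kb ℚ) (k : ℕ) (c : ℚ) (a : Pt c (Kb ℚ_[(p : ℕ)])) : Prop :=
  ∀ g : GK ℚ_[(p : ℕ)], g (emb ℚ _ (θ k)) = emb ℚ _ (θ k) → gact _ c g a = a

variable {p : Nat.Primes} {θ : ℕ → Kb ℚ}

theorem Fxe.mono (hθ : IsTheta θ) {k k' : ℕ} (hk : k ≤ k') {x : Kb ℚ_[(p : ℕ)]}
    (h : Fxe p θ k x) : Fxe p θ k' x :=
  fun g hg => h g (theta_mono hθ hk hg)

theorem FxP.mono (hθ : IsTheta θ) {k k' : ℕ} (hk : k ≤ k') {c : ℚ} {a : Pt c (Kb ℚ_[(p : ℕ)])}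
    (h : FxP p θ k c a) : FxP p θ k' c a :=
  fun g hg => h g (theta_mono hθ hk hg)

/-- a point is fixed if its coordinates are (`xc_gact`, `yc_gact`, `ext_xy`; the point `0` is
always fixed) -/
theorem fxP_of {k : ℕ} {c : ℚ} {a : Pt c (Kb ℚ_[(p : ℕ)])} (hx : Fxe p θ k (xc c a))
    (hy : Fxe p θ k (yc c a)) : FxP p θ k c a := by
  intro g hg
  by_cases h0 : a = 0
  · rw [h0, gact_zero]
  have h1 : gact _ c g a ≠ 0 := by rwa [Ne, gact, mapF_eq_zero]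
  exact ext_xy h1 h0 (by rw [xc_gact, hx g hg]) (by rw [yc_gact, hy g hg])

theorem FxP.xy {k : ℕ} {c : ℚ} {a : Pt c (Kb ℚ_[(p : ℕ)])} (h : FxP p θ k c a) :
    Fxe p θ k (xc c a) ∧ Fxe p θ k (yc c a) :=
  ⟨fun g hg => by rw [← xc_gact, h g hg], fun g hg => by rw [← yc_gact, h g hg]⟩

/-- all coefficients of the tower are units at odd primes: `b j = (-4)^j * b 0` -/
theorem norm_bj {b : ℕ → ℚ} (hb : Tower b) {n : ℕ} (hn : b n = 1) (hp : p ≠ two) (j : ℕ) :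
    ‖(algebraMap ℚ ℚ_[(p : ℕ)] (b j))‖ = 1 := by
  have hp' : (p : ℕ) ≠ 2 := fun h => hp (Subtype.ext h)
  have h4 : ‖((4 : ℕ) : ℚ_[(p : ℕ)])‖ = 1 := by
    rw [Padic.norm_natCast_eq_one_iff]
    have h2 : (p : ℕ).Coprime 2 := (Nat.coprime_primes p.2 Nat.prime_two).2 hp'
    have e : (4 : ℕ) = 2 * 2 := rfl
    rw [e]
    exact Nat.Coprime.mul_right h2 h2
  have h4' : ‖(4 : ℚ_[(p : ℕ)])‖ = 1 := by exact_mod_cast h4
  have h5 : ∀ i : ℕ, ‖(algebraMap ℚ ℚ_[(p : ℕ)] (b i))‖ =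
      ‖(algebraMap ℚ ℚ_[(p : ℕ)] (b 0))‖ := by
    intro i
    induction i with
    | zero => rfl
    | succ i ih =>
      rw [hb.step, map_mul, norm_mul, ih, map_neg, map_ofNat, norm_neg, h4', one_mul]
  rw [h5, ← h5 n, hn, map_one, norm_one]

/-- The first coordinate of a fixed point (not `0`, `T`) has the shape required by `ODD_sqrt`.
Proof. Take the norm `N` of `exists_padic_norm`, `B = b` in `Kb ℚ_p`, `N B = 1`, `y^2 = x^3 + B x`,
`x ≠ 0`. If `N x > 1`: `s = y / x`, `u = x^2 / (x^2 + B)` (`N (x^2 + B) = N x ^ 2` by the strong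
triangle inequality); if `N x < 1`: `s = y`, `u = 1 / (x^2 + B)` (`N (x^2 + B) = 1`); if `N x = 1`:
`s = 1`, `u = x`. An element with `N u = 1` is integral and so is its inverse. -/
theorem even_val {c : ℚ} (hc : ‖(algebraMap ℚ ℚ_[(p : ℕ)] c)‖ = 1) {k : ℕ}
    {a : Pt c (Kb ℚ_[(p : ℕ)])} (h : FxP p θ k c a) (hx : xc c a ≠ 0) :
    ∃ s u : Kb ℚ_[(p : ℕ)], xc c a = s ^ 2 * u ∧ IsIntegral ℤ_[(p : ℕ)] u ∧
      IsIntegral ℤ_[(p : ℕ)] u⁻¹ ∧ Fxe p θ k s := by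
  obtain ⟨N, hmul, hadd, hcoe, hnn, hN0, hint, -⟩ := exists_padic_norm (p : ℕ)
  obtain ⟨C, hC⟩ : ∃ C : Kb ℚ_[(p : ℕ)], C = algebraMap ℚ (Kb ℚ_[(p : ℕ)]) c := ⟨_, rfl⟩
  obtain ⟨x, hxe⟩ : ∃ x, x = xc c a := ⟨_, rfl⟩
  obtain ⟨y, hye⟩ : ∃ y, y = yc c a := ⟨_, rfl⟩
  have ha0 : a ≠ 0 := by
    rintro rfl
    exact hx rfl
  have hcurve : y ^ 2 = x ^ 3 + C * x := by
    have := onCurve_xy c ha0
    rw [OnCurve] at this
    rw [hxe, hye, hC]
    exact this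
  obtain ⟨hfx, hfy⟩ := h.xy
  rw [← hxe] at hfx hx ⊢
  rw [← hye] at hfy
  have hNC : N C = 1 := by
    rw [hC, IsScalarTower.algebraMap_apply ℚ ℚ_[(p : ℕ)] (Kb ℚ_[(p : ℕ)]), hcoe, hc]
  have hN1 : N 1 = 1 := by
    have := hcoe 1
    rwa [map_one, norm_one] at this
  have hNneg : ∀ z, N (-z) = N z := by
    intro z
    have h1 : N (-1) * N (-1) = 1 := by rw [← hmul, neg_one_mul, neg_neg, hN1]
    have h2 : N (-1) = 1 := by
      have h3 := hnn (-1)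
      nlinarith
    rw [← neg_one_mul, hmul, h2, one_mul]
  have hNsq : ∀ z, N (z ^ 2) = N z ^ 2 := fun z => by rw [sq, hmul, sq]
  have hunit : ∀ u, N u = 1 → IsIntegral ℤ_[(p : ℕ)] u ∧ IsIntegral ℤ_[(p : ℕ)] u⁻¹ := by
    intro u hu
    have hu0 : u ≠ 0 := by
      rintro rfl
      rw [(hN0 0).2 rfl] at hu
      exact zero_ne_one hu
    have h1 : N u * N u⁻¹ = 1 := by rw [← hmul, mul_inv_cancel₀ hu0, hN1]
    rw [hu, one_mul] at h1
    exact ⟨(hint u).1 hu.le, (hint _).1 h1.le⟩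
  have hub := hadd (x ^ 2) C
  rw [hNsq, hNC] at hub
  have hlb1 := hadd (x ^ 2 + C) (-C)
  rw [add_neg_cancel_right, hNneg, hNC, hNsq] at hlb1
  have hlb2 := hadd (x ^ 2 + C) (-x ^ 2)
  rw [add_neg_cancel_comm, hNneg, hNC, hNsq] at hlb2
  have hxn := hnn x
  have hxC : ∀ hne : x ^ 2 + C ≠ 0, y ^ 2 / (x ^ 2 + C) = x := by
    intro hne
    rw [hcurve, div_eq_iff hne]
    ring
  rcases lt_trichotomy (N x) 1 with h1 | h1 | h1
  · have h2 : N x ^ 2 < 1 := pow_lt_one₀ hxn h1 two_ne_zero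
    have h3 : N (x ^ 2 + C) = 1 := by
      rw [max_eq_right h2.le] at hub
      rcases le_max_iff.1 hlb2 with h4 | h4
      · exact le_antisymm hub h4
      · exact absurd h2 (not_lt.2 h4)
    have hne : x ^ 2 + C ≠ 0 := by
      intro h0
      rw [h0, (hN0 0).2 rfl] at h3
      exact zero_ne_one h3
    have hu : N (x ^ 2 + C)⁻¹ = 1 := by
      have h4 : N (x ^ 2 + C) * N (x ^ 2 + C)⁻¹ = 1 := by rw [← hmul, mul_inv_cancel₀ hne, hN1]
      rwa [h3, one_mul] at h4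
    refine ⟨y, (x ^ 2 + C)⁻¹, ?_, (hunit _ hu).1, (hunit _ hu).2, hfy⟩
    rw [← div_eq_mul_inv, hxC hne]
  · refine ⟨1, x, by rw [one_pow, one_mul], (hunit _ h1).1, (hunit _ h1).2, fun g _ => map_one g⟩
  · have h2 : 1 < N x ^ 2 := one_lt_pow₀ h1 two_ne_zero
    have h3 : N (x ^ 2 + C) = N x ^ 2 := by
      rw [max_eq_left h2.le] at hub
      rcases le_max_iff.1 hlb1 with h4 | h4
      · exact le_antisymm hub h4
      · exact absurd h2 (not_lt.2 h4)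
    have hne : x ^ 2 + C ≠ 0 := by
      intro h0
      rw [h0, (hN0 0).2 rfl] at h3
      linarith
    have hu : N (x ^ 2 / (x ^ 2 + C)) = 1 := by
      have h4 : N (x ^ 2 + C) * N (x ^ 2 / (x ^ 2 + C)) = N x ^ 2 := by
        rw [← hmul, mul_div_cancel₀ _ hne, hNsq]
      rw [h3] at h4
      have h5 : N x ^ 2 ≠ 0 := by positivity
      exact mul_left_cancel₀ h5 (h4.trans (mul_one _).symm)
    refine ⟨y / x, x ^ 2 / (x ^ 2 + C), ?_, (hunit _ hu).1, (hunit _ hu).2, fun g hg => ?_⟩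
    · have h4 := hxC hne
      rw [div_pow, div_mul_div_cancel₀ (pow_ne_zero 2 hx), h4]
    · rw [map_div₀, hfx g hg, hfy g hg]

/-- One step. If `a' = 0` take `a = 0`. If `a' = T` (`xc a' = 0`) take `a = mk b x 0` with
`x ^ 2 = -b` (`iso_mk`), and apply `ODD_sqrt` with `r = x`, `s = 1`, `u = -b`. Otherwise take
`r` with `r ^ 2 = xc a'`, `ODD_sqrt` with `even_val`, and `iso_lift` (`EC_iso_lift`):
`xc a = (xc a' + yc a' / r) / 2`, `yc a` is determined by `yc a' * xc a ^ 2 = yc a * (b - xc a ^ 2)`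
and `b - (xc a)^2 = (yc a' / r) * xc a ≠ 0` unless `yc a' = 0`; it is easier to take
`a = mk b x (x * r)` with `x = (xc a' + yc a' / r) / 2` and to verify `isoF a = a'` directly
(`iso_mk`), treating also the sign: `x + b / x = xc a'`, `b / x - x = - yc a' / r`, so use `-r`. -/
theorem unram_lift (hp : p ≠ two) (hθ : IsTheta θ) {b b' : ℚ} (hb : b ≠ 0) (hb' : b' = -4 * b)
    (hn : ‖(algebraMap ℚ ℚ_[(p : ℕ)] b)‖ = 1) (hn' : ‖(algebraMap ℚ ℚ_[(p : ℕ)] b')‖ = 1)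
    {k : ℕ} {a' : Pt b' (Kb ℚ_[(p : ℕ)])} (h : FxP p θ k b' a') :
    ∃ (k' : ℕ) (a : Pt b (Kb ℚ_[(p : ℕ)])), k ≤ k' ∧ isoF b b' a = a' ∧ FxP p θ k' b a := by
  by_cases h0 : a' = 0
  · exact ⟨k, 0, le_rfl, by rw [h0, iso_zero], fun g _ => gact_zero g⟩
  by_cases hx : xc b' a' = 0
  · -- the point `T`
    obtain ⟨N, hmul, -, hcoe, hnn, hN0, hint, -⟩ := exists_padic_norm (p : ℕ)
    obtain ⟨B, hB⟩ : ∃ B : Kb ℚ_[(p : ℕ)], B = algebraMap ℚ (Kb ℚ_[(p : ℕ)]) b := ⟨_, rfl⟩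
    obtain ⟨x, hxx⟩ := IsAlgClosed.exists_pow_nat_eq (-B) (n := 2) (by norm_num)
    have hT : a' = T b' := ((xc_eq_zero (bprime_ne_zero hb hb')).1 hx).resolve_left h0
    have hBfix : ∀ g : GK ℚ_[(p : ℕ)], g B = B := by
      intro g
      rw [hB, IsScalarTower.algebraMap_apply ℚ ℚ_[(p : ℕ)] (Kb ℚ_[(p : ℕ)])]
      exact g.commutes _
    have hNB : N (-B) = 1 := by
      rw [hB, IsScalarTower.algebraMap_apply ℚ ℚ_[(p : ℕ)] (Kb ℚ_[(p : ℕ)]), ← map_neg, hcoe,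
        norm_neg, hn]
    have hN1 : N 1 = 1 := by
      have := hcoe 1
      rwa [map_one, norm_one] at this
    have hB0 : -B ≠ 0 := by
      intro hz
      rw [hz, (hN0 0).2 rfl] at hNB
      exact zero_ne_one hNB
    have hNi : N (-B)⁻¹ = 1 := by
      have h4 : N (-B) * N (-B)⁻¹ = 1 := by rw [← hmul, mul_inv_cancel₀ hB0, hN1]
      rwa [hNB, one_mul] at h4
    obtain ⟨k₁, hk₁⟩ := ODD_sqrt p hp θ hθ k x (fun g _ => by rw [hxx, map_neg, hBfix g])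
      ⟨1, -B, by rw [hxx, one_pow, one_mul], (hint _).1 hNB.le, (hint _).1 hNi.le,
        fun g _ => map_one g⟩
    have hcurve : OnCurve b (Kb ℚ_[(p : ℕ)]) x 0 := by
      rw [OnCurve, ← hB]
      linear_combination (-x) * hxx
    refine ⟨max k k₁, mk b x 0, le_max_left _ _, ?_, ?_⟩
    · rw [hT, iso_eq_T hb hb']
      exact ⟨mk_ne_zero b hb hcurve, by rw [xc_mk b hb hcurve, hxx, hB]⟩
    · apply fxP_of
      · rw [xc_mk b hb hcurve]
        exact Fxe.mono (p := p) hθ (le_max_right k k₁) hk₁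
      · rw [yc_mk b hb hcurve]
        exact fun g _ => map_zero g
  · obtain ⟨r, hr⟩ := IsAlgClosed.exists_pow_nat_eq (xc b' a') (n := 2) (by norm_num)
    obtain ⟨hfx, hfy⟩ := h.xy
    obtain ⟨s, u, h1, h2, h3, h4⟩ := even_val hn' h hx
    obtain ⟨k₁, hk₁⟩ := ODD_sqrt p hp θ hθ k r (fun g hg => by rw [hr]; exact hfx g hg)
      ⟨s, u, by rw [hr, h1], h2, h3, h4⟩
    obtain ⟨a, ha1, ha2⟩ := iso_lift hb hb' a' hx r hr
    have hax : xc b a ≠ 0 := by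
      intro hc
      apply h0
      rw [← ha1, isoF, if_pos hc]
    have hfr : Fxe p θ (max k k₁) r := Fxe.mono (p := p) hθ (le_max_right k k₁) hk₁
    have hfx' : Fxe p θ (max k k₁) (xc b' a') := Fxe.mono hθ (le_max_left k k₁) hfx
    have hfy' : Fxe p θ (max k k₁) (yc b' a') := Fxe.mono hθ (le_max_left k k₁) hfy
    have hfa : Fxe p θ (max k k₁) (xc b a) := by
      intro g hg
      rw [ha2, map_div₀, map_add, map_div₀, hfx' g hg, hfy' g hg, hfr g hg, map_ofNat]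
    refine ⟨max k k₁, a, le_max_left _ _, ha1, fxP_of hfa ?_⟩
    have h5 := xc_iso hb hb' hax
    rw [ha1, ← hr] at h5
    rcases sq_eq_sq_iff_eq_or_eq_neg.1 h5 with h6 | h6
    · have h7 : yc b a = r * xc b a := by rw [h6, div_mul_cancel₀ _ hax]
      intro g hg
      rw [h7, map_mul, hfr g hg, hfa g hg]
    · have h7 : yc b a = -(r * xc b a) := by
        rw [h6, neg_mul, neg_neg, div_mul_cancel₀ _ hax]
      intro g hg
      rw [h7, map_neg, map_mul, hfr g hg, hfa g hg]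

theorem unram_div (hp : p ≠ two) (hθ : IsTheta θ) {b : ℕ → ℚ} (hb : Tower b) {n : ℕ}
    (hn : b n = 1) (d : ℕ) : ∀ (k : ℕ) (a' : Pt (b d) (Kb ℚ_[(p : ℕ)])), FxP p θ k (b d) a' →
    ∃ (k' : ℕ) (a : Pt (b 0) (Kb ℚ_[(p : ℕ)])), downF b _ d a = a' ∧ FxP p θ k' (b 0) a := by
  induction d with
  | zero => exact fun k a' h => ⟨k, a', rfl, h⟩
  | succ d ih =>
    intro k a' h
    obtain ⟨k₁, a₁, _, h2, h3⟩ := unram_lift hp hθ (hb.ne' d) (hb.step d) (norm_bj hb hn hp d)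
      (norm_bj hb hn hp (d + 1)) h
    obtain ⟨k₂, a, h4, h5⟩ := ih k₁ a₁ h3
    refine ⟨k₂, a, ?_, h5⟩
    change isoF _ _ (downF b _ d a) = a'
    rw [h4, h2]

variable {b : ℕ → ℚ} {d : ℕ}

/-- a local point at an odd prime has a division over an unramified extension -/
theorem exists_div_unram (hp : p ≠ two) (hθ : IsTheta θ) (hb : Tower b) {n : ℕ}
    (hn : b n = 1) (e : Pt (b d) ℚ_[(p : ℕ)]) : ∃ (D : Div b d ℚ_[(p : ℕ)] e) (k : ℕ),
    ∀ g : GK ℚ_[(p : ℕ)], g (emb ℚ _ (θ k)) = emb ℚ _ (θ k) → D.ν g = 0 := by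
  obtain ⟨k, a, h1, h2⟩ := unram_div hp hθ hb hn d 0 (mapF (b d) (incl _) e)
    fun g _ => gact_incl g e
  have h : ∀ g : GK ℚ_[(p : ℕ)], ∃ P₀ : Pt (b 0) (Kb ℚ), downF b (Kb ℚ) d P₀ = 0 ∧
      mapF (b 0) (emb ℚ ℚ_[(p : ℕ)]) P₀ = gact _ (b 0) g a - a := by
    intro g
    apply ker_algebraic hb
    rw [down_sub hb, down_gact hb, h1, gact_incl, sub_self]
  choose ν hν using h
  refine ⟨⟨a, ν, h1, hν⟩, k, fun g hg => ?_⟩
  change ν g = 0
  apply mapF_inj (emb ℚ ℚ_[(p : ℕ)])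
  rw [(hν g).2, h2 g hg, sub_self, mapF_zero]

/-- values at points over `ℚ_p`, `p` odd, are unramified -/
theorem inU_al (hp : p ≠ two) (hb : Tower b) {n : ℕ} (hn : b n = 1) (ξ : Xi b d)
    (e : Pt (b d) ℚ_[(p : ℕ)]) : InU ℚ_[(p : ℕ)] (al hb ξ e) := by
  obtain ⟨θ, hθ⟩ := exists_theta
  obtain ⟨D, k, hD⟩ := exists_div_unram hp hθ hb hn e
  refine ⟨D.Z hb ξ, k, θ, 1, (D.al hb).symm, hθ, ⟨⊥, inferInstance, fun _ _ _ => rfl⟩, ?_⟩
  intro g h _ hh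
  change D.coch ξ (g, h) = _
  simp only [Div.coch]
  rw [hD h hh, gact_zero, ξ.map_zero hb, map_one]
  simp

end BB37
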