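import Pool.Agent.Lib.MP_bb37eb_nt.DE.Rat
import Pool.Agent.Lib.MP_bb37eb_nt.DE.Hilbert

/-! Lifting a cocycle from the dual of `ker (down d)` to the dual of `ker (down (d+1))`: the
obstruction is the class of the cocycle at the rational 2-torsion point `T`. -/

namespace BB37

variable {b : ℕ → ℚ} {d : ℕ}

/-- square roots of units -/
theorem exists_sqrtU (u : (Kb ℚ)ˣ) : ∃ y : (Kb ℚ)ˣ, y ^ 2 = u := by
  obtain ⟨y, hy⟩ := IsAlgClosed.exists_pow_nat_eq (u : Kb ℚ) (n := 2) (by norm_num)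
  have hy0 : y ≠ 0 := by
    rintro rfl
    exact u.ne_zero (by rw [← hy]; ring)
  exact ⟨Units.mk0 y hy0, Units.ext hy⟩

/-- a chosen square root -/
noncomputable def sqrtU (u : (Kb ℚ)ˣ) : (Kb ℚ)ˣ := Classical.choose (exists_sqrtU u)

theorem sqrtU_sq (u : (Kb ℚ)ˣ) : sqrtU u ^ 2 = u := Classical.choose_spec (exists_sqrtU u)

open Classical in
/-- the extension of `xi_g` to the bigger kernel determined by the chosen square root -/
noncomputable def extF (ξ : Xi b d) (a₀ : Pt (b 0) (Kb ℚ)) (g : GK ℚ) (P : Pt (b 0) (Kb ℚ)) :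
    (Kb ℚ)ˣ :=
  if downF b (Kb ℚ) d P = 0 then ξ.f g P else sqrtU (ξ.f g (2 • a₀)) * ξ.f g (P - a₀)

/-- the defect of the extension -/
noncomputable def defect (ξ : Xi b d) (a₀ : Pt (b 0) (Kb ℚ)) (g h : GK ℚ)
    (Q : Pt (b 0) (Kb ℚ)) : (Kb ℚ)ˣ :=
  extF ξ a₀ g (gact ℚ (b 0) g Q) * g • extF ξ a₀ h Q / extF ξ a₀ (g * h) (gact ℚ (b 0) g Q)

section

variable (hb : Tower b) (ξ : Xi b d) {a₀ : Pt (b 0) (Kb ℚ)}
  (ha : downF b (Kb ℚ) d a₀ = T (b d))

include hb ha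

theorem two_a_ker : downF b (Kb ℚ) d (2 • a₀) = 0 := by
  rw [down_nsmul hb, ha, two_smul, T_add_T (hb.ne' d)]

theorem sub_a_ker {P : Pt (b 0) (Kb ℚ)} (hP : downF b (Kb ℚ) (d + 1) P = 0)
    (hP' : downF b (Kb ℚ) d P ≠ 0) : downF b (Kb ℚ) d (P - a₀) = 0 := by
  rw [down_sub hb, ha, ((ker_succ hb d P).1 hP).resolve_left hP', sub_self]

theorem a_not_ker : downF b (Kb ℚ) d a₀ ≠ 0 := by
  rw [ha]
  exact T_ne_zero (hb.ne' d)

theorem a_ker_succ : downF b (Kb ℚ) (d + 1) a₀ = 0 := (ker_succ hb d a₀).2 (Or.inr ha)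

theorem extF_add (g : GK ℚ) {P Q : Pt (b 0) (Kb ℚ)} (hP : downF b (Kb ℚ) (d + 1) P = 0)
    (hQ : downF b (Kb ℚ) (d + 1) Q = 0) :
    extF ξ a₀ g (P + Q) = extF ξ a₀ g P * extF ξ a₀ g Q := by
  have h2 := two_a_ker hb ha
  by_cases h : downF b (Kb ℚ) d P = 0 <;> by_cases h' : downF b (Kb ℚ) d Q = 0
  · have h3 : downF b (Kb ℚ) d (P + Q) = 0 := by rw [down_add hb, h, h', add_zero]
    rw [extF, extF, extF, if_pos h, if_pos h', if_pos h3]
    exact ξ.add g P Q h h'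
  · have h3 : downF b (Kb ℚ) d (P + Q) ≠ 0 := by rwa [down_add hb, h, zero_add]
    have h4 := sub_a_ker hb ha hQ h'
    rw [extF, extF, extF, if_pos h, if_neg h', if_neg h3, mul_left_comm, ← ξ.add g P _ h h4,
      add_sub_assoc]
  · have h3 : downF b (Kb ℚ) d (P + Q) ≠ 0 := by rwa [down_add hb, h', add_zero]
    have h4 := sub_a_ker hb ha hP h
    rw [extF, extF, extF, if_neg h, if_pos h', if_neg h3, mul_assoc, ← ξ.add g _ Q h4 h',
      sub_add_eq_add_sub]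
  · have h4 := sub_a_ker hb ha hP h
    have h5 := sub_a_ker hb ha hQ h'
    have h3 : downF b (Kb ℚ) d (P + Q) = 0 := by
      have : P + Q = (P - a₀) + (Q - a₀) + 2 • a₀ := by
        rw [two_smul]
        abel
      rw [this, down_add hb, down_add hb, h4, h5, h2, add_zero, add_zero]
    rw [extF, extF, extF, if_neg h, if_neg h', if_pos h3]
    have e : P + Q = 2 • a₀ + ((P - a₀) + (Q - a₀)) := by
      rw [two_smul]
      abel
    have h6 : downF b (Kb ℚ) d ((P - a₀) + (Q - a₀)) = 0 := by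
      rw [down_add hb, h4, h5, add_zero]
    rw [e, ξ.add g _ _ h2 h6, ξ.add g _ _ h4 h5]
    conv_lhs => rw [← sqrtU_sq (ξ.f g (2 • a₀))]
    rw [pow_two, mul_mul_mul_comm]

theorem extF_of_ker (g : GK ℚ) {P : Pt (b 0) (Kb ℚ)} (hP : downF b (Kb ℚ) d P = 0) :
    extF ξ a₀ g P = ξ.f g P := if_pos hP

omit hb ha in
theorem extF_smooth : Smooth1 ℚ (extF ξ a₀) := by
  obtain ⟨M, hM, h1⟩ := ξ.smooth
  refine ⟨M, hM, fun g g' hg => ?_⟩
  have e := h1 g g' hg
  funext P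
  rw [extF, extF, e]

theorem defect_add (g h : GK ℚ) {P Q : Pt (b 0) (Kb ℚ)} (hP : downF b (Kb ℚ) (d + 1) P = 0)
    (hQ : downF b (Kb ℚ) (d + 1) Q = 0) :
    defect ξ a₀ g h (P + Q) = defect ξ a₀ g h P * defect ξ a₀ g h Q := by
  rw [defect, defect, defect, gact_add,
    extF_add hb ξ ha g (ker_gact hb g hP) (ker_gact hb g hQ), extF_add hb ξ ha h hP hQ,
    extF_add hb ξ ha (g * h) (ker_gact hb g hP) (ker_gact hb g hQ), smul_mul',
    div_mul_div_comm, mul_mul_mul_comm]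

theorem defect_ker (g h : GK ℚ) {P : Pt (b 0) (Kb ℚ)} (hP : downF b (Kb ℚ) d P = 0) :
    defect ξ a₀ g h P = 1 := by
  rw [defect, extF_of_ker hb ξ ha _ (ker_gact hb g hP), extF_of_ker hb ξ ha _ hP,
    extF_of_ker hb ξ ha _ (ker_gact hb g hP), ξ.coc g h P hP, div_self']

/-- the defect is the same at all points outside the smaller kernel -/
theorem defect_eq (g h : GK ℚ) {P Q : Pt (b 0) (Kb ℚ)} (hP : downF b (Kb ℚ) (d + 1) P = 0)
    (hP' : downF b (Kb ℚ) d P ≠ 0) (hQ : downF b (Kb ℚ) (d + 1) Q = 0)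
    (hQ' : downF b (Kb ℚ) d Q ≠ 0) : defect ξ a₀ g h P = defect ξ a₀ g h Q := by
  have h1 : downF b (Kb ℚ) d (P - Q) = 0 := by
    rw [down_sub hb, ((ker_succ hb d P).1 hP).resolve_left hP',
      ((ker_succ hb d Q).1 hQ).resolve_left hQ', sub_self]
  have h2 := defect_add hb ξ ha g h (ker_mono hb h1) hQ
  rw [sub_add_cancel, defect_ker hb ξ ha g h h1, one_mul] at h2
  exact h2

theorem defect_sq (g h : GK ℚ) {P : Pt (b 0) (Kb ℚ)} (hP : downF b (Kb ℚ) (d + 1) P = 0)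
    (hP' : downF b (Kb ℚ) d P ≠ 0) : defect ξ a₀ g h P ^ 2 = 1 := by
  rw [pow_two, ← defect_add hb ξ ha g h hP hP]
  apply defect_ker hb ξ ha
  rw [down_add hb, ((ker_succ hb d P).1 hP).resolve_left hP', T_add_T (hb.ne' d)]

end

/-- the lifting theorem -/
theorem lift_of_al0 (hb : Tower b) (ξ : Xi b d) (h : al0 hb ξ (T (b d)) = 1) :
    ∃ ξ₁ : Xi b (d + 1), ∀ g P, downF b (Kb ℚ) d P = 0 → ξ₁.f g P = ξ.f g P := by
  classical
  obtain ⟨a₀, ha'⟩ := exists_div0 hb (T (b d) : Pt (b d) ℚ)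
  have ha : downF b (Kb ℚ) d a₀ = T (b d) := by rw [ha', mapF_T (hb.ne' d)]
  rw [al0_eq hb ξ ha', cls_eq_one] at h
  -- the defect at `h a₀`
  let δ : GK ℚ × GK ℚ → (Kb ℚ)ˣ := fun p => defect ξ a₀ p.1 p.2 (gact ℚ (b 0) p.2 a₀)
  have hk : ∀ g : GK ℚ, downF b (Kb ℚ) (d + 1) (gact ℚ (b 0) g a₀) = 0 := fun g =>
    ker_gact hb g (a_ker_succ hb ha)
  have hk' : ∀ g : GK ℚ, downF b (Kb ℚ) d (gact ℚ (b 0) g a₀) ≠ 0 := by
    intro g
    rw [down_gact hb, ha, gact_T (hb.ne' d)]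
    exact T_ne_zero (hb.ne' d)
  have hδ2 : ∀ p, δ p ^ 2 = 1 := fun p => defect_sq hb ξ ha _ _ (hk _) (hk' _)
  let u : GK ℚ → (Kb ℚ)ˣ := fun g => extF ξ a₀ g (gact ℚ (b 0) g a₀)
  have hu : Smooth1 ℚ u := by
    obtain ⟨M, hM, h1⟩ := extF_smooth ξ (a₀ := a₀)
    obtain ⟨M', hM', h2⟩ := gact_smooth (b := b 0) a₀
    refine ⟨M ⊔ M', inferInstance, fun g g' hg => ?_⟩
    have e1 := h1 g g' fun x hx => hg x (le_sup_left (a := M) hx)
    have e2 := h2 g g' fun x hx => hg x (le_sup_right (a := M) hx)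
    simp only [u, e1, e2]
  have hδ : δ ∈ B2 ℚ := by
    have h3 : δ = coch0 ξ a₀ * fun p => p.1 • u p.2 * u p.1 / u (p.1 * p.2) := by
      funext p
      obtain ⟨g, k⟩ := p
      have h5 := diff_ker hb ha' k
      have h6 : extF ξ a₀ g (gact ℚ (b 0) g (gact ℚ (b 0) k a₀)) =
          extF ξ a₀ g (gact ℚ (b 0) g a₀) * coch0 ξ a₀ (g, k) := by
        rw [coch0, ← extF_of_ker hb ξ ha g (ker_gact hb g h5),
          ← extF_add hb ξ ha g (hk g) (ker_mono hb (ker_gact hb g h5)), gact_sub]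
        congr 1
        abel
      change defect ξ a₀ g k (gact ℚ (b 0) k a₀) = coch0 ξ a₀ (g, k) *
        (g • u k * u g / u (g * k))
      rw [defect, h6]
      simp only [u]
      rw [gact_mul]
      generalize coch0 ξ a₀ (g, k) = A
      generalize extF ξ a₀ g (gact ℚ (b 0) g a₀) = B
      generalize g • extF ξ a₀ k (gact ℚ (b 0) k a₀) = C
      rw [← mul_div_assoc]
      congr 1
      ac_rfl
    rw [h3]
    exact (B2 ℚ).mul_mem h ⟨u, hu, fun _ _ => rfl⟩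
  obtain ⟨w, hw, hw2, hwδ⟩ := sign_coboundary δ hδ2 hδ
  have hδ' : ∀ g k Q, downF b (Kb ℚ) (d + 1) Q = 0 → downF b (Kb ℚ) d Q ≠ 0 →
      defect ξ a₀ g k Q = g • w k * w g / w (g * k) := by
    intro g k Q hQ hQ'
    rw [← hwδ]
    exact defect_eq hb ξ ha g k hQ hQ' (hk k) (hk' k)
  refine ⟨⟨fun g P => extF ξ a₀ g P * (if downF b (Kb ℚ) d P = 0 then 1 else w g), ?_, ?_, ?_⟩,
    ?_⟩
  · obtain ⟨M, hM, h1⟩ := extF_smooth ξ (a₀ := a₀)
    obtain ⟨M', hM', h2⟩ := hw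
    refine ⟨M ⊔ M', inferInstance, fun g g' hg => ?_⟩
    have e1 := h1 g g' fun x hx => hg x (le_sup_left (a := M) hx)
    have e2 := h2 g g' fun x hx => hg x (le_sup_right (a := M) hx)
    simp only [e1, e2]
  · intro g P Q hP hQ
    rw [extF_add hb ξ ha g hP hQ, mul_mul_mul_comm]
    congr 1
    by_cases h : downF b (Kb ℚ) d P = 0 <;> by_cases h' : downF b (Kb ℚ) d Q = 0
    · rw [down_add hb, h, h', add_zero, if_pos rfl, mul_one]
    · rw [down_add hb, h, zero_add, if_neg h', if_pos rfl, one_mul]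
    · rw [down_add hb, h', add_zero, if_neg h, if_pos rfl, mul_one]
    · rw [down_add hb, ((ker_succ hb d P).1 hP).resolve_left h,
        ((ker_succ hb d Q).1 hQ).resolve_left h', T_add_T (hb.ne' d), if_pos rfl,
        if_neg (T_ne_zero (hb.ne' d)), ← pow_two, hw2]
  · intro g k Q hQ
    by_cases h : downF b (Kb ℚ) d Q = 0
    · have h' := ker_gact hb g h
      simp only [if_pos h', if_pos h, mul_one]
      rw [extF_of_ker hb ξ ha _ h', extF_of_ker hb ξ ha _ h', extF_of_ker hb ξ ha _ h]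
      exact ξ.coc g k Q h
    · have h' : downF b (Kb ℚ) d (gact ℚ (b 0) g Q) ≠ 0 := by
        rw [down_gact hb]
        intro hc
        apply h
        exact gact_inj g (hc.trans (gact_zero g).symm)
      have h3 := hδ' g k Q hQ h
      rw [defect] at h3
      simp only [if_neg h', if_neg h]
      rw [smul_mul']
      have h4 : w (g * k) * w (g * k) = 1 := by rw [← pow_two, hw2]
      have h5 : w g * w g = 1 := by rw [← pow_two, hw2]
      have h6 : g • w k * g • w k = 1 := by rw [← smul_mul', ← pow_two, hw2, smul_one]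
      have h7 : extF ξ a₀ g (gact ℚ (b 0) g Q) * g • extF ξ a₀ k Q =
          g • w k * w g / w (g * k) * extF ξ a₀ (g * k) (gact ℚ (b 0) g Q) := by
        rw [← h3, div_mul_cancel]
      have h8 : (w (g * k))⁻¹ = w (g * k) := inv_eq_of_mul_eq_one_left h4
      calc extF ξ a₀ (g * k) (gact ℚ (b 0) g Q) * w (g * k)
          = (g • w k * g • w k) * (w g * w g) *
            (extF ξ a₀ (g * k) (gact ℚ (b 0) g Q) * w (g * k)) := by
            rw [h5, h6, one_mul, one_mul]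
        _ = (g • w k * w g / w (g * k) * extF ξ a₀ (g * k) (gact ℚ (b 0) g Q)) *
            (w g * g • w k) := by
            rw [div_eq_mul_inv, h8]
            ac_rfl
        _ = (extF ξ a₀ g (gact ℚ (b 0) g Q) * g • extF ξ a₀ k Q) * (w g * g • w k) := by
            rw [h7]
        _ = _ := by ac_rfl
  · intro g P hP
    simp only [if_pos hP, mul_one]
    exact extF_of_ker hb ξ ha g hP

end BB37
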