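import Pool.Agent.Lib.MP_bb37eb_nt.DE.Quad2

/-! Local analysis of `delta` (the first coordinate modulo squares). -/

namespace BB37

theorem bval {b : ℕ → ℚ} (hb : Tower b) {n : ℕ} (hn : b n = 1) {j : ℕ} (hj : j ≤ n) :
    b j = (-1 / 4) ^ (n - j) := by
  have key : ∀ k j : ℕ, n = j + k → b j = (-1 / 4) ^ k := by
    intro k
    induction k with
    | zero =>
      intro j hj
      rw [add_zero] at hj
      rw [← hj, hn, pow_zero]
    | succ k ih =>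
      intro j hj
      have h1 := ih (j + 1) (by omega)
      rw [hb.step] at h1
      rw [pow_succ, ← h1]
      ring
  exact key (n - j) j (by omega)

/-- the splitting of the first coordinate when the coefficient is a unit -/
theorem LocalX_split {p : ℕ} [Fact p.Prime] {x y B : ℚ_[p]} (hB : ‖B‖ = 1)
    (h : y ^ 2 = x ^ 3 + B * x) : ∃ s u : ℚ_[p], x = s ^ 2 * u ∧ ‖u‖ = 1 := by
  have hmax : ‖x‖ ≠ 1 → ‖x ^ 2 + B‖ = max (‖x‖ ^ 2) 1 := by
    intro hx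
    have h1 : ‖x ^ 2‖ ≠ ‖B‖ := by
      rw [norm_pow, hB]
      intro h2
      exact hx ((pow_eq_one_iff_of_nonneg (norm_nonneg x) two_ne_zero).1 h2)
    rw [IsUltrametricDist.norm_add_eq_max_of_norm_ne_norm h1, norm_pow, hB]
  rcases lt_trichotomy ‖x‖ 1 with hx | hx | hx
  · have h1 : ‖x ^ 2 + B‖ = 1 := by
      rw [hmax hx.ne, max_eq_right (pow_le_one₀ (norm_nonneg x) hx.le)]
    have h2 : x ^ 2 + B ≠ 0 := by
      intro h0
      rw [h0, norm_zero] at h1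
      exact zero_ne_one h1
    refine ⟨y, (x ^ 2 + B)⁻¹, ?_, by rw [norm_inv, h1, inv_one]⟩
    rw [h]
    field_simp
  · exact ⟨1, x, by ring, hx⟩
  · have hx0 : x ≠ 0 := by
      rintro rfl
      rw [norm_zero] at hx
      linarith
    have h1 : ‖x ^ 2 + B‖ = ‖x‖ ^ 2 := by
      rw [hmax hx.ne', max_eq_left (one_le_pow₀ hx.le)]
    have h3 : 0 < ‖x‖ ^ 2 := by positivity
    have h2 : x ^ 2 + B ≠ 0 := by
      intro h0
      rw [h0, norm_zero] at h1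
      exact h3.ne h1
    refine ⟨y / x, x ^ 2 / (x ^ 2 + B), ?_, ?_⟩
    · rw [div_pow, h]
      field_simp
    · rw [norm_div, norm_pow, h1, div_self h3.ne']

theorem LocalX_delta_other {b : ℚ} {K : Type} [Field K] [Algebra ℚ K] {e : Pt b K} (h0 : e ≠ 0)
    (hT : e ≠ T b) : delta b e = xc b e := by
  rw [delta, if_neg h0, if_neg hT]

theorem LocalX_delta_T {b : ℚ} {K : Type} [Field K] [Algebra ℚ K] (hb : b ≠ 0) :
    delta b (T b : Pt b K) = algebraMap ℚ K b := by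
  rw [delta, if_neg (T_ne_zero hb), if_pos rfl]

theorem LocalX_delta_zero {b : ℚ} {K : Type} [Field K] [Algebra ℚ K] :
    delta b (0 : Pt b K) = 1 := by
  rw [delta, if_pos rfl]

/-- At an odd prime, if the coefficient is a unit then `delta` is a square times a unit.
For `e` other than `0`, `T`: `y^2 = x (x^2 + b)`. If `‖x‖ > 1` then `s = y / x`,
`u = x^2/(x^2+b)`; if `‖x‖ < 1` then `s = y`, `u = 1/(x^2+b)`; if `‖x‖ = 1` then `s = 1`,
`u = x`. -/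
theorem delta_odd {p : ℕ} [Fact p.Prime] (b : ℚ) (hb : ‖(algebraMap ℚ ℚ_[p] b)‖ = 1)
    (e : Pt b ℚ_[p]) : ∃ s u : ℚ_[p], delta b e = s ^ 2 * u ∧ ‖u‖ = 1 := by
  have hb0 : b ≠ 0 := by
    rintro rfl
    rw [map_zero, norm_zero] at hb
    exact zero_ne_one hb
  by_cases h0 : e = 0
  · rw [h0, LocalX_delta_zero]
    exact ⟨1, 1, by ring, norm_one⟩
  by_cases hT : e = T b
  · rw [hT, LocalX_delta_T hb0]
    exact ⟨1, algebraMap ℚ ℚ_[p] b, by ring, hb⟩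
  rw [LocalX_delta_other h0 hT]
  exact LocalX_split hb (onCurve_xy b h0)

/-- At 2 and for `b = 2^(-4k)` the same holds. Scale by `x = 4^(-k) X`, `y = 8^(-k) Y`:
`Y^2 = X^3 + X`; `‖X‖ = 1` is impossible since then `X^2 + 1` has valuation 1 and `Y^2` would have
odd valuation; for `‖X‖ ≠ 1` argue as in `delta_odd`. -/
theorem delta_two_even (k : ℕ) (e : Pt ((-1 / 4) ^ (2 * k)) ℚ_[2]) :
    ∃ s u : ℚ_[2], delta ((-1 / 4) ^ (2 * k)) e = s ^ 2 * u ∧ ‖u‖ = 1 := by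
  have hb0 : ((-1 / 4) ^ (2 * k) : ℚ) ≠ 0 := by positivity
  have hB : algebraMap ℚ ℚ_[2] ((-1 / 4) ^ (2 * k)) = ((4 : ℚ_[2])⁻¹ ^ k) ^ 2 := by
    rw [map_pow, map_div₀, map_neg, map_one, map_ofNat, ← pow_mul, mul_comm k 2, pow_mul, pow_mul]
    congr 1
    norm_num
  have h4 : (4 : ℚ_[2]) ≠ 0 := by norm_num
  have h2 : (2 : ℚ_[2]) ≠ 0 := by norm_num
  by_cases h0 : e = 0
  · rw [h0, LocalX_delta_zero]
    exact ⟨1, 1, by ring, norm_one⟩
  by_cases hT : e = T ((-1 / 4) ^ (2 * k))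
  · rw [hT, LocalX_delta_T hb0, hB]
    exact ⟨_, 1, (mul_one _).symm, norm_one⟩
  rw [LocalX_delta_other h0 hT]
  have hc := onCurve_xy _ h0
  rw [OnCurve, hB] at hc
  generalize xc ((-1 / 4) ^ (2 * k)) e = x at hc ⊢
  generalize yc ((-1 / 4) ^ (2 * k)) e = y at hc
  have h5 : ((2 : ℚ_[2]) ^ k * 4 ^ k * y) ^ 2 = (4 ^ k * x) ^ 3 + 1 * (4 ^ k * x) := by
    have e1 : ((2 : ℚ_[2]) ^ k) ^ 2 = 4 ^ k := by
      rw [← pow_mul, mul_comm, pow_mul]
      norm_num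
    have e2 : (4 : ℚ_[2]) ^ k * 4⁻¹ ^ k = 1 := by
      rw [← mul_pow, mul_inv_cancel₀ h4, one_pow]
    rw [mul_pow, mul_pow, hc, e1]
    have e3 : (4 : ℚ_[2]) ^ k * (4 ^ k) ^ 2 * (x ^ 3 + (4⁻¹ ^ k) ^ 2 * x) =
        (4 ^ k * x) ^ 3 + (4 ^ k * 4⁻¹ ^ k) ^ 2 * (4 ^ k * x) := by ring
    rw [e3, e2, one_pow]
  obtain ⟨s, u, hs, hu⟩ := LocalX_split (p := 2) norm_one h5
  refine ⟨2⁻¹ ^ k * s, u, ?_, hu⟩
  have e1 : ((2 : ℚ_[2])⁻¹ ^ k) ^ 2 * 4 ^ k = 1 := by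
    rw [← pow_mul, mul_comm k 2, pow_mul, ← mul_pow]
    have : ((2 : ℚ_[2])⁻¹) ^ 2 * 4 = 1 := by norm_num
    rw [this, one_pow]
  calc x = (2⁻¹ ^ k) ^ 2 * 4 ^ k * x := by rw [e1, one_mul]
    _ = (2⁻¹ ^ k) ^ 2 * (4 ^ k * x) := by ring
    _ = (2⁻¹ ^ k * s) ^ 2 * u := by rw [hs]; ring

/-- any nonzero 2-adic number is a square times a unit or twice a unit -/
theorem two_adic_class (x : ℚ_[2]) (hx : x ≠ 0) :
    ∃ s u : ℚ_[2], ‖u‖ = 1 ∧ (x = s ^ 2 * u ∨ x = 2 * s ^ 2 * u) := by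
  have h2 : (2 : ℚ_[2]) ≠ 0 := by norm_num
  have hn2 : ‖(2 : ℚ_[2])‖ = 2⁻¹ := by
    have h := Padic.norm_p (p := 2)
    rwa [Nat.cast_ofNat, Nat.cast_ofNat] at h
  have hv := Padic.norm_eq_zpow_neg_valuation hx
  rw [Nat.cast_ofNat] at hv
  have h20 : (2 : ℝ) ≠ 0 := two_ne_zero
  rcases Int.even_or_odd' x.valuation with ⟨m, hm | hm⟩
  · have hs : ((2 : ℚ_[2]) ^ m) ^ 2 ≠ 0 := pow_ne_zero 2 (zpow_ne_zero m h2)
    refine ⟨2 ^ m, x / (2 ^ m) ^ 2, ?_, Or.inl (by field_simp)⟩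
    rw [norm_div, norm_pow, norm_zpow, hn2, hv, hm, ← zpow_natCast, ← zpow_mul, inv_zpow',
      ← zpow_sub₀ h20]
    have : -(2 * m) - -(m * ((2 : ℕ) : ℤ)) = 0 := by push_cast; ring
    rw [this, zpow_zero]
  · have hs : ((2 : ℚ_[2]) ^ m) ^ 2 ≠ 0 := pow_ne_zero 2 (zpow_ne_zero m h2)
    refine ⟨2 ^ m, x / (2 * (2 ^ m) ^ 2), ?_, Or.inr (by field_simp)⟩
    have e1 : (2 : ℝ)⁻¹ = 2 ^ (-1 : ℤ) := by rw [zpow_neg_one]
    rw [norm_div, norm_mul, norm_pow, norm_zpow, hn2, hv, hm, ← zpow_natCast, ← zpow_mul, inv_zpow',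
      e1, ← zpow_add₀ h20, ← zpow_sub₀ h20]
    have : -(2 * m + 1) - (-1 + -(m * ((2 : ℕ) : ℤ))) = 0 := by push_cast; ring
    rw [this, zpow_zero]

/-- over the reals, for positive coefficient, `delta` is positive: `y^2 = x (x^2+b)` -/
theorem delta_real (b : ℚ) (hb : 0 < b) (e : Pt b ℝ) : 0 < delta b e := by
  have hb' : (0 : ℝ) < algebraMap ℚ ℝ b := by
    rw [eq_ratCast]
    exact_mod_cast hb
  by_cases h0 : e = 0
  · rw [h0, LocalX_delta_zero]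
    exact one_pos
  by_cases hT : e = T b
  · rw [hT, LocalX_delta_T hb.ne']
    exact hb'
  rw [LocalX_delta_other h0 hT]
  have hx : xc b e ≠ 0 := by
    intro h
    rcases (xc_eq_zero hb.ne').1 h with h1 | h1
    · exact h0 h1
    · exact hT h1
  have hc := onCurve_xy b h0
  rw [OnCurve] at hc
  have h3 : 0 < xc b e ^ 2 + algebraMap ℚ ℝ b := by positivity
  have h4 : 0 ≤ xc b e * (xc b e ^ 2 + algebraMap ℚ ℝ b) := by
    have : xc b e * (xc b e ^ 2 + algebraMap ℚ ℝ b) = yc b e ^ 2 := by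
      rw [hc]
      ring
    rw [this]
    positivity
  exact lt_of_le_of_ne (nonneg_of_mul_nonneg_left h4 h3) hx.symm

/-- the rational points `(c, 0)`, `c^2 = -b`, and their `delta` -/
theorem delta_c {b c : ℚ} (hb : b ≠ 0) (hc : c ^ 2 = -b) {K : Type} [Field K] [Algebra ℚ K] :
    delta b (mk b (algebraMap ℚ K c) 0 : Pt b K) = algebraMap ℚ K c ∧
      (mk b (algebraMap ℚ K c) 0 : Pt b K) + mk b (algebraMap ℚ K c) 0 = 0 := by
  have hc0 : c ≠ 0 := by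
    rintro rfl
    apply hb
    linear_combination hc
  have hcur : OnCurve b K (algebraMap ℚ K c) 0 := by
    have h1 : algebraMap ℚ K c ^ 2 = -algebraMap ℚ K b := by
      rw [← map_pow, hc, map_neg]
    rw [OnCurve]
    linear_combination -(algebraMap ℚ K c) * h1
  have hne := mk_ne_zero b hb hcur
  have hT : (mk b (algebraMap ℚ K c) 0 : Pt b K) ≠ T b := by
    intro h
    have h1 := congrArg (xc b) h
    rw [xc_mk b hb hcur, xc_T hb] at h1
    exact bK_ne_zero hc0 h1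
  constructor
  · rw [LocalX_delta_other hne hT, xc_mk b hb hcur]
  · have h1 := neg_mk hb hcur
    rw [neg_zero] at h1
    nth_rewrite 1 [← h1]
    exact neg_add_cancel _

end BB37
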