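import Pool.Agent.Lib.MP_bb37eb_nt.DE.Kummer

/-! The descent: an orthogonal family has its 2-adic component in `{0, T} + down`. -/

namespace BB37

variable {b : ℕ → ℚ}

private theorem no_root_two (x : ℚ_[2]) (hx : x ^ 2 = -1) : False := by
  have h1 : ‖x‖ ^ 2 = 1 := by
    rw [← norm_pow, hx, norm_neg, norm_one]
  have h2 : ‖x‖ ≤ 1 := by
    have h0 := norm_nonneg x
    nlinarith
  obtain ⟨y, hy⟩ : ∃ y : ℤ_[2], (y : ℚ_[2]) = x := ⟨⟨x, h2⟩, rfl⟩
  have h3 : y ^ 2 = -1 := by
    apply Subtype.ext
    push_cast
    rw [hy]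
    exact hx
  have h4 := congrArg (PadicInt.toZModPow 2) h3
  rw [map_pow, map_neg, map_one] at h4
  generalize PadicInt.toZModPow 2 y = z at h4
  revert z
  decide

/-- over `ℚ_2` the 2-torsion of the bottom curve `y^2 = x^3 + x` is `{0, T}` since `-1` is not a
square: a point `P` with `2 P = 0`, `P ≠ 0` has `y = 0`, so `x = 0` or `x^2 = -1` -/
theorem two_torsion_bottom (c : ℚ) (hc : c = 1) (P : Pt c (Kv (some two))) (hP : P + P = 0) :
    P = 0 ∨ P = T c := by
  have hc0 : c ≠ 0 := by rw [hc]; exact one_ne_zero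
  by_cases h0 : P = 0
  · exact Or.inl h0
  have hneg : P = -P := eq_neg_of_add_eq_zero_left hP
  have hy : yc c P = -yc c P := by
    conv_lhs => rw [hneg]
    exact yc_neg hc0 P
  have hy0 : yc c P = 0 := by
    have h2 : (2 : Kv (some two)) * yc c P = 0 := by linear_combination hy
    exact (mul_eq_zero.1 h2).resolve_left two_ne_zero
  have hcur := onCurve_xy c h0
  have hc1 : algebraMap ℚ (Kv (some two)) c = 1 := by rw [hc, map_one]
  rw [OnCurve, hy0, hc1] at hcur
  have h5 : xc c P * (xc c P ^ 2 + 1) = 0 := by linear_combination -hcur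
  rcases mul_eq_zero.1 h5 with h6 | h6
  · exact (xc_eq_zero hc0).1 h6
  · exfalso
    have h7 : xc c P ^ 2 = -1 := eq_neg_of_add_eq_zero_left h6
    exact no_root_two _ h7

theorem DE_main (I : InvData)
    (hinj : ∀ x : H2 ℚ, (∀ p : Nat.Primes, res ℚ (Kv (some p)) x = 1) → x = 1)
    (n : ℕ) (hb : Tower b) (hn : b n = 1) (e : ∀ v : Place, Pt (b n) (Kv v))
    (he : Orth hb e) :
    ∃ f : Pt (b 0) (Kv (some two)), e (some two) = downF b _ n f ∨
      e (some two) = T (b n) + downF b _ n f := by
  classical
  -- reachability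
  let Reach : ∀ d : ℕ, Pt (b d) (Kv (some two)) → Prop := fun d x =>
    ∀ (y : Pt (b 0) (Kv (some two))) (t : Pt (b d) (Kv (some two))), t + t = 0 →
      downF b _ d y = x + t → (e (some two) = downF b _ n y ∨
        e (some two) = T (b n) + downF b _ n y)
  have key : ∀ k : ℕ, k ≤ n → ∃ f : ∀ v : Place, Pt (b (n - k)) (Kv v), Orth hb f ∧
      Reach (n - k) (f (some two)) := by
    intro k
    induction k with
    | zero =>
      intro _
      refine ⟨e, he, ?_⟩
      intro y t ht hy
      rcases two_torsion_bottom (b n) hn t ht with h | h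
      · left
        change downF b _ n y = _ at hy
        rw [hy, h, add_zero]
      · right
        change downF b _ n y = _ at hy
        rw [hy, h, add_left_comm, T_add_T (hb.ne' n), add_zero]
    | succ k ih =>
      intro hk
      obtain ⟨f, hf, hr⟩ := ih (by omega)
      obtain ⟨d, hd⟩ : ∃ d, n - k = d + 1 := ⟨n - k - 1, by omega⟩
      have hd' : n - (k + 1) = d := by omega
      rw [hd'] 
      revert f hf hr
      rw [hd]
      intro f hf hr
      obtain ⟨R, hR, g, hg⟩ := kummer_step I hb hn (d := d) (by omega) f hf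
      have hOg : Orth hb (d := d + 1) fun v => isoF (b d) (b (d + 1)) (g v) := by
        intro ξ
        have h := (hf ξ).div (glob_rat hb ξ R)
        have e1 : (fun v => al hb ξ (isoF (b d) (b (d + 1)) (g v))) = fun v =>
            al hb ξ (f v) / al hb ξ (mapF (b (d + 1)) (Algebra.ofId ℚ (Kv v)) R) := by
          funext v
          rw [← hg v]
          exact al_sub hb ξ _ _
        rw [e1]
        exact h
      obtain ⟨S, hS⟩ := descent_step I hinj hb hn g hOg
      refine ⟨_, hS, ?_⟩
      intro y t ht hy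
      have hT2 : (if some two ∈ S then T (b d) else 0 : Pt (b d) (Kv (some two))) +
          (if some two ∈ S then T (b d) else 0) = 0 := by
        split_ifs
        · exact T_add_T (hb.ne' d)
        · exact add_zero 0
      set τ : Pt (b d) (Kv (some two)) := if some two ∈ S then T (b d) else 0 with hτ
      have h1 : downF b _ (d + 1) y = isoF (b d) (b (d + 1)) (g (some two)) +
          isoF (b d) (b (d + 1)) (τ + t) := by
        change isoF _ _ (downF b _ d y) = _
        rw [hy, add_assoc]
        exact iso_add (hb.ne' d) (hb.step d) _ _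
      rw [← hg] at h1
      apply hr y (isoF (b d) (b (d + 1)) (τ + t) -
        mapF (b (d + 1)) (Algebra.ofId ℚ (Kv (some two))) R)
      · have h2 : isoF (b d) (b (d + 1)) (τ + t) + isoF (b d) (b (d + 1)) (τ + t) = 0 := by
          rw [← iso_add (hb.ne' d) (hb.step d)]
          have : τ + t + (τ + t) = (τ + τ) + (t + t) := by abel
          rw [this, hT2, ht, add_zero]
          exact (iso_ker (hb.ne' d) (hb.step d) 0).2 (Or.inl rfl)
        have h3 : mapF (b (d + 1)) (Algebra.ofId ℚ (Kv (some two))) R +
            mapF (b (d + 1)) (Algebra.ofId ℚ (Kv (some two))) R = 0 := by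
          rw [← mapF_add, hR, mapF_zero]
        rw [sub_add_sub_comm, h2, h3, sub_zero]
      · rw [h1]
        abel
  obtain ⟨f, _, hr⟩ := key n le_rfl
  revert f hr
  rw [Nat.sub_self]
  intro f _ hr
  exact ⟨f (some two), hr (f (some two)) 0 (add_zero 0) (add_zero _).symm⟩

end BB37
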