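import Pool.Agent.Lib.MP_bb37eb_nt.DE.Quad1

/-! The quadratic cocycle `xi_a` and the class `delta` of a point modulo squares. -/

namespace BB37

variable {b : ℕ → ℚ} {d : ℕ}

open Classical in
/-- the cocycle `xi_a` on the kernel of `down (d+1)`: `-1` on points outside the kernel of
`down d` when `g` moves the square root of `a`, and `1` otherwise -/
noncomputable def Xi.quad (hb : Tower b) (a : ℚ) : Xi b (d + 1) where
  f := fun g P => if downF b (Kb ℚ) d P ≠ 0 ∧ Moves a g then -1 else 1
  smooth := by
    obtain ⟨M, hM, h1⟩ := moves_smooth (K := ℚ) a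
    refine ⟨M, hM, fun g h hg => ?_⟩
    funext P
    simp only [h1 g h hg]
  add := by
    intro g P Q hP hQ
    by_cases hm : Moves a g
    · simp only [hm, and_true, ne_eq, ite_not]
      have hadd := down_add hb (K := Kb ℚ) d P Q
      by_cases h : downF b (Kb ℚ) d P = 0 <;> by_cases h' : downF b (Kb ℚ) d Q = 0
      · rw [h, h', add_zero] at hadd
        rw [if_pos hadd, if_pos h, if_pos h', mul_one]
      · rw [h, zero_add] at hadd
        rw [if_neg (by rwa [hadd]), if_pos h, if_neg h', one_mul]
      · rw [h', add_zero] at hadd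
        rw [if_neg (by rwa [hadd]), if_neg h, if_pos h', mul_one]
      · rw [((ker_succ hb d P).1 hP).resolve_left h, ((ker_succ hb d Q).1 hQ).resolve_left h',
          T_add_T (hb.ne' d)] at hadd
        rw [if_pos hadd, if_neg h, if_neg h', neg_mul_neg, mul_one]
    · simp only [hm, and_false, if_false, mul_one]
  coc := by
    intro g h Q hQ
    have hk : downF b (Kb ℚ) d (gact ℚ (b 0) g Q) = 0 ↔ downF b (Kb ℚ) d Q = 0 := by
      rw [down_gact hb, gact, mapF_eq_zero]
    have hs : g • (-1 : (Kb ℚ)ˣ) = -1 := by
      apply Units.ext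
      rw [AlgEquiv.smul_units_def, Units.coe_map]
      simp
    by_cases h0 : downF b (Kb ℚ) d Q = 0
    · simp only [ne_eq, hk, h0, not_true_eq_false, false_and, if_false, smul_one, mul_one]
    · simp only [ne_eq, hk, h0, not_false_eq_true, true_and]
      have hm := moves_mul (K := ℚ) a g h
      by_cases h1 : Moves a g <;> by_cases h2 : Moves a h
      · have h3 : ¬ Moves a (g * h) := by rw [hm]; tauto
        rw [if_neg h3, if_pos h1, if_pos h2, hs, neg_mul_neg, mul_one]
      · have h3 : Moves a (g * h) := by rw [hm]; tauto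
        rw [if_pos h3, if_pos h1, if_neg h2, smul_one, mul_one]
      · have h3 : Moves a (g * h) := by rw [hm]; tauto
        rw [if_pos h3, if_neg h1, if_pos h2, hs, one_mul]
      · have h3 : ¬ Moves a (g * h) := by rw [hm]; tauto
        rw [if_neg h3, if_neg h1, if_neg h2, smul_one, mul_one]

/-- the class modulo squares attached to a point of the lower curve -/
noncomputable def delta (b : ℚ) {K : Type} [Field K] [Algebra ℚ K] (e : Pt b K) : K :=
  open Classical in if e = 0 then 1 else if e = T b then algebraMap ℚ K b else xc b e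

theorem delta_ne_zero {b : ℚ} (hb : b ≠ 0) {K : Type} [Field K] [Algebra ℚ K] (e : Pt b K) :
    delta b e ≠ 0 := by
  rw [delta]
  split_ifs with h1 h2
  · exact one_ne_zero
  · exact (map_ne_zero_iff _ (algebraMap ℚ K).injective).2 hb
  · intro h
    rcases (xc_eq_zero hb).1 h with h3 | h3
    · exact h1 h3
    · exact h2 h3

/-- `h` moves the square root of `delta e` iff it moves the preimages of `e`.
Proof. `e = 0`: `f` is `0` or `T`, both rational, `delta = 1`. `e = T`: `f = (z, 0)`,
`z^2 = -b`, `delta = -4 b = (2 z)^2` (`iso_eq_T`). Otherwise `r = yc f / xc f` is a square root of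
`xc e = delta e` (`xc_iso`); if `h f = f` then `h r = r`; if `h f ≠ f` then `isoF (h f - f) = 0`,
so `h f = f + T` (`iso_ker`) and `h r = -r ≠ r` by `add_T_coords`. -/
theorem moves_delta {b b' : ℚ} (hb : b ≠ 0) (hb' : b' = -4 * b) {K : Type} [Field K]
    [Algebra ℚ K] (e : Pt b' K) (f : Pt b (Kb K)) (hf : isoF b b' f = mapF b' (incl K) e)
    (h : GK K) : Moves (delta b' e) h ↔ gact K b h f ≠ f := by
  have hb'0 : b' ≠ 0 := by rw [hb']; exact mul_ne_zero (by norm_num) hb
  have htwo : (2 : Kb K) ≠ 0 := by
    have h1 : algebraMap ℚ (Kb K) 2 ≠ 0 :=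
      (map_ne_zero_iff _ (algebraMap ℚ (Kb K)).injective).2 two_ne_zero
    rwa [map_ofNat] at h1
  have hnz : algebraMap ℚ (Kb K) b ≠ 0 :=
    (map_ne_zero_iff _ (algebraMap ℚ (Kb K)).injective).2 hb
  by_cases he0 : e = 0
  · have hd : delta b' e = 1 := by rw [delta, if_pos he0]
    rw [hd, moves_iff 1 h (r := 1) (by rw [one_pow, map_one])]
    have h1 : isoF b b' f = 0 := by rw [hf, he0, mapF_zero]
    have h2 : gact K b h f = f := by
      rcases (iso_ker hb hb' f).1 h1 with h3 | h3
      · rw [h3, gact_zero]
      · rw [h3, gact_T hb]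
    simp [h2]
  by_cases heT : e = T b'
  · have hd : delta b' e = algebraMap ℚ K b' := by rw [delta, if_neg he0, if_pos heT]
    have h1 : isoF b b' f = T b' := by rw [hf, heT, mapF_T hb'0]
    obtain ⟨hf0, hz⟩ := (iso_eq_T hb hb' f).1 h1
    have hr : (2 * xc b f) ^ 2 = algebraMap K (Kb K) (algebraMap ℚ K b') := by
      rw [← IsScalarTower.algebraMap_apply ℚ K (Kb K), hb', map_mul, map_neg, map_ofNat, mul_pow,
        hz]
      ring
    rw [hd, moves_iff _ h hr, map_mul, map_ofNat]
    have hy : yc b f = 0 := by
      have h2 := onCurve_xy b hf0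
      rw [OnCurve] at h2
      have h3 : yc b f ^ 2 = 0 := by rw [h2]; linear_combination xc b f * hz
      exact pow_eq_zero_iff two_ne_zero |>.1 h3
    have hgf0 : gact K b h f ≠ 0 := by rwa [Ne, gact, mapF_eq_zero]
    apply not_congr
    constructor
    · intro h4
      apply ext_xy hgf0 hf0
      · rw [xc_gact]
        exact mul_left_cancel₀ htwo h4
      · rw [yc_gact, hy, map_zero]
    · intro h4
      rw [← xc_gact, h4]
  · have hd : delta b' e = xc b' e := by rw [delta, if_neg he0, if_neg heT]
    have hxe : xc b' e ≠ 0 := by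
      intro h1
      rcases (xc_eq_zero hb'0).1 h1 with h3 | h3
      · exact he0 h3
      · exact heT h3
    have hxf : xc b f ≠ 0 := by
      intro h1
      apply he0
      rw [isoF, if_pos h1] at hf
      exact (mapF_eq_zero _).1 hf.symm
    have hr : (yc b f / xc b f) ^ 2 = algebraMap K (Kb K) (xc b' e) := by
      rw [← xc_iso hb hb' hxf, hf, xc_mapF]
      rfl
    have hr0 : yc b f / xc b f ≠ 0 := by
      intro h1
      rw [h1, zero_pow two_ne_zero] at hr
      exact hxe ((map_eq_zero_iff _ (algebraMap K (Kb K)).injective).1 hr.symm)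
    have hy0 : yc b f ≠ 0 := fun h1 => hr0 (by rw [h1, zero_div])
    rw [hd, moves_iff _ h hr]
    constructor
    · intro h1 h2
      apply h1
      rw [map_div₀, ← yc_gact, ← xc_gact, h2]
    · intro h1 h2
      have h3 : isoF b b' (gact K b h f) = isoF b b' f := by
        rw [gact, iso_natural hb hb', hf]
        exact gact_incl h e
      have h4 : isoF b b' (gact K b h f - f) = 0 := by
        have h5 := iso_add hb hb' (gact K b h f - f) f
        rw [sub_add_cancel, h3] at h5
        exact left_eq_add.1 (by rw [add_comm]; exact h5)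
      have h6 : gact K b h f = f + T b := by
        rcases (iso_ker hb hb' _).1 h4 with h5 | h5
        · exact absurd (sub_eq_zero.1 h5) h1
        · rw [← h5]; abel
      have h7 : h (yc b f / xc b f) = -(yc b f / xc b f) := by
        obtain ⟨e1, e2⟩ := add_T_coords hb hxf
        rw [map_div₀, ← yc_gact, ← xc_gact, h6, e1, e2]
        field_simp
      rw [h7] at h2
      apply hr0
      have h8 : (2 : Kb K) * (yc b f / xc b f) = 0 := by linear_combination -h2
      exact (mul_eq_zero.1 h8).resolve_left htwo

end BB37
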