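import Pool.Agent.Lib.MP_bb37eb_nt.DE.Formal

/-! The class of `xi` at a rational point, over the rationals, with the identity embedding. -/

namespace BB37

variable {b : ℕ → ℚ} {d : ℕ}

/-- the cochain of `xi` and a division point `a` of a rational point -/
noncomputable def coch0 (ξ : Xi b d) (a : Pt (b 0) (Kb ℚ)) : GK ℚ × GK ℚ → (Kb ℚ)ˣ := fun p =>
  ξ.f p.1 (gact ℚ (b 0) p.1 (gact ℚ (b 0) p.2 a - a))

/-- differences `g a - a` lie in the kernel -/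
theorem diff_ker (hb : Tower b) {e : Pt (b d) ℚ} {a : Pt (b 0) (Kb ℚ)}
    (ha : downF b (Kb ℚ) d a = mapF (b d) (incl ℚ) e) (g : GK ℚ) :
    downF b (Kb ℚ) d (gact ℚ (b 0) g a - a) = 0 := by
  rw [down_sub hb, down_gact hb, ha, gact_incl, sub_self]

theorem coch0_mem (hb : Tower b) (ξ : Xi b d) {e : Pt (b d) ℚ} {a : Pt (b 0) (Kb ℚ)}
    (ha : downF b (Kb ℚ) d a = mapF (b d) (incl ℚ) e) : coch0 ξ a ∈ Z2 ℚ := by
  constructor
  · obtain ⟨M₁, hM₁, h1⟩ := ξ.smooth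
    obtain ⟨M₂, hM₂, h2⟩ := gact_smooth (b := b 0) a
    obtain ⟨M, hle, hM, hN⟩ := exists_normal ℚ (M₁ ⊔ M₂)
    refine ⟨M, hM, fun g g' h h' hg hh => ?_⟩
    have e1 : ξ.f g = ξ.f g' := h1 g g' fun x hx => hg x (hle (le_sup_left (a := M₁) hx))
    have e2 : gact ℚ (b 0) g a = gact ℚ (b 0) g' a :=
      h2 g g' fun x hx => hg x (hle (le_sup_right (a := M₁) hx))
    have e3 : gact ℚ (b 0) (g * h) a = gact ℚ (b 0) (g' * h') a := by
      apply h2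
      intro x hx
      have hxM : x ∈ M := hle (le_sup_right (a := M₁) hx)
      rw [AlgEquiv.mul_apply, AlgEquiv.mul_apply, hh x hxM, hg _ (normal_stable M h' hxM)]
    simp only [coch0]
    rw [gact_sub, gact_sub, ← gact_mul, ← gact_mul, e1, e2, e3]
  · intro g h j
    have hj := diff_ker hb ha j
    have hh := diff_ker hb ha h
    have k1 : ξ.f (g * h) (gact ℚ (b 0) (g * h) (gact ℚ (b 0) j a - a)) =
        ξ.f g (gact ℚ (b 0) g (gact ℚ (b 0) h (gact ℚ (b 0) j a - a))) *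
        g • ξ.f h (gact ℚ (b 0) h (gact ℚ (b 0) j a - a)) := by
      rw [gact_mul, ξ.coc _ _ _ (ker_gact hb _ hj)]
    have k2 : ξ.f g (gact ℚ (b 0) g (gact ℚ (b 0) (h * j) a - a)) =
        ξ.f g (gact ℚ (b 0) g (gact ℚ (b 0) h a - a)) *
        ξ.f g (gact ℚ (b 0) g (gact ℚ (b 0) h (gact ℚ (b 0) j a - a))) := by
      rw [← ξ.add _ _ _ (ker_gact hb _ hh) (ker_gact hb _ (ker_gact hb _ hj))]
      congr 1
      rw [gact_mul, gact_sub, gact_sub, gact_sub, gact_sub]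
      abel
    simp only [coch0]
    rw [k1, k2]
    generalize ξ.f g (gact ℚ (b 0) g (gact ℚ (b 0) h a - a)) = A
    generalize ξ.f g (gact ℚ (b 0) g (gact ℚ (b 0) h (gact ℚ (b 0) j a - a))) = B
    generalize g • ξ.f h (gact ℚ (b 0) h (gact ℚ (b 0) j a - a)) = C
    rw [mul_comm B C, mul_assoc, mul_comm B A]

theorem exists_div0 (hb : Tower b) (e : Pt (b d) ℚ) :
    ∃ a : Pt (b 0) (Kb ℚ), downF b (Kb ℚ) d a = mapF (b d) (incl ℚ) e :=
  down_surj hb (K := Kb ℚ) d _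

/-- two divisions of the same rational point give cohomologous cochains -/
theorem coch0_unique (hb : Tower b) (ξ : Xi b d) {e : Pt (b d) ℚ} {a a' : Pt (b 0) (Kb ℚ)}
    (ha : downF b (Kb ℚ) d a = mapF (b d) (incl ℚ) e)
    (ha' : downF b (Kb ℚ) d a' = mapF (b d) (incl ℚ) e) :
    cls ⟨coch0 ξ a, coch0_mem hb ξ ha⟩ = cls ⟨coch0 ξ a', coch0_mem hb ξ ha'⟩ := by
  obtain ⟨n, hn⟩ : ∃ n : Pt (b 0) (Kb ℚ), n = a' - a := ⟨_, rfl⟩
  have hnk : downF b (Kb ℚ) d n = 0 := by rw [hn, down_sub hb, ha, ha', sub_self]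
  have hν : ∀ g : GK ℚ, gact ℚ (b 0) g a' - a' =
      (gact ℚ (b 0) g a - a) + (gact ℚ (b 0) g n - n) := by
    intro g
    rw [hn, gact_sub]
    abel
  rw [cls_eq_cls]
  refine ⟨fun g => ξ.f g (gact ℚ (b 0) g n), ?_, ?_⟩
  · obtain ⟨M₁, hM₁, h1⟩ := ξ.smooth
    obtain ⟨M₂, hM₂, h2⟩ := gact_smooth (b := b 0) n
    refine ⟨M₁ ⊔ M₂, inferInstance, fun g g' hg => ?_⟩
    have e1 := h1 g g' fun x hx => hg x (le_sup_left (a := M₁) hx)
    have e2 := h2 g g' fun x hx => hg x (le_sup_right (a := M₁) hx)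
    simp only [e1, e2]
  · intro g h
    have hN := ker_gact hb g hnk
    have hN2 := ker_gact hb g (ker_gact hb h hnk)
    have hN3 := ker_gact hb g (diff_ker hb ha h)
    have hN3' := ker_gact hb g (diff_ker hb ha' h)
    have k1 : coch0 ξ a' (g, h) * ξ.f g (gact ℚ (b 0) g n) =
        coch0 ξ a (g, h) * ξ.f g (gact ℚ (b 0) g (gact ℚ (b 0) h n)) := by
      simp only [coch0]
      rw [← ξ.add _ _ _ hN3' hN, ← ξ.add _ _ _ hN3 hN2]
      congr 1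
      rw [hν h, gact_add, gact_sub g (gact ℚ (b 0) h n) n]
      abel
    have k2 : ξ.f (g * h) (gact ℚ (b 0) (g * h) n) =
        ξ.f g (gact ℚ (b 0) g (gact ℚ (b 0) h n)) * g • ξ.f h (gact ℚ (b 0) h n) := by
      rw [gact_mul, ξ.coc _ _ _ (ker_gact hb _ hnk)]
    change coch0 ξ a (g, h) / coch0 ξ a' (g, h) =
      g • ξ.f h (gact ℚ (b 0) h n) * ξ.f g (gact ℚ (b 0) g n) /
      ξ.f (g * h) (gact ℚ (b 0) (g * h) n)
    rw [k2]
    generalize g • ξ.f h (gact ℚ (b 0) h n) = C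
    generalize ξ.f g (gact ℚ (b 0) g (gact ℚ (b 0) h n)) = B at k1 ⊢
    generalize ξ.f g (gact ℚ (b 0) g n) = A at k1 ⊢
    rw [div_eq_div_iff_mul_eq_mul, mul_comm B C, ← mul_assoc, mul_comm (coch0 ξ a (g, h)) C,
      mul_assoc, ← k1]
    rw [mul_comm (coch0 ξ a' (g, h)) A, mul_assoc]

/-- the class of `xi` at a rational point, in `H2 ℚ` -/
noncomputable def al0 (hb : Tower b) (ξ : Xi b d) (e : Pt (b d) ℚ) : H2 ℚ :=
  cls ⟨coch0 ξ (Classical.choose (exists_div0 hb e)),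
    coch0_mem hb ξ (Classical.choose_spec (exists_div0 hb e))⟩

theorem al0_eq (hb : Tower b) (ξ : Xi b d) {e : Pt (b d) ℚ} {a : Pt (b 0) (Kb ℚ)}
    (ha : downF b (Kb ℚ) d a = mapF (b d) (incl ℚ) e) :
    al0 hb ξ e = cls ⟨coch0 ξ a, coch0_mem hb ξ ha⟩ :=
  coch0_unique hb ξ (Classical.choose_spec (exists_div0 hb e)) ha

theorem al0_add (hb : Tower b) (ξ : Xi b d) (e e' : Pt (b d) ℚ) :
    al0 hb ξ (e + e') = al0 hb ξ e * al0 hb ξ e' := by
  obtain ⟨a, ha⟩ := exists_div0 hb e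
  obtain ⟨a', ha'⟩ := exists_div0 hb e'
  have h : downF b (Kb ℚ) d (a + a') = mapF (b d) (incl ℚ) (e + e') := by
    rw [down_add hb, ha, ha', mapF_add]
  rw [al0_eq hb ξ ha, al0_eq hb ξ ha', al0_eq hb ξ h, ← cls_mul]
  congr 1
  apply Subtype.ext
  funext p
  change coch0 ξ (a + a') p = coch0 ξ a p * coch0 ξ a' p
  simp only [coch0]
  rw [← ξ.add _ _ _ (ker_gact hb _ (diff_ker hb ha _)) (ker_gact hb _ (diff_ker hb ha' _)),
    ← gact_add, gact_add]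
  congr 2
  abel

theorem al0_zero (hb : Tower b) (ξ : Xi b d) : al0 hb ξ (0 : Pt (b d) ℚ) = 1 := by
  have h := al0_add hb ξ 0 0
  rw [add_zero] at h
  exact left_eq_mul.1 h

theorem al0_T_sq (hb : Tower b) (ξ : Xi b d) : al0 hb ξ (T (b d)) * al0 hb ξ (T (b d)) = 1 := by
  rw [← al0_add, T_add_T (hb.ne' d), al0_zero]

theorem al0_mul (hb : Tower b) (ξ ξ' : Xi b d) (e : Pt (b d) ℚ) :
    al0 hb (ξ.mul ξ') e = al0 hb ξ e * al0 hb ξ' e := by
  obtain ⟨a, ha⟩ := exists_div0 hb e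
  rw [al0_eq hb _ ha, al0_eq hb _ ha, al0_eq hb _ ha, ← cls_mul]
  rfl

theorem al0_inv (hb : Tower b) (ξ : Xi b d) (e : Pt (b d) ℚ) :
    al0 hb ξ.inv e = (al0 hb ξ e)⁻¹ := by
  obtain ⟨a, ha⟩ := exists_div0 hb e
  rw [al0_eq hb _ ha, al0_eq hb _ ha, ← cls_inv]
  rfl

/-- localisation of the class at a rational point -/
theorem al0_res (hb : Tower b) (ξ : Xi b d) (e : Pt (b d) ℚ) (K : Type) [Field K]
    [Algebra ℚ K] : res ℚ K (al0 hb ξ e) = al hb ξ (mapF (b d) (Algebra.ofId ℚ K) e) := by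
  obtain ⟨a, ha⟩ := exists_div0 hb e
  rw [al0_eq hb ξ ha, res_cls]
  symm
  apply al_eq hb
  refine ⟨mapF (b 0) (emb ℚ K) a, fun g => gact ℚ (b 0) (resG ℚ K g) a - a, ?_, ?_, ?_⟩
  · rw [down_mapF hb, ha, mapF_mapF, mapF_mapF]
    congr 1
    exact Subsingleton.elim _ _
  · intro g
    refine ⟨diff_ker hb ha _, ?_⟩
    rw [mapF_sub, mapF_emb_gact]
  · intro g h
    rfl

end BB37
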