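import Pool.Agent.Lib.MP_bb37eb_nt.DE.Down

/-! 2-adic growth of the first coordinate under the composite of two isogenies (doubling). -/

namespace BB37

/-- the square of a 2-adic unit plus one has valuation one -/
private theorem norm_sq_add_one_int (x : ℤ_[2]) (hx : ‖x‖ = 1) : ‖x ^ 2 + 1‖ = 1 / 2 := by
  have hu : IsUnit x := PadicInt.isUnit_iff.2 hx
  have h4 : ∀ u : ZMod (2 ^ 2), IsUnit u → u ^ 2 + 1 ≠ 0 := by decide
  have h2 : ∀ u : ZMod (2 ^ 1), IsUnit u → u ^ 2 + 1 = 0 := by decide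
  have e1 : x ^ 2 + 1 ∈ Ideal.span {((2 : ℕ) : ℤ_[2]) ^ 1} := by
    have h := h2 _ (hu.map (PadicInt.toZModPow (p := 2) 1))
    rw [← map_pow, ← map_one (PadicInt.toZModPow (p := 2) 1), ← map_add] at h
    have h' := RingHom.mem_ker.2 h
    rw [PadicInt.ker_toZModPow] at h'
    exact h'
  have e2 : x ^ 2 + 1 ∉ Ideal.span {((2 : ℕ) : ℤ_[2]) ^ 2} := by
    intro hmem
    have h := h4 _ (hu.map (PadicInt.toZModPow (p := 2) 2))
    rw [← map_pow, ← map_one (PadicInt.toZModPow (p := 2) 2), ← map_add] at h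
    apply h
    apply RingHom.mem_ker.1
    rw [PadicInt.ker_toZModPow]
    exact hmem
  have f1 := (PadicInt.norm_le_pow_iff_mem_span_pow (x ^ 2 + 1) 1).2 e1
  have f2 : ¬ ‖x ^ 2 + 1‖ ≤ ((2 : ℕ) : ℝ) ^ (-((2 : ℕ) : ℤ)) := by
    intro h
    exact e2 ((PadicInt.norm_le_pow_iff_mem_span_pow (x ^ 2 + 1) 2).1 h)
  have f3 : ¬ ‖x ^ 2 + 1‖ < ((2 : ℕ) : ℝ) ^ (-((2 : ℕ) : ℤ) + 1) := by
    intro h
    exact f2 ((PadicInt.norm_le_pow_iff_norm_lt_pow_add_one (x ^ 2 + 1) (-((2 : ℕ) : ℤ))).2 h)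
  push Not at f3
  norm_num at f1 f3
  exact le_antisymm f1 f3

private theorem norm_sq_add_one (x : ℚ_[2]) (hx : ‖x‖ = 1) : ‖x ^ 2 + 1‖ = 1 / 2 := by
  have h := norm_sq_add_one_int ⟨x, hx.le⟩ hx
  exact_mod_cast h

private theorem sq_ne_neg_one (x : ℚ_[2]) : x ^ 2 + 1 ≠ 0 := by
  intro h
  have h1 : ‖x‖ = 1 := by
    have h2 : x ^ 2 = -1 := by linear_combination h
    have h3 : ‖x‖ ^ 2 = 1 := by rw [← norm_pow, h2, norm_neg, norm_one]
    have h4 : 0 ≤ ‖x‖ := norm_nonneg x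
    nlinarith
  have h2 := norm_sq_add_one x h1
  rw [h, norm_zero] at h2
  norm_num at h2

/-- Two steps of the tower over `ℚ_2`, `b = 2^(-2m)`, `m` even: if `P` is not `0`, `T` then the
image has first coordinate `(x^2 - b)^2 / y^2`.
Proof: `isoF` twice: `x1 = y^2/x^2`, `y1 = y (b - x^2)/x^2`, `x2 = y1^2/x1^2`; `y ≠ 0` since
otherwise `x^2 = -b` and `-1` would be a 2-adic square. -/
theorem two_step_x {b b1 b2 : ℚ} (m : ℕ) (hb : b = (1 / 2) ^ (2 * m)) (h1 : b1 = -4 * b)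
    (h2 : b2 = -4 * b1) (P : Pt b ℚ_[2]) (hP : xc b P ≠ 0) :
    yc b P ≠ 0 ∧ isoF b1 b2 (isoF b b1 P) ≠ 0 ∧
      xc b2 (isoF b1 b2 (isoF b b1 P)) =
        (xc b P ^ 2 - algebraMap ℚ ℚ_[2] b) ^ 2 / yc b P ^ 2 := by
  have hb0 : b ≠ 0 := by
    rw [hb]
    positivity
  have hP0 : P ≠ 0 := by
    rintro rfl
    exact hP rfl
  have hc := onCurve_xy b hP0
  have hbK : algebraMap ℚ ℚ_[2] b = ((1 / 2 : ℚ_[2]) ^ m) ^ 2 := by
    rw [hb, map_pow, ← pow_mul, mul_comm m 2]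
    simp
  have hy : yc b P ≠ 0 := by
    intro hy
    rw [OnCurve, hy] at hc
    have h3 : xc b P * (xc b P ^ 2 + algebraMap ℚ ℚ_[2] b) = 0 := by linear_combination -hc
    have h4 := (mul_eq_zero.1 h3).resolve_left hP
    apply sq_ne_neg_one (2 ^ m * xc b P)
    rw [hbK] at h4
    have h5 : ((2 : ℚ_[2]) ^ m) ^ 2 * ((1 / 2 : ℚ_[2]) ^ m) ^ 2 = 1 := by
      rw [← mul_pow, ← mul_pow]
      norm_num
    linear_combination ((2 : ℚ_[2]) ^ m) ^ 2 * h4 - h5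
  have hx1 := xc_iso_div hb0 h1 hP
  have hx1' : xc b1 (isoF b b1 P) ≠ 0 := by
    rw [hx1]
    exact div_ne_zero (pow_ne_zero 2 hy) (pow_ne_zero 2 hP)
  have hb1 := bprime_ne_zero hb0 h1
  have hy1 : yc b1 (isoF b b1 P) =
      yc b P * (algebraMap ℚ ℚ_[2] b - xc b P ^ 2) / xc b P ^ 2 := by
    rw [iso_of P hP, yc_mk b1 hb1 (onCurve_iso h1 hc hP)]
  refine ⟨hy, iso_ne_zero hb1 h2 hx1', ?_⟩
  rw [xc_iso_div hb1 h2 hx1', hx1, hy1]
  field_simp
  ring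

/-- norms: `‖x‖ = 2^m` is impossible for `m` even; for `‖x‖ > 2^m` the norm is unchanged; for
`‖x‖ < 2^m` the new norm is `2^(2m)/‖x‖ > 2^m`. (For `‖x‖ = 2^m` put `X = 2^m x`, a unit:
`X^2+1` has valuation one, so `(2^(3m/2) y)^2 = X (X^2+1)` would have odd valuation.) -/
theorem two_step_norm {b b1 b2 : ℚ} (m : ℕ) (hm : Even m) (hb : b = (1 / 2) ^ (2 * m))
    (h1 : b1 = -4 * b) (h2 : b2 = -4 * b1) (P : Pt b ℚ_[2]) (hP : xc b P ≠ 0) :
    (2 : ℝ) ^ m < ‖xc b2 (isoF b1 b2 (isoF b b1 P))‖ ∧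
      ((2 : ℝ) ^ m < ‖xc b P‖ → ‖xc b2 (isoF b1 b2 (isoF b b1 P))‖ = ‖xc b P‖) := by
  obtain ⟨hy, -, hx2⟩ := two_step_x m hb h1 h2 P hP
  have hP0 : P ≠ 0 := by
    rintro rfl
    exact hP rfl
  have hc := onCurve_xy b hP0
  have hbK : algebraMap ℚ ℚ_[2] b = ((1 / 2 : ℚ_[2]) ^ m) ^ 2 := by
    rw [hb, map_pow, ← pow_mul, mul_comm m 2]
    simp
  rw [hx2]
  rw [OnCurve] at hc
  set x := xc b P with hxdef
  set y := yc b P with hydef
  set t : ℚ_[2] := (1 / 2 : ℚ_[2]) ^ m with ht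
  have htn : ‖t‖ = 2 ^ m := by
    rw [ht, norm_pow, norm_div, norm_one]
    congr 1
    have : ‖(2 : ℚ_[2])‖ = 2⁻¹ := by
      have := Padic.norm_p (p := 2)
      exact_mod_cast this
    rw [this]
    norm_num
  have ht0 : t ≠ 0 := by
    rw [ht]
    exact pow_ne_zero _ (by norm_num)
  have htpos : (0 : ℝ) < 2 ^ m := by positivity
  -- X = x / t
  set X := x / t with hX
  have hxX : x = t * X := by
    rw [hX]
    field_simp
  have hXn : ‖x‖ = 2 ^ m * ‖X‖ := by rw [hxX, norm_mul, htn]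
  have hX0 : X ≠ 0 := div_ne_zero hP ht0
  have hXpos : 0 < ‖X‖ := norm_pos_iff.2 hX0
  rw [hbK] at hc ⊢
  have hy2 : y ^ 2 = t ^ 3 * (X * (X ^ 2 + 1)) := by
    rw [hc, hxX]
    ring
  have hval : (x ^ 2 - t ^ 2) ^ 2 / y ^ 2 = t * ((X ^ 2 - 1) ^ 2 / (X * (X ^ 2 + 1))) := by
    rw [hy2, hxX]
    have hX1 : X ^ 2 + 1 ≠ 0 := sq_ne_neg_one X
    field_simp
  rw [hval, norm_mul, htn, hXn]
  rcases lt_trichotomy ‖X‖ 1 with hlt | heq | hgt
  · have e1 : ‖X ^ 2‖ < 1 := by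
      rw [norm_pow]
      nlinarith
    have f1 : ‖X ^ 2 - 1‖ = 1 := by
      rw [sub_eq_add_neg, Padic.add_eq_max_of_ne, norm_neg, norm_one, max_eq_right e1.le]
      rw [norm_neg, norm_one]
      exact e1.ne
    have f2 : ‖X ^ 2 + 1‖ = 1 := by
      rw [Padic.add_eq_max_of_ne, norm_one, max_eq_right e1.le]
      rw [norm_one]
      exact e1.ne
    rw [norm_div, norm_mul, norm_pow, f1, f2]
    constructor
    · rw [one_pow, mul_one]
      have : 1 < 1 / ‖X‖ := by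
        rw [lt_div_iff₀ hXpos]
        linarith
      nlinarith
    · intro h
      exfalso
      nlinarith
  · exfalso
    have e1 := norm_sq_add_one X heq
    obtain ⟨k, hk⟩ := hm
    have hz : (y / (t * (1 / 2) ^ k)) ^ 2 = X * (X ^ 2 + 1) := by
      have hkk : t = ((1 / 2 : ℚ_[2]) ^ k) ^ 2 := by
        rw [ht, hk, ← pow_mul]
        congr 1
        ring
      have hk0 : ((1 / 2 : ℚ_[2]) ^ k) ≠ 0 := pow_ne_zero _ (by norm_num)
      rw [div_pow, hy2, mul_pow]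
      rw [← hkk]
      field_simp
    have hn : ‖y / (t * (1 / 2) ^ k)‖ ^ 2 = 1 / 2 := by
      rw [← norm_pow, hz, norm_mul, heq, e1, one_mul]
    have hzne : y / (t * (1 / 2) ^ k) ≠ 0 := by
      intro h0
      rw [h0, norm_zero] at hn
      norm_num at hn
    rw [Padic.norm_eq_zpow_neg_valuation hzne] at hn
    set j := (y / (t * (1 / 2) ^ k)).valuation with hj
    have h5 : (((2 : ℕ) : ℝ) ^ (-j)) ^ 2 = ((2 : ℕ) : ℝ) ^ (-1 : ℤ) := by
      rw [hn]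
      norm_num
    rw [← zpow_natCast, ← zpow_mul] at h5
    have h6 := zpow_right_injective₀ (by norm_num : (0 : ℝ) < ((2 : ℕ) : ℝ)) (by norm_num) h5
    push_cast at h6
    omega
  · have e1 : 1 < ‖X ^ 2‖ := by
      rw [norm_pow]
      nlinarith
    have f1 : ‖X ^ 2 - 1‖ = ‖X‖ ^ 2 := by
      rw [sub_eq_add_neg, Padic.add_eq_max_of_ne, norm_neg, norm_one, max_eq_left e1.le,
        norm_pow]
      rw [norm_neg, norm_one]
      exact e1.ne'
    have f2 : ‖X ^ 2 + 1‖ = ‖X‖ ^ 2 := by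
      rw [Padic.add_eq_max_of_ne, norm_one, max_eq_left e1.le, norm_pow]
      rw [norm_one]
      exact e1.ne'
    have f3 : (‖X‖ ^ 2) ^ 2 / (‖X‖ * ‖X‖ ^ 2) = ‖X‖ := by
      field_simp
    rw [norm_div, norm_mul, norm_pow, f1, f2, f3]
    constructor
    · nlinarith
    · intro _
      rfl

end BB37
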