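import Pool.Agent.Lib.MP_bb37eb_nt.DE.Formal

/-! Powers of Galois automorphisms act trivially on the kernel and on roots of unity. -/

namespace BB37

variable {b : ℕ → ℚ}

/-- Some `2^m`-th power of `g` acts trivially on the kernel. Proof: induction on `j`: if
`g' = g^(2^m)` acts trivially on the kernel of `down j` and `P` is in the kernel of `down (j+1)`,
then `down j P` is `0` or `T` (`ker_succ`), so `Q = g' P - P` is in the kernel of `down j`
(`down_gact`, `gact_T`), `g'^i P = P + i Q` and `2^j Q = 0` (`ker_pow`), so `g'^(2^j)` works. -/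
theorem pow_kernel (hb : Tower b) (g : GK ℚ) (d : ℕ) : ∃ m : ℕ, ∀ P : Pt (b 0) (Kb ℚ),
    downF b (Kb ℚ) d P = 0 → gact ℚ (b 0) (g ^ 2 ^ m) P = P := by
  induction d with
  | zero =>
    refine ⟨0, fun P hP => ?_⟩
    have hP' : P = 0 := hP
    rw [hP', gact_zero]
  | succ d ih =>
    obtain ⟨m, hm⟩ := ih
    refine ⟨m + d, fun P hP => ?_⟩
    have hQ : downF b (Kb ℚ) d (gact ℚ (b 0) (g ^ 2 ^ m) P - P) = 0 := by
      rw [down_sub hb, down_gact hb]
      rcases (ker_succ hb d P).1 hP with h | h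
      · rw [h, gact_zero, sub_zero]
      · rw [h, gact_T (hb.ne' d), sub_self]
    have hfix := hm _ hQ
    have hi : ∀ i : ℕ, gact ℚ (b 0) ((g ^ 2 ^ m) ^ i) P =
        P + i • (gact ℚ (b 0) (g ^ 2 ^ m) P - P) := by
      intro i
      induction i with
      | zero => rw [pow_zero, gact_one, zero_smul, add_zero]
      | succ i ihi =>
        have hs : ∀ j : ℕ, gact ℚ (b 0) (g ^ 2 ^ m) (j • (gact ℚ (b 0) (g ^ 2 ^ m) P - P)) =
            j • (gact ℚ (b 0) (g ^ 2 ^ m) P - P) := by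
          intro j
          induction j with
          | zero => rw [zero_smul, gact_zero]
          | succ j ihj => rw [succ_nsmul, gact_add, ihj, hfix]
        rw [pow_succ', gact_mul, ihi, gact_add, hs, succ_nsmul]
        abel
    have h2 := hi (2 ^ d)
    rw [ker_pow hb d _ hQ, add_zero, ← pow_mul, ← pow_add] at h2
    exact h2

/-- Some `2^m`-th power of `g` acts trivially on the roots of unity of order dividing `2^d`.
Proof: induction: if `g'` fixes all `ζ` with `ζ^(2^j) = 1` and `ζ^(2^(j+1)) = 1`, then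
`ζ^(2^j) = 1` or `-1` is fixed, so `w = g' ζ / ζ` satisfies `w^(2^j) = 1`, is fixed by `g'`, and
`g'^i ζ = ζ w^i`. -/
theorem pow_roots (g : GK ℚ) (d : ℕ) : ∃ m : ℕ, ∀ z : (Kb ℚ)ˣ, z ^ 2 ^ d = 1 →
    (g ^ 2 ^ m) • z = z := by
  induction d with
  | zero =>
    refine ⟨0, fun z hz => ?_⟩
    rw [pow_zero, pow_one] at hz
    rw [hz, smul_one]
  | succ d ih =>
    obtain ⟨m, hm⟩ := ih
    refine ⟨m + d, fun z hz => ?_⟩
    have h1 : (g ^ 2 ^ m) • (z ^ 2 ^ d) = z ^ 2 ^ d := by
      have h2 : (z ^ 2 ^ d) ^ 2 = 1 := by rw [← pow_mul, ← pow_succ, hz]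
      have h3 : ((z ^ 2 ^ d : (Kb ℚ)ˣ) : Kb ℚ) ^ 2 = 1 := by
        rw [← Units.val_pow_eq_pow_val, h2, Units.val_one]
      rcases sq_eq_one_iff.1 h3 with h | h
      · have h' : z ^ 2 ^ d = 1 := Units.ext h
        rw [h', smul_one]
      · apply Units.ext
        have h4 : (((g ^ 2 ^ m) • (z ^ 2 ^ d) : (Kb ℚ)ˣ) : Kb ℚ) =
            (g ^ 2 ^ m) ((z ^ 2 ^ d : (Kb ℚ)ˣ) : Kb ℚ) := rfl
        rw [h4, h, map_neg, map_one]
    have hw : (((g ^ 2 ^ m) • z) / z) ^ 2 ^ d = 1 := by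
      rw [div_pow, ← smul_pow', h1, div_self']
    have hfix := hm _ hw
    have hi : ∀ i : ℕ, ((g ^ 2 ^ m) ^ i) • z = z * (((g ^ 2 ^ m) • z) / z) ^ i := by
      intro i
      induction i with
      | zero => rw [pow_zero, one_smul, pow_zero, mul_one]
      | succ i ihi =>
        rw [pow_succ', mul_smul, ihi, smul_mul', smul_pow', hfix, pow_succ']
        rw [← mul_assoc]
        congr 1
        rw [mul_div_cancel]
    have h2 := hi (2 ^ d)
    rw [hw, mul_one, ← pow_mul, ← pow_add] at h2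
    exact h2

end BB37
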