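import Pool.Agent.Lib.MP_bb37eb_nt.DE.TwoGroupA

/-! A cocycle `xi` factors through a finite Galois extension with Galois group a 2-group. -/

namespace BB37

variable {b : ℕ → ℚ} {d : ℕ}

/-- `g` acts trivially on the kernel, on the roots of unity, and `xi g = 1` -/
structure Triv (ξ : Xi b d) (g : GK ℚ) : Prop where
  ker : ∀ P : Pt (b 0) (Kb ℚ), downF b (Kb ℚ) d P = 0 → gact ℚ (b 0) g P = P
  root : ∀ z : (Kb ℚ)ˣ, z ^ 2 ^ d = 1 → g • z = z
  one : ∀ P : Pt (b 0) (Kb ℚ), downF b (Kb ℚ) d P = 0 → ξ.f g P = 1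

/-- `xi (g s) = xi g` for `s` trivial: `ξ.coc` with `gact s Q = Q` -/
theorem Triv.mul_right (hb : Tower b) {ξ : Xi b d} {s : GK ℚ} (hs : Triv ξ s) (g : GK ℚ)
    {P : Pt (b 0) (Kb ℚ)} (hP : downF b (Kb ℚ) d P = 0) : ξ.f (g * s) P = ξ.f g P := by
  have hQ := ker_gact hb g⁻¹ hP
  have h := ξ.coc g s _ hQ
  have e : gact ℚ (b 0) g (gact ℚ (b 0) g⁻¹ P) = P := by
    rw [← gact_mul, mul_inv_cancel, gact_one]
  rw [e, hs.one _ hQ, smul_one, mul_one] at h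
  exact h

private theorem triv_f_one {ξ : Xi b d} {P : Pt (b 0) (Kb ℚ)}
    (hP : downF b (Kb ℚ) d P = 0) : ξ.f 1 P = 1 := by
  have h := ξ.coc 1 1 P hP
  rw [gact_one, mul_one, one_smul] at h
  exact left_eq_mul.1 h

private theorem triv_one {ξ : Xi b d} : Triv ξ (1 : GK ℚ) :=
  ⟨fun P _ => gact_one P, fun z _ => one_smul _ z, fun _ hP => triv_f_one hP⟩

private theorem triv_mul (hb : Tower b) {ξ : Xi b d} {g h : GK ℚ} (hg : Triv ξ g)
    (hh : Triv ξ h) : Triv ξ (g * h) := by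
  refine ⟨fun P hP => ?_, fun z hz => ?_, fun P hP => ?_⟩
  · rw [gact_mul, hh.ker P hP, hg.ker P hP]
  · rw [mul_smul, hh.root z hz, hg.root z hz]
  · rw [hh.mul_right hb g hP, hg.one P hP]

private theorem triv_inv (hb : Tower b) {ξ : Xi b d} {g : GK ℚ} (hg : Triv ξ g) :
    Triv ξ g⁻¹ := by
  refine ⟨fun P hP => ?_, fun z hz => ?_, fun P hP => ?_⟩
  · have h := hg.ker P hP
    apply gact_inj g
    rw [← gact_mul, mul_inv_cancel, gact_one, h]
  · rw [inv_smul_eq_iff, hg.root z hz]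
  · rw [← hg.mul_right hb g⁻¹ hP, inv_mul_cancel, triv_f_one hP]

private theorem triv_root_f (hb : Tower b) {ξ : Xi b d} {s : GK ℚ} (hs : Triv ξ s) (g : GK ℚ)
    {P : Pt (b 0) (Kb ℚ)} (hP : downF b (Kb ℚ) d P = 0) : s • ξ.f g P = ξ.f g P :=
  hs.root _ (ξ.pow_eq_one hb g hP)

/-- the trivial elements form a normal subgroup. Proof. For `one`: `ξ.coc` with `g = h = 1`.
`mul`: `Triv.mul_right`. `inv`: `ξ.coc` for `s⁻¹ * s`. `conj`: `ξ.coc` for `(g s) * g⁻¹` and for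
`g * g⁻¹`; the values of `xi` are `2^d`-th roots of unity (`Xi.pow_eq_one`), so they are fixed
by `s`. -/
def trivG (hb : Tower b) (ξ : Xi b d) : Subgroup (GK ℚ) where
  carrier := {g | Triv ξ g}
  one_mem' := by exact triv_one
  mul_mem' := by exact fun hg hh => triv_mul hb hg hh
  inv_mem' := by exact fun hg => triv_inv hb hg

theorem trivG_normal (hb : Tower b) (ξ : Xi b d) : (trivG hb ξ).Normal := by
  refine ⟨fun s hs g => ?_⟩
  have hs' : Triv ξ s := hs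
  change Triv ξ (g * s * g⁻¹)
  refine ⟨fun P hP => ?_, fun z hz => ?_, fun P hP => ?_⟩
  · rw [gact_mul, gact_mul, hs'.ker _ (ker_gact hb g⁻¹ hP), ← gact_mul, mul_inv_cancel, gact_one]
  · have h1 : (g⁻¹ • z) ^ 2 ^ d = 1 := by rw [← smul_pow', hz, smul_one]
    rw [mul_smul, mul_smul, hs'.root _ h1, smul_inv_smul]
  · have hQ := ker_gact hb g⁻¹ hP
    have e : gact ℚ (b 0) g (gact ℚ (b 0) g⁻¹ P) = P := by
      rw [← gact_mul, mul_inv_cancel, gact_one]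
    have e' : gact ℚ (b 0) (g * s) (gact ℚ (b 0) g⁻¹ P) = P := by
      rw [gact_mul, hs'.ker _ hQ, e]
    have h1 := ξ.coc (g * s) g⁻¹ _ hQ
    rw [e', hs'.mul_right hb g hP, mul_smul, triv_root_f hb hs' g⁻¹ hQ] at h1
    have h2 := ξ.coc g g⁻¹ _ hQ
    rw [e, mul_inv_cancel, triv_f_one hP] at h2
    rw [h1, ← h2]

/-- some `2^m`-th power of every `g` is trivial: by `pow_kernel` and `pow_roots` some power `g'`
acts trivially on the kernel and the roots of unity, and then `xi (g'^i) = (xi g')^i`, so take the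
`2^d`-th power -/
theorem trivG_pow (hb : Tower b) (ξ : Xi b d) (g : GK ℚ) : ∃ m : ℕ, g ^ 2 ^ m ∈ trivG hb ξ := by
  obtain ⟨m₁, h₁⟩ := pow_kernel hb g d
  obtain ⟨m₂, h₂⟩ := pow_roots g d
  have hker : ∀ (s : GK ℚ), (∀ P : Pt (b 0) (Kb ℚ), downF b (Kb ℚ) d P = 0 →
      gact ℚ (b 0) s P = P) → ∀ (i : ℕ) (P : Pt (b 0) (Kb ℚ)), downF b (Kb ℚ) d P = 0 →
      gact ℚ (b 0) (s ^ i) P = P := by
    intro s hs i
    induction i with
    | zero => intro P _; rw [pow_zero, gact_one]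
    | succ i ih => intro P hP; rw [pow_succ, gact_mul, hs P hP, ih P hP]
  have hroot : ∀ (s : GK ℚ), (∀ z : (Kb ℚ)ˣ, z ^ 2 ^ d = 1 → s • z = z) →
      ∀ (i : ℕ) (z : (Kb ℚ)ˣ), z ^ 2 ^ d = 1 → (s ^ i) • z = z := by
    intro s hs i
    induction i with
    | zero => intro z _; rw [pow_zero, one_smul]
    | succ i ih => intro z hz; rw [pow_succ, mul_smul, hs z hz, ih z hz]
  have k1 : ∀ P : Pt (b 0) (Kb ℚ), downF b (Kb ℚ) d P = 0 →
      gact ℚ (b 0) (g ^ 2 ^ (m₁ + m₂)) P = P := by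
    intro P hP
    rw [pow_add, pow_mul]
    exact hker _ h₁ _ P hP
  have k2 : ∀ z : (Kb ℚ)ˣ, z ^ 2 ^ d = 1 → (g ^ 2 ^ (m₁ + m₂)) • z = z := by
    intro z hz
    rw [pow_add, mul_comm, pow_mul]
    exact hroot _ h₂ _ z hz
  have k3 : ∀ (i : ℕ) (P : Pt (b 0) (Kb ℚ)), downF b (Kb ℚ) d P = 0 →
      ξ.f ((g ^ 2 ^ (m₁ + m₂)) ^ i) P = ξ.f (g ^ 2 ^ (m₁ + m₂)) P ^ i := by
    intro i
    induction i with
    | zero => intro P hP; rw [pow_zero, pow_zero, triv_f_one hP]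
    | succ i ih =>
      intro P hP
      have h := ξ.coc (g ^ 2 ^ (m₁ + m₂)) ((g ^ 2 ^ (m₁ + m₂)) ^ i) P hP
      rw [k1 P hP, k2 _ (ξ.pow_eq_one hb _ hP), ih P hP] at h
      rw [pow_succ', h, pow_succ']
  refine ⟨m₁ + m₂ + d, ?_⟩
  change Triv ξ _
  rw [pow_add, pow_mul]
  refine ⟨fun P hP => hker _ k1 _ P hP, fun z hz => hroot _ k2 _ z hz, fun P hP => ?_⟩
  rw [k3 _ P hP, ξ.pow_eq_one hb _ hP]

/-- the subgroup is open: it contains all `g` which agree with `1` on a finite extension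
(`ξ.smooth` with `xi 1 = 1`, `gact_smooth_set` for the finite kernel `ker_finite`, and finitely
many roots of unity) -/
theorem trivG_smooth (hb : Tower b) (ξ : Xi b d) : ∃ M : IntermediateField ℚ (Kb ℚ),
    FiniteDimensional ℚ M ∧ ∀ g : GK ℚ, Agree ℚ M g 1 → g ∈ trivG hb ξ := by
  obtain ⟨M₁, hM₁, h₁⟩ := ξ.smooth
  obtain ⟨M₂, hM₂, h₂⟩ := gact_smooth_set (K := ℚ) (c := b 0) (ker_finite hb (K := Kb ℚ) d)
  have hfin : {z : Kb ℚ | z ^ 2 ^ d = 1}.Finite := by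
    classical
    refine ((Polynomial.nthRoots (2 ^ d) (1 : Kb ℚ)).toFinset.finite_toSet).subset ?_
    intro z hz
    rw [Finset.mem_coe, Multiset.mem_toFinset, Polynomial.mem_nthRoots (by positivity)]
    exact hz
  obtain ⟨M₃, hM₃, h₃⟩ := exists_finite_sub (K := ℚ) _ hfin
  refine ⟨M₁ ⊔ M₂ ⊔ M₃, inferInstance, fun g hg => ?_⟩
  change Triv ξ g
  refine ⟨fun P hP => ?_, fun z hz => ?_, fun P hP => ?_⟩
  · have h := h₂ g 1 (fun x hx =>
      hg x (le_sup_left (a := M₁ ⊔ M₂) (le_sup_right (a := M₁) hx))) P hP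
    rw [h, gact_one]
  · apply Units.ext
    have hz' : (z : Kb ℚ) ^ 2 ^ d = 1 := by
      rw [← Units.val_pow_eq_pow_val, hz, Units.val_one]
    have h := hg (z : Kb ℚ) (le_sup_right (a := M₁ ⊔ M₂) (h₃ hz'))
    exact h
  · have h := h₁ g 1 (fun x hx =>
      hg x (le_sup_left (a := M₁ ⊔ M₂) (le_sup_left (a := M₁) hx)))
    rw [h, triv_f_one hP]

end BB37
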